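import Pool.Agent.Helper35.HG.StE

/-!
# Project HG, module RL2B
-/

set_option autoImplicit false

namespace Helper82.HG

open Helper35.HG Helper35.HC Helper35.HSF Helper35.MS Helper35.PI Helper35.PI2 Helper32.CL

/-- Linear interpolation step. -/
theorem lin_step {A B Q M : ℝ} (hB : B ≤ 0) (hAB : A * M + B ≤ 0) (hQ : 0 ≤ Q)
    (hM : 1 ≤ M * Q) : A + B * Q ≤ 0 := by
  by_cases hA : A ≤ 0
  · have : B * Q ≤ 0 := mul_nonpos_of_nonpos_of_nonneg hB hQ
    linarith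
  · have hA' : 0 ≤ A := le_of_lt (not_le.1 hA)
    have h1 : A * 1 ≤ A * (M * Q) := mul_le_mul_of_nonneg_left hM hA'
    have h2 : (A * M + B) * Q ≤ 0 := mul_nonpos_of_nonpos_of_nonneg hAB hQ
    nlinarith

/-- The quadratic in `N` from the values at the ends. -/
theorem quad_step {c₀ c₁ c₂ N M μ : ℝ} (hμ : 0 < μ) (h1 : 0 ≤ c₁)
    (hB : c₁ * μ / 2 + c₂ ≤ 0)
    (hAB : (c₀ + c₁ / (2 * μ)) * M + (c₁ * μ / 2 + c₂) ≤ 0) (hM : 1 ≤ M * N ^ 2) :
    c₀ + c₁ * N + c₂ * N ^ 2 ≤ 0 := by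
  have h2 := lin_step hB hAB (sq_nonneg N) hM
  have h3 : N ≤ μ * N ^ 2 / 2 + 1 / (2 * μ) := by
    have h4 : μ * N ^ 2 / 2 + 1 / (2 * μ) - N = (μ * N - 1) ^ 2 / (2 * μ) := by
      field_simp
      ring
    have h5 : 0 ≤ (μ * N - 1) ^ 2 / (2 * μ) := by positivity
    linarith
  have h6 : c₁ * N ≤ c₁ * (μ * N ^ 2 / 2 + 1 / (2 * μ)) := mul_le_mul_of_nonneg_left h3 h1
  have h7 : c₁ * (μ * N ^ 2 / 2 + 1 / (2 * μ)) = c₁ * μ / 2 * N ^ 2 + c₁ / (2 * μ) := by ring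
  have h8 : c₀ + c₁ / (2 * μ) + (c₁ * μ / 2 + c₂) * N ^ 2 =
      c₀ + (c₁ * μ / 2 * N ^ 2 + c₁ / (2 * μ)) + c₂ * N ^ 2 := by ring
  linarith

theorem hRL2B (hMBD : StMBD) (hPQ2B : StPQ2B) : StRL2B := by
  intro X u g N R hRH hX7 hg25
  obtain ⟨hN1, hu0, hug, hX, hR0, hR1, hR2⟩ := hRH
  have hg0 : 0 ≤ g := hu0.trans hug
  have hX0 : 0 ≤ X := by linarith
  have hW : 0 < 1 + 13 / 4 * X := by positivity
  have hh0 : 0 < hh X := by unfold hh; positivity
  have hh1 : hh X ≤ 16 / 107 := by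
    unfold hh
    rw [div_le_div_iff₀ hW (by norm_num)]
    linarith
  have hJ : Jf X = 263 / 1000 + 23 / 100 * X + 17 / 100 * hh X := rfl
  have hDp : D1f u g ≤ 3 / 10 * g := by
    unfold D1f
    have : 0 ≤ 3 / 10 * u * (u / (1 + u)) := by positivity
    linarith
  have hM := (hMBD X hX0).2
  set D := D1f u g with hD
  set V := Vf X u g with hV
  have hVJ : V = Jf X + 3 / 10 * g - 3 / 5 * u := rfl
  have hV1 : V ≤ (263 / 1000 + 17 / 100 * (16 / 107)) + 23 / 100 * X + 3 / 10 * g := by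
    rw [hVJ, hJ]; linarith
  have hV2 : V ≤ 433 / 1000 + 3 / 10 * g + 23 / 100 * X := by
    rw [hVJ, hJ]; linarith
  have hVp : V * (3 / 10 * g) ≤
      ((263 / 1000 + 17 / 100 * (16 / 107)) + 23 / 100 * X + 3 / 10 * g) * (3 / 10 * g) :=
    mul_le_mul_of_nonneg_right hV1 (by positivity)
  have hXD : (X + 1) * D ≤ X * D + 3 / 10 * g := by nlinarith
  have hVR : V * R ≤ 2 * (23 / 100) * (433 / 1000 + 3 / 10 * g) *
      (16 / 3 * N * (g * (g + 2) - u * (u + 2))) := by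
    have h1 : V * R ≤ (433 / 1000 + 3 / 10 * g + 23 / 100 * X) * R :=
      mul_le_mul_of_nonneg_right hV2 hR0
    have h2 : (433 / 1000 + 3 / 10 * g) * R ≤ (433 / 1000 + 3 / 10 * g) *
        (23 / 100 * (16 / 3 * N * (g * (g + 2) - u * (u + 2)))) :=
      mul_le_mul_of_nonneg_left hR1 (by positivity)
    have h3 : 23 / 100 * (X * R) ≤ 23 / 100 * ((433 / 1000 + 3 / 10 * g) *
        (16 / 3 * N * (g * (g + 2) - u * (u + 2)))) :=
      mul_le_mul_of_nonneg_left hR2 (by norm_num)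
    linarith
  have hFR : FR 0 X u g N R = Mf 0 X - 17835 / 10000 * (3 / 10 * g - 3 / 5 * u) + (X + 1) * D
      + 1 / 2 * (V * (3 / 10 * g)) + V * R + V / 100
      - 6938 / 10000 * (16 / 5 * N ^ 2 * (g * (g + 2)) ^ 2 / (1 + g))
      + 323 / 10000 * (4 / 3 * N * (g * (g + 2))) + 105 / 10000 - 13 / 1000 * g
      - 26 / 1000 * g ^ 2 := by
    rw [hD, hV]
    unfold FR Mf Vf
    ring
  have hS : cA0 u g + cC 1 u g * N + cD0 u g * N ^ 2 =
      -(866 / 10000) - 20176 / 100000 * g + 19 / 1000 * g ^ 2 + 10701 / 10000 * u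
      + 2 * (23 / 100) * (433 / 1000 + 3 / 10 * g) * (16 / 3 * N * (g * (g + 2) - u * (u + 2)))
      + 323 / 10000 * (4 / 3 * N * (g * (g + 2)))
      + X * (-(1447 / 10000) + 115 / 1000 * (3 / 10 * g) + D)
      - 6938 / 10000 * (16 / 5 * N ^ 2 * (g * (g + 2)) ^ 2 / (1 + g)) := by
    rw [hX, hD]
    unfold cA0 cC cD0
    ring
  have hle : FR 0 X u g N R ≤ cA0 u g + cC 1 u g * N + cD0 u g * N ^ 2 := by
    rw [hFR, hS]
    nlinarith [hM, hXD, hVp, hVR, hV1, hg0]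
  have hc1 : 0 ≤ cC 1 u g := by
    unfold cC
    have : 0 ≤ g * (g + 2) - u * (u + 2) := by nlinarith
    positivity
  have hGpos : 7 / 4 ≤ 64 / 3 * N ^ 2 * (u * (u + 2)) := by rw [← hX]; exact hX7
  have hMN : 1 ≤ 64 / 3 * (u * (u + 2)) / (7 / 4) * N ^ 2 := by
    have : 64 / 3 * (u * (u + 2)) / (7 / 4) * N ^ 2 =
        (64 / 3 * N ^ 2 * (u * (u + 2))) / (7 / 4) := by ring
    rw [this, le_div_iff₀ (by norm_num)]
    linarith
  obtain ⟨hA, hB⟩ := hPQ2B u g hu0 hug hg25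
  refine hle.trans ?_
  rcases le_total g (1 / 6) with hg6 | hg6
  · have hgp : 0 < g := by
      rcases hg0.lt_or_eq with h | h
      · exact h
      · exfalso
        have hu : u = 0 := le_antisymm (by rw [h]; exact hug) hu0
        rw [hu] at hGpos
        norm_num at hGpos
    obtain ⟨h1, h2⟩ := hA hg6
    refine quad_step (μ := 6 * g) (M := 64 / 3 * (u * (u + 2)) / (7 / 4)) (by positivity) hc1
      ?_ ?_ hMN
    · linarith
    · have h3 := h2 hgp
      have h4 : cC 1 u g / (2 * (6 * g)) = cC 1 u g / (12 * g) := by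
        congr 1; ring
      rw [h4]
      linarith
  · obtain ⟨h1, h2, h3⟩ := hB hg6
    rcases le_total (64 / 3 * (u * (u + 2))) (7 / 4) with hG | hG
    · refine quad_step (μ := 1) (M := 64 / 3 * (u * (u + 2)) / (7 / 4)) one_pos hc1 ?_ ?_ hMN
      · linarith
      · have h4 := h2 hG
        have h5 : cC 1 u g / (2 * 1) = cC 1 u g / 2 := by ring
        rw [h5]
        linarith
    · refine quad_step (μ := 1) (M := 1) one_pos hc1 ?_ ?_ ?_
      · linarith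
      · have h4 := h3 hG
        have h5 : cC 1 u g / (2 * 1) = cC 1 u g / 2 := by ring
        rw [h5]
        linarith
      · nlinarith

end Helper82.HG
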