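import Pool.Agent.Helper82.HG.St2

/-! # HG module CRO: crossing lemma (Duminy) -/

set_option autoImplicit false

namespace Pool.Agent.Helper82.HG

open Set Filter Topology

private theorem exp_up_CRO : Real.exp (1 / 8) ≤ 8 / 7 := by
  have h1 : (1 : ℝ) - 1 / 8 ≤ Real.exp (-(1 / 8)) := by
    have := Real.add_one_le_exp (-(1 / 8 : ℝ))
    linarith
  rw [Real.exp_neg] at h1
  have hp := Real.exp_pos (1 / 8 : ℝ)
  rw [le_inv_comm₀ (by norm_num) hp] at h1
  refine h1.trans ?_
  norm_num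

private theorem exp_low_CRO : (7 : ℝ) / 8 ≤ Real.exp (-(1 / 8)) := by
  have := Real.add_one_le_exp (-(1 / 8 : ℝ))
  linarith

private theorem mvt_CRO {g : Equiv.Perm ℝ} {p q : ℝ} (hN : Near g p q) {a b : ℝ} (hpa : p ≤ a)
    (hab : a < b) (hbq : b ≤ q) : ∃ ξ, a < ξ ∧ ξ < b ∧ g b - g a = deriv g ξ * (b - a) := by
  obtain ⟨ξ, hξ, he⟩ := exists_deriv_eq_slope g hab hN.cont.continuousOn (fun z hz =>
    (hN.diff z ⟨by linarith [hz.1], by linarith [hz.2]⟩).differentiableWithinAt)
  refine ⟨ξ, hξ.1, hξ.2, ?_⟩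
  rw [he]
  field_simp [sub_ne_zero.2 hab.ne']

/-- a point of `Λ` in the closed gap is an end point -/
private theorem gap_CRO {Λ : Set ℝ} {a b z : ℝ} (hG : Gap Λ a b) (hz : z ∈ Λ) (h1 : a < z) :
    b ≤ z := by
  by_contra hc
  push Not at hc
  have : z ∈ Ioo a b ∩ Λ := ⟨⟨h1, hc⟩, hz⟩
  rw [hG.2.2.2] at this
  exact this

private theorem iter_gap_CRO {Λ : Set ℝ} {g : Equiv.Perm ℝ}
    (hgap : ∀ a b, Gap Λ a b → Gap Λ (g a) (g b)) {x y : ℝ} (hG : Gap Λ x y) (k : ℕ) :
    Gap Λ (g^[k] x) (g^[k] y) := by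
  induction k with
  | zero => exact hG
  | succ k ih =>
    rw [Function.iterate_succ_apply', Function.iterate_succ_apply']
    exact hgap _ _ ih

private theorem gpush_CRO {Λ : Set ℝ} {g : Equiv.Perm ℝ} {p q x y : ℝ} (hN : Near g p q)
    (gp : g p = p) (hg : ∀ z ∈ Ioc p q, z < g z) (hgap : ∀ a b, Gap Λ a b → Gap Λ (g a) (g b))
    (hq : q ∈ Λ) (hnq : ∀ a, p ≤ a → ¬ Gap Λ a q) (hG : Gap Λ x y) (hpx : p < x) (hyq : y < q) :
    ∃ x' y', Gap Λ x' y' ∧ p < x' ∧ y' < q ∧ 2 * (y - x) * (q - x') ≤ (y' - x') * (x - p) := by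
  have hxy : x < y := hG.1
  have hgt : ∀ (k : ℕ) (z : ℝ), p < z → p < g^[k] z := by
    intro k
    induction k with
    | zero => intro z hz; exact hz
    | succ k ih =>
      intro z hz
      rw [Function.iterate_succ_apply']
      have := hN.mono (ih z hz)
      rwa [gp] at this
  -- existence of the exit time
  have hex : ∃ k : ℕ, q ≤ g^[k] y := by
    by_contra hcon
    push Not at hcon
    have hmono : Monotone (fun k : ℕ => g^[k] y) := by
      apply monotone_nat_of_le_succ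
      intro k
      rw [Function.iterate_succ_apply']
      exact (hg _ ⟨hgt k y (hpx.trans hxy), (hcon k).le⟩).le
    have hbdd : BddAbove (range fun k : ℕ => g^[k] y) := by
      refine ⟨q, ?_⟩
      rintro _ ⟨k, rfl⟩
      exact (hcon k).le
    have hlim := tendsto_atTop_ciSup hmono hbdd
    have hfix := isFixedPt_of_tendsto_iterate hlim hN.cont.continuousAt
    have hL1 : y ≤ ⨆ k : ℕ, g^[k] y := le_ciSup (f := fun k : ℕ => g^[k] y) hbdd 0
    have hL2 : ⨆ k : ℕ, g^[k] y ≤ q := ciSup_le fun k => (hcon k).le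
    have := hg _ ⟨by linarith, hL2⟩
    rw [hfix.eq] at this
    exact lt_irrefl _ this
  classical
  obtain ⟨k, hk⟩ : ∃ k, Nat.find hex = k + 1 := by
    rcases Nat.eq_zero_or_pos (Nat.find hex) with h0 | h0
    · have := Nat.find_spec hex
      rw [h0] at this
      simp at this
      linarith
    · exact ⟨Nat.find hex - 1, by omega⟩
  have hlt : ∀ j ≤ k, g^[j] y < q := by
    intro j hj
    have := Nat.find_min hex (m := j) (by omega)
    push Not at this
    exact this
  have hge : q ≤ g^[k + 1] y := by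
    have := Nat.find_spec hex
    rwa [hk] at this
  have hgaps := iter_gap_CRO hgap hG
  have hxlt : ∀ j ≤ k, g^[j] x < q := fun j hj => (hgaps j).1.trans (hlt j hj)
  have hxp : ∀ j, p < g^[j] x := fun j => hgt j x hpx
  have hstep : ∀ j ≤ k, g^[j] x < g^[j + 1] x := by
    intro j hj
    rw [Function.iterate_succ_apply']
    exact hg _ ⟨hxp j, (hxlt j hj).le⟩
  have hyx : ∀ j ≤ k, g^[j] y ≤ g^[j + 1] x := fun j hj =>
    gap_CRO (hgaps j) (hgaps (j + 1)).2.1 (hstep j hj)
  have hend : q ≤ g^[k + 1] x := by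
    by_contra hc
    push Not at hc
    have h1 : g^[k + 1] y ≤ q := gap_CRO (hgaps (k + 1)) hq hc
    have h2 : g^[k + 1] y = q := le_antisymm h1 hge
    have h3 := hgaps (k + 1)
    rw [h2] at h3
    exact hnq _ (hxp _).le h3
  obtain ⟨M, hM0, hM1, hM2⟩ := hN.lip
  -- distortion
  have hdist : ∀ j ≤ k, Real.exp (-(M * (g^[j] x - x))) * (g^[j + 1] x - g^[j] x) * (y - x) ≤
      (g^[j] y - g^[j] x) * (g x - x) := by
    intro j
    induction j with
    | zero =>
      intro _
      simp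
      rw [mul_comm]
    | succ j ih =>
      intro hj
      have hj' : j ≤ k := by omega
      have IH := ih hj'
      have hxj1 : g^[j + 1] x < q := hxlt _ hj
      obtain ⟨u, hu1, hu2, hu3⟩ := mvt_CRO hN (hxp j).le (hgaps j).1 (hlt j hj').le
      obtain ⟨w, hw1, hw2, hw3⟩ := mvt_CRO hN (hxp j).le (hstep j hj') hxj1.le
      have hyx' := hyx j hj'
      have hpj := hxp j
      have huI : u ∈ Icc p q := ⟨by linarith, by linarith⟩
      have hwI : w ∈ Icc p q := ⟨by linarith, by linarith⟩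
      have hL := hM2 w hwI u huI
      have hab : |w - u| ≤ g^[j + 1] x - g^[j] x := by
        rw [abs_le]; constructor <;> linarith
      have hL2 : Real.log (deriv g w) - M * (g^[j + 1] x - g^[j] x) ≤ Real.log (deriv g u) := by
        have h1 := (abs_le.1 hL).2
        have h2 := mul_le_mul_of_nonneg_left hab hM0
        linarith
      have hL3 : Real.exp (-(M * (g^[j + 1] x - g^[j] x))) * deriv g w ≤ deriv g u := by
        have := Real.exp_le_exp.2 hL2
        rw [Real.exp_log (hN.pos u huI), sub_eq_add_neg, Real.exp_add,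
          Real.exp_log (hN.pos w hwI)] at this
        linarith
      rw [← Function.iterate_succ_apply' g, ← Function.iterate_succ_apply' g] at hu3 hw3
      have e1 : Real.exp (-(M * (g^[j + 1] x - x))) =
          Real.exp (-(M * (g^[j + 1] x - g^[j] x))) * Real.exp (-(M * (g^[j] x - x))) := by
        rw [← Real.exp_add]; congr 1; ring
      have hgx : 0 ≤ (g^[j] y - g^[j] x) * (g x - x) := by
        have a1 := (hgaps j).1
        have a2 := hg x ⟨hpx, by linarith⟩
        exact mul_nonneg (by linarith) (by linarith)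
      have hw0 : 0 ≤ Real.exp (-(M * (g^[j + 1] x - g^[j] x))) * deriv g w :=
        mul_nonneg (Real.exp_pos _).le (hN.pos w hwI).le
      rw [hw3, hu3, e1]
      calc Real.exp (-(M * (g^[j + 1] x - g^[j] x))) * Real.exp (-(M * (g^[j] x - x))) *
            (deriv g w * (g^[j + 1] x - g^[j] x)) * (y - x)
          = (Real.exp (-(M * (g^[j + 1] x - g^[j] x))) * deriv g w) *
            (Real.exp (-(M * (g^[j] x - x))) * (g^[j + 1] x - g^[j] x) * (y - x)) := by ring
        _ ≤ (Real.exp (-(M * (g^[j + 1] x - g^[j] x))) * deriv g w) *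
            ((g^[j] y - g^[j] x) * (g x - x)) := mul_le_mul_of_nonneg_left IH hw0
        _ ≤ deriv g u * ((g^[j] y - g^[j] x) * (g x - x)) :=
            mul_le_mul_of_nonneg_right hL3 hgx
        _ = deriv g u * (g^[j] y - g^[j] x) * (g x - x) := by ring
  have hD := hdist k le_rfl
  -- the first step is short
  have hgx : g x - x ≤ 1 / 7 * (x - p) := by
    obtain ⟨ξ, h1, h2, h3⟩ := mvt_CRO hN le_rfl hpx (by linarith)
    rw [gp] at h3
    have hξI : ξ ∈ Icc p q := ⟨h1.le, by linarith⟩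
    have h4 : deriv g ξ ≤ 8 / 7 := by
      have := (abs_le.1 (hN.small ξ hξI)).2
      have := Real.exp_le_exp.2 this
      rw [Real.exp_log (hN.pos ξ hξI)] at this
      exact this.trans exp_up_CRO
    have : deriv g ξ * (x - p) ≤ 8 / 7 * (x - p) :=
      mul_le_mul_of_nonneg_right h4 (by linarith)
    linarith
  have hexp : (7 : ℝ) / 8 ≤ Real.exp (-(M * (g^[k] x - x))) := by
    refine exp_low_CRO.trans (Real.exp_le_exp.2 ?_)
    have h1 : M * (g^[k] x - x) ≤ M * (q - p) :=
      mul_le_mul_of_nonneg_left (by linarith [hxlt k le_rfl]) hM0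
    linarith
  refine ⟨g^[k] x, g^[k] y, hgaps k, hxp k, hlt k le_rfl, ?_⟩
  have hA : 0 < g^[k] y - g^[k] x := by linarith [(hgaps k).1]
  have hB : 0 < q - g^[k] x := by linarith [hxlt k le_rfl]
  have hC : 0 < y - x := by linarith
  have h1 : 7 / 8 * (q - g^[k] x) * (y - x) ≤
      Real.exp (-(M * (g^[k] x - x))) * (g^[k + 1] x - g^[k] x) * (y - x) := by
    apply mul_le_mul_of_nonneg_right _ hC.le
    exact mul_le_mul hexp (by linarith) hB.le (Real.exp_pos _).le
  have h2 : (g^[k] y - g^[k] x) * (g x - x) ≤ (g^[k] y - g^[k] x) * (1 / 7 * (x - p)) :=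
    mul_le_mul_of_nonneg_left hgx hA.le
  have h3 : 0 < (q - g^[k] x) * (y - x) := mul_pos hB hC
  nlinarith

/-- mirror image -/
private noncomputable def mir_CRO (f : Equiv.Perm ℝ) : Equiv.Perm ℝ :=
  (Equiv.neg ℝ).trans (f.trans (Equiv.neg ℝ))

private theorem mir_apply_CRO (f : Equiv.Perm ℝ) (z : ℝ) : mir_CRO f z = - f (-z) := rfl

private theorem mir_near_CRO {f : Equiv.Perm ℝ} {p q : ℝ} (hN : Near f p q) :
    Near (mir_CRO f) (-q) (-p) := by
  have hI : ∀ z ∈ Icc (-q) (-p), -z ∈ Icc p q := fun z hz => ⟨by linarith [hz.2], by linarith [hz.1]⟩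
  have hD : ∀ z ∈ Icc (-q) (-p), HasDerivAt (mir_CRO f) (deriv f (-z)) z := by
    intro z hz
    have h1 := (hN.diff (-z) (hI z hz)).hasDerivAt
    have h2 : HasDerivAt (fun w : ℝ => -w) (-1) z := hasDerivAt_neg' z
    have h3 := (HasDerivAt.comp z h1 h2).neg
    have h4 : -(deriv f (-z) * -1) = deriv f (-z) := by ring
    rw [h4] at h3
    exact h3
  have hde : ∀ z ∈ Icc (-q) (-p), deriv (mir_CRO f) z = deriv f (-z) := fun z hz => (hD z hz).deriv
  refine ⟨?_, ?_, ?_, ?_, ?_, ?_⟩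
  · intro a b hab
    rw [mir_apply_CRO, mir_apply_CRO]
    have := hN.mono (neg_lt_neg hab)
    linarith
  · exact (hN.cont.comp continuous_neg).neg
  · intro z hz
    exact (hD z hz).differentiableAt
  · intro z hz
    rw [hde z hz]; exact hN.pos _ (hI z hz)
  · intro z hz
    rw [hde z hz]; exact hN.small _ (hI z hz)
  · obtain ⟨M, h0, h1, h2⟩ := hN.lip
    refine ⟨M, h0, by linarith, ?_⟩
    intro z hz z' hz'
    rw [hde z hz, hde z' hz']
    have := h2 (-z) (hI z hz) (-z') (hI z' hz')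
    rwa [show |(-z) - (-z')| = |z - z'| by rw [← abs_neg]; ring_nf] at this

private theorem mir_gap_CRO {Λ : Set ℝ} {a b : ℝ} :
    Gap {z | -z ∈ Λ} a b ↔ Gap Λ (-b) (-a) := by
  constructor
  · rintro ⟨h1, h2, h3, h4⟩
    refine ⟨by linarith, h3, h2, ?_⟩
    rw [Set.eq_empty_iff_forall_notMem] at h4 ⊢
    rintro z ⟨⟨hz1, hz2⟩, hz3⟩
    exact h4 (-z) ⟨⟨by linarith, by linarith⟩, by simpa using hz3⟩
  · rintro ⟨h1, h2, h3, h4⟩
    refine ⟨by linarith, h3, h2, ?_⟩
    rw [Set.eq_empty_iff_forall_notMem] at h4 ⊢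
    rintro z ⟨⟨hz1, hz2⟩, hz3⟩
    exact h4 (-z) ⟨⟨by linarith, by linarith⟩, hz3⟩

private theorem gap_image_CRO {Λ : Set ℝ} {f : Equiv.Perm ℝ} (hf : ∀ z, f z ∈ Λ ↔ z ∈ Λ)
    (hm : StrictMono f) {a b : ℝ} (hG : Gap Λ a b) : Gap Λ (f a) (f b) := by
  obtain ⟨h1, h2, h3, h4⟩ := hG
  refine ⟨hm h1, (hf a).2 h2, (hf b).2 h3, ?_⟩
  rw [Set.eq_empty_iff_forall_notMem] at h4 ⊢
  rintro z ⟨⟨hz1, hz2⟩, hz3⟩
  obtain ⟨w, rfl⟩ := f.surjective z
  exact h4 w ⟨⟨hm.lt_iff_lt.1 hz1, hm.lt_iff_lt.1 hz2⟩, (hf w).1 hz3⟩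

theorem tCRO : StCRO := by
  intro Λ f g p q x y hfΛ hgΛ hpq hp hq hNf hNg fq gp hf hg hV hpx hyq
  have fgap : ∀ a b, Gap Λ a b → Gap Λ (f a) (f b) := fun a b h => gap_image_CRO hfΛ hNf.mono h
  have ggap : ∀ a b, Gap Λ a b → Gap Λ (g a) (g b) := fun a b h => gap_image_CRO hgΛ hNg.mono h
  -- no gap ends at q inside
  have hnq : ∀ a, p ≤ a → ¬ Gap Λ a q := by
    intro a ha hG
    have h1 := fgap a q hG
    rw [fq] at h1
    have h2 := hf a ⟨ha, hG.1⟩
    have := gap_CRO h1 hG.2.1 h2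
    linarith [hG.1]
  have hnp : ∀ b, b ≤ q → ¬ Gap Λ p b := by
    intro b hb hG
    have h1 := ggap p b hG
    rw [gp] at h1
    have h2 := hg b ⟨hG.1, hb⟩
    have := gap_CRO h1 hG.2.2.1 hG.1
    linarith
  -- F-push
  have fpush : ∀ x y, Gap Λ x y → p < x → y < q → ∃ x' y', Gap Λ x' y' ∧ p < x' ∧ y' < q ∧
      2 * (y - x) * (y' - p) ≤ (y' - x') * (q - y) := by
    intro x y hG h1 h2
    have h0 : (-(-q)) = q := neg_neg q
    obtain ⟨x', y', a1, a2, a3, a4⟩ := gpush_CRO (Λ := {z | -z ∈ Λ}) (g := mir_CRO f) (p := -q)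
      (q := -p) (x := -y) (y := -x) (mir_near_CRO hNf)
      (by rw [mir_apply_CRO, neg_neg, fq])
      (by
        intro z hz
        rw [mir_apply_CRO]
        have := hf (-z) ⟨by linarith [hz.2], by linarith [hz.1]⟩
        linarith)
      (by
        intro a b hab
        rw [mir_gap_CRO] at hab ⊢
        rw [mir_apply_CRO, mir_apply_CRO, neg_neg, neg_neg]
        exact fgap _ _ hab)
      (by simpa using hp)
      (by
        intro a ha hab
        rw [mir_gap_CRO, neg_neg] at hab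
        exact hnp _ (by linarith) hab)
      (by rw [mir_gap_CRO, neg_neg, neg_neg]; exact hG)
      (by linarith) (by linarith)
    rw [mir_gap_CRO] at a1
    refine ⟨-y', -x', a1, by linarith, by linarith, ?_⟩
    have e1 : 2 * (-x - -y) * (-p - x') = 2 * (y - x) * (-x' - p) := by ring
    have e2 : (y' - x') * (-y - -q) = (-x' - -y') * (q - y) := by ring
    rw [e1, e2] at a4
    exact a4
  have gpush := fun (x y : ℝ) (h : Gap Λ x y) (h1 : p < x) (h2 : y < q) =>
    gpush_CRO hNg gp hg ggap hq hnq h h1 h2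
  -- strict inclusion
  have hpx' : p < x := by
    rcases hpx.lt_or_eq with h | h
    · exact h
    · exfalso; rw [← h] at hV; exact hnp y hyq hV
  have hyq' : y < q := by
    rcases hyq.lt_or_eq with h | h
    · exact h
    · exfalso; rw [h] at hV; exact hnq x hpx hV
  -- iteration
  have iter : ∀ n : ℕ, ∃ a b, Gap Λ a b ∧ p < a ∧ b < q ∧
      4 ^ n * ((y - x) / (q - x)) * (q - a) ≤ b - a := by
    intro n
    induction n with
    | zero =>
      refine ⟨x, y, hV, hpx', hyq', ?_⟩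
      have : q - x ≠ 0 := by have := hV.1; linarith
      field_simp
      simp
    | succ n ih =>
      obtain ⟨a, b, c1, c2, c3, c4⟩ := ih
      obtain ⟨a2, b2, d1, d2, d3, d4⟩ := fpush a b c1 c2 c3
      obtain ⟨a3, b3, e1, e2, e3, e4⟩ := gpush a2 b2 d1 d2 d3
      refine ⟨a3, b3, e1, e2, e3, ?_⟩
      have hab := c1.1
      have hab2 := d1.1
      have hab3 := e1.1
      have k1 : 0 < q - b := by linarith
      have k2 : 0 < a2 - p := by linarith
      have k3 : 0 < q - a3 := by linarith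
      have k4 : 0 < b - a := by linarith
      -- (b3 - a3)(a2 - p)(q - b) ≥ 4 (b - a)(b2 - p)(q - a3)
      have s1 : 2 * (b2 - a2) * (q - a3) * (q - b) ≤ (b3 - a3) * (a2 - p) * (q - b) :=
        mul_le_mul_of_nonneg_right e4 k1.le
      have s2 : 2 * (b - a) * (b2 - p) * (q - a3) ≤ (b2 - a2) * (q - b) * (q - a3) :=
        mul_le_mul_of_nonneg_right d4 k3.le
      have s3 : 2 * (b - a) * (a2 - p) * (q - a3) ≤ 2 * (b - a) * (b2 - p) * (q - a3) := by
        apply mul_le_mul_of_nonneg_right _ k3.le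
        apply mul_le_mul_of_nonneg_left _ (by linarith)
        linarith
      have s4 : (a2 - p) * (4 * (b - a) * (q - a3)) ≤ (a2 - p) * ((b3 - a3) * (q - b)) := by
        linarith
      have s5 : 4 * (b - a) * (q - a3) ≤ (b3 - a3) * (q - b) := le_of_mul_le_mul_left s4 k2
      have s6 : (b3 - a3) * (q - b) ≤ (b3 - a3) * (q - a) :=
        mul_le_mul_of_nonneg_left (by linarith) (by linarith)
      have k5 : 0 < q - a := by linarith
      -- divide by q - a
      have s7 : 4 ^ n * ((y - x) / (q - x)) * (q - a) * (4 * (q - a3)) ≤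
          (b - a) * (4 * (q - a3)) := mul_le_mul_of_nonneg_right c4 (by linarith)
      have s8 : (q - a) * (4 ^ (n + 1) * ((y - x) / (q - x)) * (q - a3)) ≤
          (q - a) * (b3 - a3) := by
        rw [pow_succ]
        linarith
      exact le_of_mul_le_mul_left s8 k5
  have hr : 0 < (y - x) / (q - x) := div_pos (by linarith [hV.1]) (by linarith [hV.1])
  obtain ⟨n, hn⟩ := pow_unbounded_of_one_lt (1 / ((y - x) / (q - x))) (by norm_num : (1 : ℝ) < 4)
  obtain ⟨a, b, c1, c2, c3, c4⟩ := iter n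
  have h1 : 1 < 4 ^ n * ((y - x) / (q - x)) := by
    rwa [div_lt_iff₀ hr] at hn
  have h2 : 0 < q - a := by linarith [c1.1]
  have h3 : 1 * (q - a) < 4 ^ n * ((y - x) / (q - x)) * (q - a) := mul_lt_mul_of_pos_right h1 h2
  linarith

end Pool.Agent.Helper82.HG
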