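import Pool.Agent.Helper82.HG.St2

/-!
# MP_10ef18_an (Hector), module CTL: control of the distortion along a path
-/

set_option autoImplicit false

namespace Pool.Agent.Helper82.HG

open Set

private theorem T_apply (x : ℝ) : T x = x + 1 := rfl

private theorem T_zpow_apply (m : ℤ) : ∀ x : ℝ, (T ^ m) x = x + m := by
  have hnat : ∀ (n : ℕ) (x : ℝ), (T ^ n) x = x + n := by
    intro n
    induction n with
    | zero => intro x; simp
    | succ n ih =>
      intro x
      rw [pow_succ', Equiv.Perm.mul_apply, ih, T_apply]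
      push_cast
      ring
  intro x
  cases m with
  | ofNat n => simpa using hnat n x
  | negSucc n =>
    rw [zpow_negSucc]
    rw [Equiv.Perm.inv_eq_iff_eq]
    rw [hnat]
    push_cast
    ring

private theorem path_mem {S : Set (Equiv.Perm ℝ)} {v : ℝ × ℝ} {g : Equiv.Perm ℝ}
    {l : List (ℝ × ℝ)} (h : Pth S v g l) : g ∈ Gr S := by
  induction h with
  | nil => exact one_mem _
  | tr m _ ih =>
    exact mul_mem (zpow_mem (Subgroup.subset_closure (Set.mem_insert _ _)) m) ih
  | step s hs _ ih =>
    exact mul_mem (Subgroup.subset_closure (Set.mem_insert_of_mem _ hs)) ih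

private theorem len_nonneg (u : ℝ × ℝ) : 0 ≤ len u := abs_nonneg _

private theorem cost_nonneg (l : List (ℝ × ℝ)) : 0 ≤ cost l := by
  unfold cost
  apply List.sum_nonneg
  intro x hx
  rw [List.mem_map] at hx
  obtain ⟨u, -, rfl⟩ := hx
  exact len_nonneg u

private theorem cost_cons (u : ℝ × ℝ) (l : List (ℝ × ℝ)) : cost (u :: l) = len u + cost l := by
  simp [cost]

private theorem exp_half_le : Real.exp (1 / 2) ≤ 2 := by
  have h1 : Real.exp (1 / 2) * Real.exp (1 / 2) = Real.exp 1 := by
    rw [← Real.exp_add]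
    norm_num
  have h2 := Real.exp_one_lt_d9
  have h3 := Real.exp_pos (1 / 2)
  nlinarith

/-- mean value theorem for the pair `v` -/
private theorem mvt (g : ℝ → ℝ) (hg : Differentiable ℝ g) (v : ℝ × ℝ) (hv : v.1 ≠ v.2) :
    ∃ ξ, min v.1 v.2 < ξ ∧ ξ < max v.1 v.2 ∧ |deriv g ξ| = |g v.1 - g v.2| / |v.1 - v.2| := by
  rcases lt_or_gt_of_ne hv with h | h
  · obtain ⟨ξ, hξ, he⟩ := exists_deriv_eq_slope g h hg.continuous.continuousOn
      hg.differentiableOn
    refine ⟨ξ, ?_, ?_, ?_⟩
    · rw [min_eq_left h.le]; exact hξ.1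
    · rw [max_eq_right h.le]; exact hξ.2
    · rw [he, abs_div, abs_sub_comm (g v.2), abs_sub_comm v.2]
  · obtain ⟨ξ, hξ, he⟩ := exists_deriv_eq_slope g h hg.continuous.continuousOn
      hg.differentiableOn
    refine ⟨ξ, ?_, ?_, ?_⟩
    · rw [min_eq_right h.le]; exact hξ.1
    · rw [max_eq_left h.le]; exact hξ.2
    · rw [he, abs_div]

private theorem width {v : ℝ × ℝ} {ρ y z : ℝ}
    (hy : y ∈ Icc (min v.1 v.2 - ρ) (max v.1 v.2 + ρ))
    (hz : z ∈ Icc (min v.1 v.2 - ρ) (max v.1 v.2 + ρ)) : |y - z| ≤ len v + 2 * ρ := by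
  have h : max v.1 v.2 - min v.1 v.2 = |v.1 - v.2| := by
    rw [max_sub_min_eq_abs]
    rw [abs_sub_comm]
  unfold len
  rw [← h, abs_le]
  constructor <;> linarith [hy.1, hy.2, hz.1, hz.2]

/-- MODULE CTL. -/
theorem tCTL : StBAS → StCTL := by
  intro hB K S hK hS v h l ρ hv hρ hp
  have hℓ : 0 < len v := by
    unfold len
    exact abs_pos.2 (sub_ne_zero.2 hv)
  induction hp with
  | nil =>
    intro _ y _ z _
    have h1 : ∀ x : ℝ, deriv (⇑(1 : Equiv.Perm ℝ)) x = 1 := by
      intro x
      have : (⇑(1 : Equiv.Perm ℝ)) = (id : ℝ → ℝ) := rfl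
      rw [this, deriv_id]
    rw [h1, h1]
    simp [cost]
  | @tr g l m hp ih =>
    intro hc y hy z hz
    have h1 : ∀ x : ℝ, deriv (⇑(T ^ m * g)) x = deriv (⇑g) x := by
      intro x
      have : (⇑(T ^ m * g)) = fun t : ℝ => g t + (m : ℝ) := by
        funext t
        rw [Equiv.Perm.mul_apply, T_zpow_apply]
      rw [this, deriv_add_const]
    rw [h1, h1]
    exact ih hc y hy z hz
  | @step g l s hs hp ih =>
    intro hc y hy z hz
    rw [cost_cons] at hc ⊢
    have hlen := len_nonneg (act g v)
    have hcost := cost_nonneg l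
    have hwid : 0 ≤ len v + 2 * ρ := by linarith
    have hc' : 4 * K * cost l * (len v + 2 * ρ) ≤ len v := by
      have : 4 * K * cost l * (len v + 2 * ρ)
          ≤ 4 * K * (len (act g v) + cost l) * (len v + 2 * ρ) := by
        apply mul_le_mul_of_nonneg_right _ hwid
        apply mul_le_mul_of_nonneg_left _ (by positivity)
        linarith
      linarith
    have IH := ih hc'
    have hgm : g ∈ Gr S := path_mem hp
    obtain ⟨gd, gn, -, -⟩ := hB K S hS g hgm
    have hsn := hS.nice s hs
    -- the point of the mean value theorem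
    obtain ⟨ξ, hξ1, hξ2, hξ3⟩ := mvt g gd v hv
    have hξ : ξ ∈ Icc (min v.1 v.2 - ρ) (max v.1 v.2 + ρ) := ⟨by linarith, by linarith⟩
    have hξ3' : |deriv g ξ| = len (act g v) / len v := hξ3
    -- bound of the derivative
    have hder : ∀ x ∈ Icc (min v.1 v.2 - ρ) (max v.1 v.2 + ρ),
        ‖deriv g x‖ ≤ 2 * (len (act g v) / len v) := by
      intro x hx
      have h1 := IH x hx ξ hξ
      have h2 : 2 * K * cost l / len v * |x - ξ| ≤ 1 / 2 := by
        have hw := width hx hξ
        have h3 : 2 * K * cost l / len v * |x - ξ|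
            ≤ 2 * K * cost l / len v * (len v + 2 * ρ) := by
          apply mul_le_mul_of_nonneg_left hw
          positivity
        have h4 : 2 * K * cost l / len v * (len v + 2 * ρ)
            = (4 * K * cost l * (len v + 2 * ρ)) / len v / 2 := by
          field_simp
          ring
        have h5 : (4 * K * cost l * (len v + 2 * ρ)) / len v ≤ 1 := by
          rw [div_le_one hℓ]
          exact hc'
        rw [h4] at h3
        linarith
      have h3 : Real.log |deriv g x| ≤ Real.log |deriv g ξ| + 1 / 2 := by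
        have := (abs_le.1 h1).2
        linarith
      have px : 0 < |deriv g x| := abs_pos.2 (gn x)
      have pξ : 0 < |deriv g ξ| := abs_pos.2 (gn ξ)
      have h4 : |deriv g x| ≤ |deriv g ξ| * Real.exp (1 / 2) := by
        calc |deriv g x| = Real.exp (Real.log |deriv g x|) := (Real.exp_log px).symm
          _ ≤ Real.exp (Real.log |deriv g ξ| + 1 / 2) := Real.exp_le_exp.2 h3
          _ = |deriv g ξ| * Real.exp (1 / 2) := by rw [Real.exp_add, Real.exp_log pξ]
      rw [Real.norm_eq_abs]
      calc |deriv g x| ≤ |deriv g ξ| * Real.exp (1 / 2) := h4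
        _ ≤ |deriv g ξ| * 2 := mul_le_mul_of_nonneg_left exp_half_le pξ.le
        _ = 2 * (len (act g v) / len v) := by rw [hξ3']; ring
    have hmv : |g y - g z| ≤ 2 * (len (act g v) / len v) * |y - z| := by
      have := Convex.norm_image_sub_le_of_norm_deriv_le (fun x _ => gd x) hder
        (convex_Icc _ _) hz hy
      simpa [Real.norm_eq_abs] using this
    -- chain rule
    have hch : ∀ x : ℝ, Real.log |deriv (⇑(s * g)) x|
        = Real.log |deriv s (g x)| + Real.log |deriv g x| := by
      intro x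
      have h1 : (⇑(s * g)) = (⇑s) ∘ (⇑g) := rfl
      rw [h1, deriv_comp x (hsn.diff _) (gd x), abs_mul,
        Real.log_mul (abs_pos.2 (hsn.ne _)).ne' (abs_pos.2 (gn x)).ne']
    rw [hch, hch]
    have hs1 := hsn.lip (g y) (g z)
    have hg1 := IH y hy z hz
    have e1 : Real.log |deriv s (g y)| + Real.log |deriv g y|
        - (Real.log |deriv s (g z)| + Real.log |deriv g z|)
        = (Real.log |deriv s (g y)| - Real.log |deriv s (g z)|)
          + (Real.log |deriv g y| - Real.log |deriv g z|) := by ring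
    rw [e1]
    refine (abs_add_le _ _).trans ?_
    calc abs (Real.log (|deriv s (g y)|) - Real.log (|deriv s (g z)|))
          + abs (Real.log (|deriv g y|) - Real.log (|deriv g z|))
      _ ≤ K * |g y - g z| + 2 * K * cost l / len v * |y - z| := add_le_add hs1 hg1
      _ ≤ K * (2 * (len (act g v) / len v) * |y - z|) + 2 * K * cost l / len v * |y - z| := by
          gcongr
      _ = 2 * K * (len (act g v) + cost l) / len v * |y - z| := by ring

end Pool.Agent.Helper82.HG
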