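import Pool.Agent.Helper82.HG.St2

/-! # HG module CTM: bilipschitz control along a path -/

set_option autoImplicit false

namespace Pool.Agent.Helper82.HG

open Set

private theorem T_mem_CTM (S : Set (Equiv.Perm ℝ)) : T ∈ Gr S :=
  Subgroup.subset_closure (Set.mem_insert _ _)

private theorem pth_mem_CTM {S : Set (Equiv.Perm ℝ)} {v : ℝ × ℝ} {h : Equiv.Perm ℝ}
    {l : List (ℝ × ℝ)} (H : Pth S v h l) : h ∈ Gr S := by
  induction H with
  | nil => exact one_mem _
  | tr m _ ih => exact mul_mem (zpow_mem (T_mem_CTM S) m) ih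
  | step s hs _ ih => exact mul_mem (Subgroup.subset_closure (Set.mem_insert_of_mem _ hs)) ih

private theorem cost_nonneg_CTM (l : List (ℝ × ℝ)) : 0 ≤ cost l := by
  unfold cost
  apply List.sum_nonneg
  intro x hx
  rw [List.mem_map] at hx
  obtain ⟨u, -, rfl⟩ := hx
  exact abs_nonneg _

private theorem exp_half_CTM : Real.exp (1 / 2) ≤ 2 := by
  have h1 : Real.exp (1 / 2) * Real.exp (1 / 2) = Real.exp 1 := by
    rw [← Real.exp_add]; norm_num
  have h2 := Real.exp_one_lt_d9
  by_contra hc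
  push Not at hc
  nlinarith

/-- two positive numbers whose logs differ by at most `1/2` -/
private theorem ratio_CTM {a b : ℝ} (ha : 0 < a) (hb : 0 < b)
    (h : |Real.log a - Real.log b| ≤ 1 / 2) : 1 / 2 * b ≤ a ∧ a ≤ 2 * b := by
  have key : ∀ {a b : ℝ}, 0 < a → 0 < b → Real.log a - Real.log b ≤ 1 / 2 → a ≤ 2 * b := by
    intro a b ha hb h
    have h1 : Real.log a ≤ Real.log b + 1 / 2 := by linarith
    have h2 := Real.exp_le_exp.2 h1
    rw [Real.exp_log ha, Real.exp_add, Real.exp_log hb] at h2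
    have := exp_half_CTM
    nlinarith
  rw [abs_le] at h
  refine ⟨?_, key ha hb h.2⟩
  have := key hb ha (by linarith)
  linarith

private theorem mvt_CTM {h : ℝ → ℝ} (hd : Differentiable ℝ h) {a b : ℝ} (hab : a < b) :
    ∃ ξ ∈ Ioo a b, |h b - h a| = |deriv h ξ| * (b - a) := by
  obtain ⟨ξ, hξ, he⟩ := exists_deriv_eq_slope h hab hd.continuous.continuousOn
    (hd.differentiableOn)
  refine ⟨ξ, hξ, ?_⟩
  have hpos : 0 < b - a := by linarith
  rw [he, abs_div, abs_of_pos hpos]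
  field_simp

theorem tCTM : StBAS → StCTL → StCTM := by
  intro hB hC K S hK hG v h l ρ hv hρ hP hcost
  obtain ⟨hd, hne, -, -⟩ := hB K S hG h (pth_mem_CTM hP)
  have hl : 0 < len v := abs_pos.2 (sub_ne_zero.2 hv)
  have hc0 := cost_nonneg_CTM l
  have hlen : len v = max v.1 v.2 - min v.1 v.2 := by
    unfold len
    rw [max_sub_min_eq_abs']
  -- oscillation of the log derivative
  have osc : ∀ a ∈ Icc (min v.1 v.2 - ρ) (max v.1 v.2 + ρ),
      ∀ b ∈ Icc (min v.1 v.2 - ρ) (max v.1 v.2 + ρ),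
      |Real.log (|deriv h a|) - Real.log (|deriv h b|)| ≤ 1 / 2 := by
    intro a ha b hb
    have h1 := hC K S hK hG v h l ρ hv hρ hP hcost a ha b hb
    refine h1.trans ?_
    have hab : |a - b| ≤ len v + 2 * ρ := by
      rw [hlen, abs_le]
      constructor <;> linarith [ha.1, ha.2, hb.1, hb.2]
    have h2 : 2 * K * cost l / len v * |a - b| ≤ 2 * K * cost l / len v * (len v + 2 * ρ) :=
      mul_le_mul_of_nonneg_left hab (by positivity)
    refine h2.trans ?_
    rw [div_mul_eq_mul_div, div_le_iff₀ hl]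
    linarith
  -- the reference point
  have hmm : min v.1 v.2 < max v.1 v.2 := by linarith [hlen, hl]
  obtain ⟨ξ, hξ, he⟩ := mvt_CTM hd hmm
  have hξI : ξ ∈ Icc (min v.1 v.2 - ρ) (max v.1 v.2 + ρ) :=
    ⟨by linarith [hξ.1], by linarith [hξ.2]⟩
  have hact : len (act h v) = |h (max v.1 v.2) - h (min v.1 v.2)| := by
    unfold len act
    rcases le_total v.1 v.2 with hh | hh
    · rw [max_eq_right hh, min_eq_left hh, abs_sub_comm]
    · rw [max_eq_left hh, min_eq_right hh]
  have href : |deriv h ξ| = len (act h v) / len v := by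
    rw [hact, he, hlen]
    have : max v.1 v.2 - min v.1 v.2 ≠ 0 := by linarith
    field_simp
  have main : ∀ y z : ℝ, y < z → y ∈ Icc (min v.1 v.2 - ρ) (max v.1 v.2 + ρ) →
      z ∈ Icc (min v.1 v.2 - ρ) (max v.1 v.2 + ρ) →
      1 / 2 * (len (act h v) / len v) * (z - y) ≤ |h z - h y| ∧
      |h z - h y| ≤ 2 * (len (act h v) / len v) * (z - y) := by
    intro y z hyz hy hz
    obtain ⟨η, hη, hη2⟩ := mvt_CTM hd hyz
    have hηI : η ∈ Icc (min v.1 v.2 - ρ) (max v.1 v.2 + ρ) :=
      ⟨by linarith [hη.1, hy.1], by linarith [hη.2, hz.2]⟩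
    obtain ⟨r1, r2⟩ := ratio_CTM (abs_pos.2 (hne η)) (abs_pos.2 (hne ξ)) (osc η hηI ξ hξI)
    rw [href] at r1 r2
    rw [hη2]
    have : 0 ≤ z - y := by linarith
    exact ⟨mul_le_mul_of_nonneg_right r1 this, mul_le_mul_of_nonneg_right r2 this⟩
  intro y hy z hz
  rcases lt_trichotomy y z with hyz | hyz | hyz
  · obtain ⟨m1, m2⟩ := main y z hyz hy hz
    rw [abs_sub_comm (h y), abs_sub_comm y z, abs_of_pos (by linarith : 0 < z - y)]
    exact ⟨m1, m2⟩
  · subst hyz; simp
  · obtain ⟨m1, m2⟩ := main z y hyz hz hy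
    rw [abs_of_pos (by linarith : 0 < y - z)]
    exact ⟨m1, m2⟩

end Pool.Agent.Helper82.HG
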