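import Pool.Agent.Helper82.HG.St2

/-!
# HG, module NCF (helper33): no common fixed point of the loops
-/

set_option autoImplicit false

namespace Pool.Agent.Helper82.HG

open Set MeasureTheory

private theorem cost_nonneg_NCF (l : List (ℝ × ℝ)) : 0 ≤ cost l := by
  unfold cost
  apply List.sum_nonneg
  intro x hx
  rw [List.mem_map] at hx
  obtain ⟨u, _, rfl⟩ := hx
  exact abs_nonneg _

private theorem num_NCF {A B Y : ℕ → ℝ} {C : ℝ} (hC : 0 < C) (h0 : A 0 < Y 0)
    (h1 : ∀ k, Y 0 ≤ Y k) (h2 : ∀ k, A k ≤ A 0) (h3 : ∀ k, Y k - A k ≤ C * (B k - A k))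
    (h4 : ∀ k, B k - A k ≤ 1) (h5 : ∀ k, B (k + 1) < A k) : False := by
  set lam : ℝ := (Y 0 - A 0) / C with hlam
  have hl : 0 < lam := div_pos (sub_pos.2 h0) hC
  have hlC : C * lam = Y 0 - A 0 := by rw [hlam]; field_simp
  have h6 : ∀ k, lam ≤ B k - A k := by
    intro k
    have : C * lam ≤ C * (B k - A k) := by
      rw [hlC]
      linarith [h1 k, h2 k, h3 k]
    exact le_of_mul_le_mul_left this hC
  have h7 : ∀ k : ℕ, A k ≤ A 0 - k * lam := by
    intro k
    induction k with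
    | zero => simp
    | succ k ih =>
      have := h5 k
      have := h6 (k + 1)
      push_cast
      linarith
  have h8 : ∀ k, Y 0 - C ≤ A k := by
    intro k
    have u1 := h3 k
    have u2 : C * (B k - A k) ≤ C * 1 := mul_le_mul_of_nonneg_left (h4 k) hC.le
    linarith [h1 k]
  obtain ⟨k, hk⟩ := exists_nat_gt ((A 0 - (Y 0 - C)) / lam)
  rw [div_lt_iff₀ hl] at hk
  linarith [h7 k, h8 k]

/-- the case of a point on the right -/
private theorem case1_NCF {Γ : Subgroup (Equiv.Perm ℝ)} {e c y x0 C : ℝ}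
    (hmon : ∀ g ∈ Γ, StrictMono g ∨ StrictAnti g) (hC : 0 < C) (h1 : e < c) (h2 : c < x0)
    (h3 : x0 < y) (star : ∀ g ∈ Γ, |g e - g y| ≤ C * |g e - g c|)
    (len1 : ∀ g ∈ Γ, |g e - g c| ≤ 1)
    (hfind : ∀ η > 0, ∃ g ∈ Γ, |g e - x0| < η ∧ |g e - g c| < η) : False := by
  set δ : ℝ := min (x0 - c) (y - x0) with hδ
  have hδ0 : 0 < δ := lt_min (sub_pos.2 h2) (sub_pos.2 h3)
  have hδ1 : δ ≤ x0 - c := min_le_left _ _
  have hδ2 : δ ≤ y - x0 := min_le_right _ _
  obtain ⟨g, hg, hg1, hg2⟩ := hfind (δ / (1 + C)) (div_pos hδ0 (by linarith))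
  have hsum : δ / (1 + C) + C * (δ / (1 + C)) = δ := by
    field_simp
  have hgy : |g e - g y| ≤ C * (δ / (1 + C)) :=
    (star g hg).trans (mul_le_mul_of_nonneg_left hg2.le hC.le)
  have hey : e < y := by linarith
  have e1 := abs_lt.1 hg1
  have e2 := abs_le.1 hgy
  have hge : c < g e ∧ g e < y := by
    have : 0 ≤ C * (δ / (1 + C)) := (abs_nonneg _).trans hgy
    constructor <;> linarith [e1.1, e1.2]
  have hgy' : c < g y ∧ g y < y := by
    constructor <;> linarith [e1.1, e1.2, e2.1, e2.2]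
  have hmap : ∀ z, e ≤ z → z ≤ y → c < g z ∧ g z < y := by
    intro z hz1 hz2
    rcases hmon g hg with ho | ho
    · exact ⟨lt_of_lt_of_le hge.1 (ho.monotone hz1), lt_of_le_of_lt (ho.monotone hz2) hgy'.2⟩
    · exact ⟨lt_of_lt_of_le hgy'.1 (ho.antitone hz2), lt_of_le_of_lt (ho.antitone hz1) hge.2⟩
  set γ : Equiv.Perm ℝ := g * g with hγ
  have hγm : StrictMono γ := by
    intro z z' hz
    rw [hγ, Equiv.Perm.mul_apply, Equiv.Perm.mul_apply]
    rcases hmon g hg with ho | ho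
    · exact ho (ho hz)
    · exact ho (ho hz)
  have hγe : c < γ e := by
    rw [hγ, Equiv.Perm.mul_apply]
    exact (hmap _ (by linarith [hge.1]) hge.2.le).1
  have hγy : γ y < y := by
    rw [hγ, Equiv.Perm.mul_apply]
    exact (hmap _ (by linarith [hgy'.1]) hgy'.2.le).2
  set d : Equiv.Perm ℝ := γ⁻¹ with hd
  have hγd : ∀ z, γ (d z) = z := fun z => γ.apply_symm_apply z
  have hdm : StrictMono d := by
    intro z z' hz
    rw [← hγm.lt_iff_lt, hγd, hγd]
    exact hz
  have hdk : ∀ k : ℕ, d ^ k ∈ Γ := fun k => pow_mem (inv_mem (mul_mem hg hg)) k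
  have hdkm : ∀ k : ℕ, StrictMono (d ^ k) := by
    intro k
    induction k with
    | zero => simpa using strictMono_id
    | succ k ih =>
      intro z z' hz
      rw [pow_succ, Equiv.Perm.mul_apply, Equiv.Perm.mul_apply]
      exact ih (hdm hz)
  have hde : d e ≤ e := by
    rw [← hγm.le_iff_le, hγd]
    linarith
  have hdy : y ≤ d y := by
    rw [← hγm.le_iff_le, hγd]
    exact hγy.le
  have hdc : d c < e := by
    rw [← hγm.lt_iff_lt, hγd]
    exact hγe
  have hsucc : ∀ (k : ℕ) z, (d ^ (k + 1)) z = (d ^ k) (d z) := by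
    intro k z
    rw [pow_succ, Equiv.Perm.mul_apply]
  refine num_NCF (A := fun k => (d ^ k) e) (B := fun k => (d ^ k) c) (Y := fun k => (d ^ k) y)
    hC ?_ ?_ ?_ ?_ ?_ ?_
  · simpa using hey
  · intro k
    induction k with
    | zero => exact le_refl _
    | succ k ih =>
      refine ih.trans ?_
      show (d ^ k) y ≤ (d ^ (k + 1)) y
      rw [hsucc]
      exact (hdkm k).monotone hdy
  · intro k
    induction k with
    | zero => exact le_refl _
    | succ k ih =>
      refine le_trans ?_ ih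
      show (d ^ (k + 1)) e ≤ (d ^ k) e
      rw [hsucc]
      exact (hdkm k).monotone hde
  · intro k
    have u1 := star _ (hdk k)
    have u2 := (hdkm k) h1
    have u3 := (hdkm k) hey
    rw [abs_of_neg (by linarith), abs_of_neg (by linarith)] at u1
    show (d ^ k) y - (d ^ k) e ≤ C * ((d ^ k) c - (d ^ k) e)
    linarith
  · intro k
    have u1 := len1 _ (hdk k)
    have u2 := (hdkm k) h1
    rw [abs_of_neg (by linarith)] at u1
    show (d ^ k) c - (d ^ k) e ≤ 1
    linarith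
  · intro k
    show (d ^ (k + 1)) c < (d ^ k) e
    rw [hsucc]
    exact hdkm k hdc

/-- the case of a point on the left -/
private theorem case2_NCF {Γ : Subgroup (Equiv.Perm ℝ)} {e c y x0 C : ℝ}
    (hmon : ∀ g ∈ Γ, StrictMono g ∨ StrictAnti g) (hC : 0 < C) (h1 : c < e) (h2 : x0 < c)
    (h3 : y < x0) (star : ∀ g ∈ Γ, |g e - g y| ≤ C * |g e - g c|)
    (len1 : ∀ g ∈ Γ, |g e - g c| ≤ 1)
    (hfind : ∀ η > 0, ∃ g ∈ Γ, |g e - x0| < η ∧ |g e - g c| < η) : False := by
  set N : Equiv.Perm ℝ := Equiv.neg ℝ with hN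
  have key : ∀ (g : Equiv.Perm ℝ) (z : ℝ), (MulAut.conj N g) z = -g (-z) := by
    intro g z
    rfl
  have hNN : ∀ g : Equiv.Perm ℝ, MulAut.conj N (MulAut.conj N g) = g := by
    intro g
    ext z
    rw [key, key, neg_neg, neg_neg]
  refine case1_NCF (Γ := Γ.comap (MulAut.conj N).toMonoidHom) (e := -e) (c := -c) (y := -y)
    (x0 := -x0) (C := C) ?_ hC (by linarith) (by linarith) (by linarith) ?_ ?_ ?_
  · intro g hg
    have hg' : MulAut.conj N g ∈ Γ := hg
    rcases hmon _ hg' with ho | ho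
    · left
      intro z z' hz
      have := ho (neg_lt_neg hz)
      rw [key, key, neg_neg, neg_neg] at this
      linarith
    · right
      intro z z' hz
      have := ho (neg_lt_neg hz)
      rw [key, key, neg_neg, neg_neg] at this
      linarith
  · intro g hg
    have hg' : MulAut.conj N g ∈ Γ := hg
    have u := star _ hg'
    rw [key, key, key] at u
    rw [show -g (-e) - -g (-y) = -(g (-e) - g (-y)) by ring, abs_neg,
      show -g (-e) - -g (-c) = -(g (-e) - g (-c)) by ring, abs_neg] at u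
    exact u
  · intro g hg
    have hg' : MulAut.conj N g ∈ Γ := hg
    have u := len1 _ hg'
    rw [key, key] at u
    rw [show -g (-e) - -g (-c) = -(g (-e) - g (-c)) by ring, abs_neg] at u
    exact u
  · intro η hη
    obtain ⟨g, hg, u1, u2⟩ := hfind η hη
    refine ⟨MulAut.conj N g, ?_, ?_, ?_⟩
    · show MulAut.conj N (MulAut.conj N g) ∈ Γ
      rw [hNN]
      exact hg
    · rw [key, neg_neg, show -g e - -x0 = -(g e - x0) by ring, abs_neg]
      exact u1
    · rw [key, key, neg_neg, neg_neg, show -g e - -g c = -(g e - g c) by ring, abs_neg]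
      exact u2

/-- three points of `Λ` -/
private theorem three_NCF {Λ : Set ℝ} (hacc : ∀ x ∈ Λ, ∀ ε > 0, ∃ y ∈ Λ, y ≠ x ∧ |y - x| < ε)
    {x η : ℝ} (hx : x ∈ Λ) (hη : 0 < η) : ∃ l ∈ Λ, ∃ m ∈ Λ, ∃ r ∈ Λ, l < m ∧ m < r ∧
      |l - x| < η ∧ |r - x| < η := by
  obtain ⟨z1, hz1, hn1, hd1⟩ := hacc x hx η hη
  have hp : 0 < |z1 - x| := abs_pos.2 (sub_ne_zero.2 hn1)
  obtain ⟨z2, hz2, hn2, hd2⟩ := hacc x hx (|z1 - x|) hp
  have hn3 : z1 ≠ z2 := by
    rintro rfl
    exact lt_irrefl _ hd2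
  have hd2' : |z2 - x| < η := hd2.trans hd1
  have hx0 : |x - x| < η := by rw [sub_self, abs_zero]; exact hη
  rcases lt_or_gt_of_ne hn1 with c1 | c1 <;> rcases lt_or_gt_of_ne hn2 with c2 | c2
  · rcases lt_or_gt_of_ne hn3 with c3 | c3
    · exact ⟨z1, hz1, z2, hz2, x, hx, c3, c2, hd1, hx0⟩
    · exact ⟨z2, hz2, z1, hz1, x, hx, c3, c1, hd2', hx0⟩
  · exact ⟨z1, hz1, x, hx, z2, hz2, c1, c2, hd1, hd2'⟩
  · exact ⟨z2, hz2, x, hx, z1, hz1, c2, c1, hd2', hd1⟩
  · rcases lt_or_gt_of_ne hn3 with c3 | c3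
    · exact ⟨x, hx, z1, hz1, z2, hz2, c1, c3, hx0, hd2'⟩
    · exact ⟨x, hx, z2, hz2, z1, hz1, c2, c3, hx0, hd1⟩

theorem tNCF : StBAS → StLAM → StCTM → StPA → StPB → StNCF := by
  intro hB hLM hCM hPA hPB K S Λ hK hS hΛ a b Θ ρ y hgap hTot hρ hΘ hyΛ hya hyb hy1 hy2
  by_contra hcon
  have hfix : ∀ f, Loop S (a, b) Θ f → f y = y := by
    intro f hf
    by_contra h
    exact hcon ⟨f, hf, h⟩
  have hab : a < b := hgap.1
  have hℓ : 0 < b - a := sub_pos.2 hab
  obtain ⟨L1, _, L3, L4, _, L6, L7, _⟩ := hLM K S Λ hS hΛ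
  have hagree : ∀ h k : Equiv.Perm ℝ, Almost S (a, b) Θ h → Almost S (a, b) Θ k →
      act h (a, b) = act k (a, b) → h y = k y := by
    intro h k hh hk hhk
    have u := hfix (h⁻¹ * k) ⟨h, k, hh, hk, hhk, rfl⟩
    rw [Equiv.Perm.mul_apply] at u
    have u2 : h (h⁻¹ (k y)) = k y := h.apply_symm_apply (k y)
    rw [u] at u2
    exact u2
  have hlen : len (a, b) = b - a := by
    unfold len
    rw [abs_sub_comm]
    exact abs_of_pos hℓ
  have hmon : ∀ g ∈ Gr S, StrictMono g ∨ StrictAnti g := fun g hg => (hB K S hS g hg).2.2.1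
  -- the fundamental estimate
  have star : ∀ e, (e = a ∨ e = b) → ∀ g ∈ Gr S,
      |g e - g y| ≤ 2 * |e - y| / (b - a) * |g a - g b| := by
    intro e he g hg
    obtain ⟨h, hgood, hact⟩ := hPA K S hS (a, b) Θ hTot g hg
    have hgy := hPB K S hS (a, b) Θ y hTot hagree g hg h hgood hact
    obtain ⟨l, hl, hc⟩ := hgood
    have hca : h a = g a := congrArg Prod.fst hact
    have hcb : h b = g b := congrArg Prod.snd hact
    have hce : h e = g e := by rcases he with rfl | rfl <;> assumption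
    have hlen2 : len (act h (a, b)) = |g a - g b| := by
      show |h a - h b| = _
      rw [hca, hcb]
    have hc1 : cost l ≤ Θ := by
      have : 0 ≤ len (act h (a, b)) := abs_nonneg _
      linarith
    have hc0 := cost_nonneg_NCF l
    have h4 : 4 * K * cost l * (len (a, b) + 2 * ρ) ≤ len (a, b) := by
      rw [hlen]
      have h5 : K * cost l ≤ K * Θ := mul_le_mul_of_nonneg_left hc1 hK
      have h8 : 4 * K * cost l * ((b - a) + 2 * ρ) ≤ 4 * K * Θ * ((b - a) + 2 * ρ) := by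
        apply mul_le_mul_of_nonneg_right _ (by linarith)
        linarith
      linarith
    have key := hCM K S hK hS (a, b) h l ρ hab.ne hρ.le hl h4
    simp only [min_eq_left hab.le, max_eq_right hab.le] at key
    have he' : e ∈ Icc (a - ρ) (b + ρ) := by
      rcases he with rfl | rfl <;> constructor <;> linarith
    have u := (key e he' y ⟨hy1, hy2⟩).2
    rw [hlen, hlen2, hce, ← hgy] at u
    refine u.trans (le_of_eq ?_)
    ring
  -- small gaps
  have small : ∀ e, (e = a ∨ e = b) → ∀ x ∈ Λ, ∀ η > 0,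
      ∃ g ∈ Gr S, |g e - x| < η ∧ |g a - g b| < η := by
    intro e he x hx η hη
    obtain ⟨l, hl, m, hm, r, hr, hlm, hmr, hl1, hr1⟩ := three_NCF L3 hx (half_pos hη)
    have heΛ : e ∈ Λ := by
      rcases he with rfl | rfl
      · exact hgap.2.1
      · exact hgap.2.2.1
    obtain ⟨g, hg, hge⟩ := L4 e heΛ (Ioo l r) isOpen_Ioo ⟨m, ⟨hlm, hmr⟩, hm⟩
    have hG := L7 a b hgap g hg
    have hab2 : max (g a) (g b) - min (g a) (g b) = |g a - g b| := by
      rw [max_sub_min_eq_abs, abs_sub_comm]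
    have hge2 : g e = min (g a) (g b) ∨ g e = max (g a) (g b) := by
      rcases he with rfl | rfl
      · rcases le_total (g e) (g b) with h | h
        · left; rw [min_eq_left h]
        · right; rw [max_eq_left h]
      · rcases le_total (g a) (g e) with h | h
        · right; rw [max_eq_right h]
        · left; rw [min_eq_right h]
    have a1 := abs_lt.1 hl1
    have a2 := abs_lt.1 hr1
    obtain ⟨hG1, _, _, hG4⟩ := hG
    rw [Set.eq_empty_iff_forall_notMem] at hG4
    refine ⟨g, hg, ?_, ?_⟩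
    · rw [abs_lt]
      constructor <;> linarith [hge.1, hge.2]
    · rw [← hab2]
      rcases hge2 with h | h
      · have : max (g a) (g b) ≤ r := by
          by_contra h5
          exact hG4 r ⟨⟨by rw [← h]; exact hge.2, not_le.1 h5⟩, hr⟩
        linarith [hge.1, hge.2]
      · have : l ≤ min (g a) (g b) := by
          by_contra h5
          exact hG4 l ⟨⟨not_le.1 h5, by rw [← h]; exact hge.1⟩, hl⟩
        linarith [hge.1, hge.2]
  have len1 : ∀ g ∈ Gr S, |g a - g b| ≤ 1 := by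
    intro g hg
    have u := L6 _ _ (L7 a b hgap g hg)
    rwa [max_sub_min_eq_abs, abs_sub_comm] at u
  obtain ⟨_, haΛ, hbΛ, hgap4⟩ := hgap
  rw [Set.eq_empty_iff_forall_notMem] at hgap4
  have hyout : y < a ∨ b < y := by
    by_contra h
    rw [not_or, not_lt, not_lt] at h
    exact hgap4 y ⟨⟨lt_of_le_of_ne h.1 (Ne.symm hya), lt_of_le_of_ne h.2 hyb⟩, hyΛ⟩
  rcases hyout with hlt | hgt
  · obtain ⟨x0, hx0, hn, hd⟩ := L3 a haΛ (min (b - a) (a - y)) (lt_min hℓ (sub_pos.2 hlt))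
    have d1 := abs_lt.1 (lt_of_lt_of_le hd (min_le_left _ _))
    have d2 := abs_lt.1 (lt_of_lt_of_le hd (min_le_right _ _))
    have hx0a : x0 < a := by
      by_contra h
      exact hgap4 x0 ⟨⟨lt_of_le_of_ne (not_lt.1 h) (Ne.symm hn), by linarith [d1.2]⟩, hx0⟩
    refine case2_NCF (Γ := Gr S) (e := b) (c := a) (y := y) (x0 := x0)
      (C := 2 * |b - y| / (b - a)) hmon ?_ hab hx0a (by linarith [d2.1]) ?_ ?_ ?_
    · apply div_pos _ hℓ
      have : 0 < |b - y| := abs_pos.2 (sub_ne_zero.2 (Ne.symm hyb))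
      linarith
    · intro g hg
      rw [abs_sub_comm (g b) (g a)]
      exact star b (Or.inr rfl) g hg
    · intro g hg
      rw [abs_sub_comm (g b) (g a)]
      exact len1 g hg
    · intro η hη
      obtain ⟨g, hg, u1, u2⟩ := small b (Or.inr rfl) x0 hx0 η hη
      exact ⟨g, hg, u1, by rw [abs_sub_comm]; exact u2⟩
  · obtain ⟨x0, hx0, hn, hd⟩ := L3 b hbΛ (min (b - a) (y - b)) (lt_min hℓ (sub_pos.2 hgt))
    have d1 := abs_lt.1 (lt_of_lt_of_le hd (min_le_left _ _))
    have d2 := abs_lt.1 (lt_of_lt_of_le hd (min_le_right _ _))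
    have hx0b : b < x0 := by
      by_contra h
      exact hgap4 x0 ⟨⟨by linarith [d1.1], lt_of_le_of_ne (not_lt.1 h) hn⟩, hx0⟩
    refine case1_NCF (Γ := Gr S) (e := a) (c := b) (y := y) (x0 := x0)
      (C := 2 * |a - y| / (b - a)) hmon ?_ hab hx0b (by linarith [d2.2]) ?_ ?_ ?_
    · apply div_pos _ hℓ
      have : 0 < |a - y| := abs_pos.2 (sub_ne_zero.2 (Ne.symm hya))
      linarith
    · intro g hg
      exact star a (Or.inl rfl) g hg
    · intro g hg
      exact len1 g hg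
    · intro η hη
      obtain ⟨g, hg, u1, u2⟩ := small a (Or.inl rfl) x0 hx0 η hη
      exact ⟨g, hg, u1, u2⟩

end Pool.Agent.Helper82.HG
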