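import Pool.Agent.Helper82.HG.St2

/-!
# HG, module NID (helper33): loops are near the identity
-/

set_option autoImplicit false

namespace Pool.Agent.Helper82.HG

open Set MeasureTheory

private theorem T_mem_NID (S : Set (Equiv.Perm ℝ)) : T ∈ Gr S :=
  Subgroup.subset_closure (Set.mem_insert _ _)

private theorem pth_mem_NID {S : Set (Equiv.Perm ℝ)} {v : ℝ × ℝ} {g : Equiv.Perm ℝ}
    {l : List (ℝ × ℝ)} (h : Pth S v g l) : g ∈ Gr S := by
  induction h with
  | nil => exact one_mem _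
  | tr m _ ih => exact mul_mem (zpow_mem (T_mem_NID S) m) ih
  | step s hs _ ih => exact mul_mem (Subgroup.subset_closure (Set.mem_insert_of_mem _ hs)) ih

private theorem len_nonneg_NID (u : ℝ × ℝ) : 0 ≤ len u := abs_nonneg _

private theorem cost_nonneg_NID (l : List (ℝ × ℝ)) : 0 ≤ cost l := by
  unfold cost
  apply List.sum_nonneg
  intro x hx
  rw [List.mem_map] at hx
  obtain ⟨u, _, rfl⟩ := hx
  exact len_nonneg_NID u

private theorem loop_inv_NID {S : Set (Equiv.Perm ℝ)} {v : ℝ × ℝ} {Θ : ℝ} {f : Equiv.Perm ℝ}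
    (h : Loop S v Θ f) : Loop S v Θ f⁻¹ := by
  obtain ⟨h, k, h1, h2, h3, rfl⟩ := h
  exact ⟨k, h, h2, h1, h3.symm, by group⟩

/-- comparison with the mean derivative -/
private theorem ctl2_NID (hC : StCTL) {K : ℝ} {S : Set (Equiv.Perm ℝ)} (hK : 0 ≤ K)
    (hS : Gens K S) {a b Θ ρ : ℝ} {h : Equiv.Perm ℝ} (hab : a < b) (hρ : 0 < ρ)
    (hΘ : 64 * K * Θ * ((b - a) + 2 * ρ) ≤ b - a) (hA : Almost S (a, b) Θ h)
    (hd : Differentiable ℝ h) :
    (∀ y ∈ Icc (a - ρ) (b + ρ), ∀ z ∈ Icc (a - ρ) (b + ρ),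
      |Real.log (|deriv h y|) - Real.log (|deriv h z|)| ≤ 2 * K * Θ / (b - a) * |y - z|) ∧
    (∀ z ∈ Icc (a - ρ) (b + ρ),
      |Real.log (|deriv h z|) - Real.log (|h a - h b| / (b - a))| ≤ 1 / 32) := by
  obtain ⟨l, hl, hc⟩ := hA
  have hℓ : 0 < b - a := sub_pos.2 hab
  have hc0 := cost_nonneg_NID l
  have hlen : len (a, b) = b - a := by
    unfold len
    rw [abs_sub_comm]
    exact abs_of_pos hℓ
  have hsum : 0 < (b - a) + 2 * ρ := by linarith
  have h4 : 4 * K * cost l * (len (a, b) + 2 * ρ) ≤ len (a, b) := by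
    rw [hlen]
    have h5 : K * cost l ≤ K * Θ := mul_le_mul_of_nonneg_left hc hK
    have h6 : 0 ≤ K * cost l := mul_nonneg hK hc0
    have h7 : 0 ≤ K * Θ := h6.trans h5
    have h8 : 4 * K * cost l * ((b - a) + 2 * ρ) ≤ 64 * K * Θ * ((b - a) + 2 * ρ) := by
      apply mul_le_mul_of_nonneg_right _ hsum.le
      nlinarith
    linarith
  have key := hC K S hK hS (a, b) h l ρ hab.ne hρ.le hl h4
  rw [hlen] at key
  simp only [min_eq_left hab.le, max_eq_right hab.le] at key
  have hmono : ∀ y z : ℝ, 2 * K * cost l / (b - a) * |y - z| ≤ 2 * K * Θ / (b - a) * |y - z| := by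
    intro y z
    apply mul_le_mul_of_nonneg_right _ (abs_nonneg _)
    apply div_le_div_of_nonneg_right _ hℓ.le
    have := mul_le_mul_of_nonneg_left hc hK
    linarith
  have key2 : ∀ y ∈ Icc (a - ρ) (b + ρ), ∀ z ∈ Icc (a - ρ) (b + ρ),
      |Real.log (|deriv h y|) - Real.log (|deriv h z|)| ≤ 2 * K * Θ / (b - a) * |y - z| :=
    fun y hy z hz => (key y hy z hz).trans (hmono y z)
  refine ⟨key2, ?_⟩
  intro z hz
  obtain ⟨ξ, hξ, e⟩ := exists_deriv_eq_slope (⇑h) hab hd.continuous.continuousOn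
    hd.differentiableOn
  have e2 : |deriv h ξ| = |h a - h b| / (b - a) := by
    rw [e, abs_div, abs_of_pos hℓ, abs_sub_comm]
  rw [← e2]
  refine (key2 z hz ξ ⟨by linarith [hξ.1], by linarith [hξ.2]⟩).trans ?_
  have h5 : |z - ξ| ≤ (b - a) + 2 * ρ := by
    rw [abs_le]
    have := hz.1; have := hz.2; have := hξ.1; have := hξ.2
    constructor <;> linarith
  have h9 : 0 ≤ 2 * K * Θ / (b - a) := by
    apply div_nonneg _ hℓ.le
    have := mul_nonneg hK (hc0.trans hc)
    linarith
  refine (mul_le_mul_of_nonneg_left h5 h9).trans ?_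
  rw [div_mul_eq_mul_div, div_le_iff₀ hℓ]
  linarith

/-- bilipschitz control -/
private theorem ctm2_NID (hC : StCTM) {K : ℝ} {S : Set (Equiv.Perm ℝ)} (hK : 0 ≤ K)
    (hS : Gens K S) {a b Θ ρ : ℝ} {h : Equiv.Perm ℝ} (hab : a < b) (hρ : 0 < ρ)
    (hΘ : 64 * K * Θ * ((b - a) + 2 * ρ) ≤ b - a) (hA : Almost S (a, b) Θ h) :
    ∀ y ∈ Icc (a - ρ) (b + ρ), ∀ z ∈ Icc (a - ρ) (b + ρ),
      1 / 2 * (|h a - h b| / (b - a)) * |y - z| ≤ |h y - h z| ∧
      |h y - h z| ≤ 2 * (|h a - h b| / (b - a)) * |y - z| := by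
  obtain ⟨l, hl, hc⟩ := hA
  have hℓ : 0 < b - a := sub_pos.2 hab
  have hc0 := cost_nonneg_NID l
  have hlen : len (a, b) = b - a := by
    unfold len
    rw [abs_sub_comm]
    exact abs_of_pos hℓ
  have hsum : 0 < (b - a) + 2 * ρ := by linarith
  have h4 : 4 * K * cost l * (len (a, b) + 2 * ρ) ≤ len (a, b) := by
    rw [hlen]
    have h5 : K * cost l ≤ K * Θ := mul_le_mul_of_nonneg_left hc hK
    have h6 : 0 ≤ K * cost l := mul_nonneg hK hc0
    have h7 : 0 ≤ K * Θ := h6.trans h5
    have h8 : 4 * K * cost l * ((b - a) + 2 * ρ) ≤ 64 * K * Θ * ((b - a) + 2 * ρ) := by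
      apply mul_le_mul_of_nonneg_right _ hsum.le
      nlinarith
    linarith
  have key := hC K S hK hS (a, b) h l ρ hab.ne hρ.le hl h4
  rw [hlen] at key
  simp only [min_eq_left hab.le, max_eq_right hab.le] at key
  exact key

theorem tNID : StBAS → StCTL → StCTM → StNID := by
  intro hB hCL hCM K S hK hS a b Θ ρ f hab hΘ0 hρ hΘ hL
  have hL' := hL
  obtain ⟨h, k, hh, hk, hhk, hf⟩ := hL
  have hℓ : 0 < b - a := sub_pos.2 hab
  have hmh : h ∈ Gr S := pth_mem_NID hh.choose_spec.1
  have hmk : k ∈ Gr S := pth_mem_NID hk.choose_spec.1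
  have hmf : f ∈ Gr S := by rw [hf]; exact mul_mem (inv_mem hmh) hmk
  obtain ⟨hdh, hnh, hoh, _⟩ := hB K S hS h hmh
  obtain ⟨hdk, hnk, hok, _⟩ := hB K S hS k hmk
  obtain ⟨hdf, hnf, _, _⟩ := hB K S hS f hmf
  have hka : h a = k a := congrArg Prod.fst hhk
  have hkb : h b = k b := congrArg Prod.snd hhk
  have hhf : ∀ z, h (f z) = k z := by
    intro z
    rw [hf, Equiv.Perm.mul_apply]; exact h.apply_symm_apply (k z)
  have hfa : f a = a := h.injective (by rw [hhf, hka])
  have hfb : f b = b := h.injective (by rw [hhf, hkb])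
  have hmono : StrictMono f := by
    intro z z' hz
    rcases hoh with ho | ho <;> rcases hok with ho' | ho'
    · rw [← ho.lt_iff_lt, hhf, hhf]; exact ho' hz
    · exfalso
      have h1 := ho hab
      have h2 := ho' hab
      rw [hka, hkb] at h1
      exact lt_asymm h1 h2
    · exfalso
      have h1 := ho hab
      have h2 := ho' hab
      rw [hka, hkb] at h1
      exact lt_asymm h1 h2
    · rw [← ho.lt_iff_gt, hhf, hhf]; exact ho' hz
  refine ⟨hfa, hfb, loop_inv_NID hL', hmf, hmono, hdf.continuous, ?_⟩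
  intro p q hp hpq hq hqp
  -- control
  obtain ⟨c1, c2⟩ := ctl2_NID hCL hK hS hab hρ hΘ hh hdh
  obtain ⟨c1', c2'⟩ := ctl2_NID hCL hK hS hab hρ hΘ hk hdk
  have m1 := ctm2_NID hCM hK hS hab hρ hΘ hh
  have m1' := ctm2_NID hCM hK hS hab hρ hΘ hk
  rw [← hka, ← hkb] at c2' m1'
  set lam : ℝ := |h a - h b| / (b - a) with hlam
  have hlam0 : 0 < lam := by
    apply div_pos _ hℓ
    rw [abs_pos, sub_ne_zero]
    exact fun e => hab.ne (h.injective e)
  -- the image stays in the interval
  have hIn : ∀ z, a - ρ / 4 ≤ z → z ≤ b + ρ / 4 → f z ∈ Icc (a - ρ) (b + ρ) := by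
    intro z hz1 hz2
    constructor
    · by_contra hcon
      rw [not_le] at hcon
      have hza : z < a := by
        by_contra h1
        have h2 : f a ≤ f z := hmono.monotone (not_lt.1 h1)
        rw [hfa] at h2
        linarith
      have h1 := (m1' z ⟨by linarith, by linarith⟩ a ⟨by linarith, by linarith⟩).2
      rw [← hka, ← hhf z] at h1
      have h2 := (m1 (a - ρ) ⟨le_refl _, by linarith⟩ a ⟨by linarith, by linarith⟩).1
      have h3 : |z - a| ≤ ρ / 4 := by rw [abs_le]; constructor <;> linarith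
      have h4 : |a - ρ - a| = ρ := by
        rw [show a - ρ - a = -ρ by ring, abs_neg, abs_of_pos hρ]
      rw [h4] at h2
      have h5 : |h (a - ρ) - h a| < |h (f z) - h a| := by
        rcases hoh with ho | ho
        · have u1 := ho hcon
          have u2 := ho (show a - ρ < a by linarith)
          rw [abs_of_neg (by linarith), abs_of_neg (by linarith)]
          linarith
        · have u1 := ho hcon
          have u2 := ho (show a - ρ < a by linarith)
          rw [abs_of_pos (by linarith), abs_of_pos (by linarith)]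
          linarith
      have h6 : 2 * lam * |z - a| ≤ 2 * lam * (ρ / 4) :=
        mul_le_mul_of_nonneg_left h3 (by linarith)
      nlinarith
    · by_contra hcon
      rw [not_le] at hcon
      have hza : b < z := by
        by_contra h1
        have h2 : f z ≤ f b := hmono.monotone (not_lt.1 h1)
        rw [hfb] at h2
        linarith
      have h1 := (m1' z ⟨by linarith, by linarith⟩ b ⟨by linarith, by linarith⟩).2
      rw [← hkb, ← hhf z] at h1
      have h2 := (m1 (b + ρ) ⟨by linarith, le_refl _⟩ b ⟨by linarith, by linarith⟩).1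
      have h3 : |z - b| ≤ ρ / 4 := by rw [abs_le]; constructor <;> linarith
      have h4 : |b + ρ - b| = ρ := by
        rw [show b + ρ - b = ρ by ring, abs_of_pos hρ]
      rw [h4] at h2
      have h5 : |h (b + ρ) - h b| < |h (f z) - h b| := by
        rcases hoh with ho | ho
        · have u1 := ho hcon
          have u2 := ho (show b < b + ρ by linarith)
          rw [abs_of_pos (by linarith), abs_of_pos (by linarith)]
          linarith
        · have u1 := ho hcon
          have u2 := ho (show b < b + ρ by linarith)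
          rw [abs_of_neg (by linarith), abs_of_neg (by linarith)]
          linarith
      have h6 : 2 * lam * |z - b| ≤ 2 * lam * (ρ / 4) :=
        mul_le_mul_of_nonneg_left h3 (by linarith)
      nlinarith
  -- the derivative of f
  have hder : ∀ z, deriv k z = deriv h (f z) * deriv f z := by
    intro z
    have e : (⇑k) = (⇑h) ∘ (⇑f) := funext fun z => (hhf z).symm
    rw [e]
    exact deriv_comp z (hdh (f z)) (hdf z)
  have hfpos : ∀ z, 0 < deriv f z := fun z =>
    lt_of_le_of_ne hmono.monotone.deriv_nonneg (Ne.symm (hnf z))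
  have hlog : ∀ z, Real.log (deriv f z) = Real.log (|deriv k z|) - Real.log (|deriv h (f z)|) := by
    intro z
    rw [hder z, abs_mul, abs_of_pos (hfpos z), Real.log_mul (abs_pos.2 (hnh _)).ne' (hfpos z).ne']
    ring
  have hI : ∀ z ∈ Icc p q, a - ρ / 4 ≤ z ∧ z ≤ b + ρ / 4 := fun z hz =>
    ⟨hp.trans hz.1, hz.2.trans hq⟩
  have hI' : ∀ z ∈ Icc p q, z ∈ Icc (a - ρ) (b + ρ) := fun z hz =>
    ⟨by linarith [(hI z hz).1], by linarith [(hI z hz).2]⟩
  have hfl : ∀ z ∈ Icc p q, ∀ z' ∈ Icc p q, |f z - f z'| ≤ 4 * |z - z'| := by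
    intro z hz z' hz'
    have u1 := (m1 (f z) (hIn z (hI z hz).1 (hI z hz).2) (f z') (hIn z' (hI z' hz').1 (hI z' hz').2)).1
    have u2 := (m1' z (hI' z hz) z' (hI' z' hz')).2
    rw [hhf, hhf] at u1
    have u3 : lam * |f z - f z'| ≤ lam * (4 * |z - z'|) := by linarith
    exact le_of_mul_le_mul_left u3 hlam0
  set κ : ℝ := 2 * K * Θ / (b - a) with hκ
  have hκ0 : 0 ≤ κ := by
    apply div_nonneg _ hℓ.le
    have := mul_nonneg hK hΘ0
    linarith
  refine ⟨hmono, hdf.continuous, fun z _ => hdf z, fun z _ => hfpos z, ?_, ?_⟩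
  · intro z hz
    rw [hlog]
    have u1 := abs_le.1 (c2' z (hI' z hz))
    have u2 := abs_le.1 (c2 (f z) (hIn z (hI z hz).1 (hI z hz).2))
    rw [abs_le]
    constructor <;> linarith [u1.1, u1.2, u2.1, u2.2]
  · refine ⟨5 * κ, by linarith, ?_, ?_⟩
    · have u1 : κ * (b - a) = 2 * K * Θ := by rw [hκ]; field_simp
      have u2 : 5 * κ * (q - p) ≤ 5 * κ * (ρ / 4) := mul_le_mul_of_nonneg_left hqp (by linarith)
      have u3 : κ * (b - a) * (64 * ρ) ≤ b - a := by
        rw [u1]
        have := mul_nonneg (mul_nonneg hK hΘ0) hℓ.le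
        nlinarith
      have u4 : κ * (64 * ρ) ≤ 1 := by
        have : (κ * (64 * ρ)) * (b - a) ≤ 1 * (b - a) := by linarith
        exact le_of_mul_le_mul_right this hℓ
      linarith
    · intro z hz z' hz'
      rw [hlog, hlog]
      have u1 := abs_le.1 (c1' z (hI' z hz) z' (hI' z' hz'))
      have u2 := abs_le.1 (c1 (f z) (hIn z (hI z hz).1 (hI z hz).2) (f z')
        (hIn z' (hI z' hz').1 (hI z' hz').2))
      have u3 : κ * |f z - f z'| ≤ κ * (4 * |z - z'|) :=
        mul_le_mul_of_nonneg_left (hfl z hz z' hz') hκ0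
      rw [abs_le]
      constructor <;> linarith [u1.1, u1.2, u2.1, u2.2]

end Pool.Agent.Helper82.HG
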