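import Pool.Agent.Helper82.HG.St2

/-!
# MP_10ef18_an, module PA (helper4): shortest paths are simple
-/

set_option autoImplicit false

namespace Pool.Agent.Helper82.HG

open Set MeasureTheory

private theorem T_mem (S : Set (Equiv.Perm ℝ)) : T ∈ Gr S :=
  Subgroup.subset_closure (Or.inl rfl)

private theorem T_zpow (k : ℤ) (x : ℝ) : (T ^ k : Equiv.Perm ℝ) x = x + k := by
  induction k using Int.induction_on generalizing x with
  | zero => simp
  | succ i ih =>
    rw [zpow_add_one, Equiv.Perm.mul_apply, ih]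
    show x + 1 + _ = _
    push_cast
    ring
  | pred i ih =>
    rw [zpow_sub_one, Equiv.Perm.mul_apply, ih]
    show x + -1 + _ = _
    push_cast
    ring

private theorem act_T (k : ℤ) (w : ℝ × ℝ) : act (T ^ k) w = (w.1 + k, w.2 + k) := by
  unfold act
  rw [T_zpow, T_zpow]

private theorem pth_mem {S : Set (Equiv.Perm ℝ)} {v : ℝ × ℝ} {g : Equiv.Perm ℝ}
    {l : List (ℝ × ℝ)} (h : Pth S v g l) : g ∈ Gr S ∧ ∀ w ∈ l, w ∈ Orb S v := by
  induction h with
  | nil => exact ⟨one_mem _, by simp⟩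
  | tr m _ ih => exact ⟨mul_mem (zpow_mem (T_mem S) m) ih.1, ih.2⟩
  | step s hs _ ih =>
    refine ⟨mul_mem (Subgroup.subset_closure (Or.inr hs)) ih.1, ?_⟩
    intro w hw
    rcases List.mem_cons.mp hw with rfl | hw
    · exact ⟨_, ih.1, rfl⟩
    · exact ih.2 w hw

private def R (S : Set (Equiv.Perm ℝ)) (v : ℝ × ℝ) (n : ℕ) (u : ℝ × ℝ) : Prop :=
  ∃ (g : Equiv.Perm ℝ) (l : List (ℝ × ℝ)), Pth S v g l ∧ l.length = n ∧ act g v = u

private theorem R_tr {S : Set (Equiv.Perm ℝ)} {v : ℝ × ℝ} {n : ℕ} {u : ℝ × ℝ} (k : ℤ)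
    (h : R S v n u) : R S v n (act (T ^ k) u) := by
  obtain ⟨g, l, h1, h2, h3⟩ := h
  exact ⟨T ^ k * g, l, Pth.tr k h1, h2, by rw [← h3]; rfl⟩

private theorem R_step {S : Set (Equiv.Perm ℝ)} {v : ℝ × ℝ} {n : ℕ} {u : ℝ × ℝ}
    {s : Equiv.Perm ℝ} (hs : s ∈ S) (h : R S v n u) : R S v (n + 1) (act s u) := by
  obtain ⟨g, l, h1, h2, h3⟩ := h
  exact ⟨s * g, act g v :: l, Pth.step s hs h1, by simp [h2], by rw [← h3]; rfl⟩

private theorem pth_cons {S : Set (Equiv.Perm ℝ)} {v : ℝ × ℝ} {g : Equiv.Perm ℝ}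
    {l : List (ℝ × ℝ)} (h : Pth S v g l) : ∀ w l', l = w :: l' →
    ∃ (g' s : Equiv.Perm ℝ) (k : ℤ), s ∈ S ∧ Pth S v g' l' ∧ w = act g' v ∧
      g = T ^ k * (s * g') := by
  induction h with
  | nil => intro w l' h; simp at h
  | tr m _ ih =>
    intro w l' h
    obtain ⟨g', s, k, hs, h1, h2, h3⟩ := ih w l' h
    refine ⟨g', s, m + k, hs, h1, h2, ?_⟩
    rw [h3, zpow_add, mul_assoc]
  | step s hs h' ih =>
    intro w l' h
    rw [List.cons.injEq] at h
    obtain ⟨h1, h2⟩ := h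
    subst h2
    exact ⟨_, s, 0, hs, h', h1.symm, by simp⟩

private noncomputable def mm (S : Set (Equiv.Perm ℝ)) (v : ℝ × ℝ) (u : ℝ × ℝ) : ℕ :=
  sInf {n | R S v n u}

private theorem mm_eqv {S : Set (Equiv.Perm ℝ)} {v u w : ℝ × ℝ} (h : Eqv u w) :
    mm S v u = mm S v w := by
  obtain ⟨m, h1, h2⟩ := h
  unfold mm
  have e1 : w = act (T ^ m) u := by rw [act_T, ← h1, ← h2]
  have e2 : u = act (T ^ (-m)) w := by
    rw [act_T, h1, h2]; ext <;> simp
  congr 1
  ext n
  constructor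
  · intro h; show R S v n w; rw [e1]; exact R_tr m h
  · intro h; show R S v n u; rw [e2]; exact R_tr (-m) h

private theorem main {S : Set (Equiv.Perm ℝ)} {v : ℝ × ℝ} : ∀ (n : ℕ) (u : ℝ × ℝ), R S v n u →
    (∀ j < n, ¬ R S v j u) → ∃ (g : Equiv.Perm ℝ) (l : List (ℝ × ℝ)), Pth S v g l ∧ act g v = u ∧
      (∀ w ∈ l, mm S v w < n) ∧ l.Pairwise (fun w w' => mm S v w' < mm S v w) := by
  intro n
  induction n with
  | zero =>
    rintro u ⟨g, l, h1, h2, h3⟩ _
    rw [List.length_eq_zero_iff] at h2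
    subst h2
    exact ⟨g, [], h1, h3, by simp, by simp⟩
  | succ n ih =>
    rintro u ⟨g, l, h1, h2, h3⟩ hmin
    rcases l with _ | ⟨w, l⟩
    · simp at h2
    have h2' : l.length = n := by simpa using h2
    obtain ⟨g', s, k, hs, p1, p2, p3⟩ := pth_cons h1 w l rfl
    have hR : R S v n w := ⟨g', l, p1, h2', p2.symm⟩
    have hu : u = act (T ^ k) (act s w) := by rw [← h3, p3, p2]; rfl
    have hmin' : ∀ j < n, ¬ R S v j w := by
      intro j hj hRj
      apply hmin (j + 1) (by omega)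
      rw [hu]
      exact R_tr k (R_step hs hRj)
    have hmw : mm S v w = n := by
      apply le_antisymm
      · exact Nat.sInf_le hR
      · by_contra hc
        push Not at hc
        exact hmin' _ hc (Nat.sInf_mem (s := {n | R S v n w}) ⟨n, hR⟩)
    obtain ⟨g2, l2, q1, q2, q3, q4⟩ := ih w hR hmin'
    refine ⟨T ^ k * (s * g2), act g2 v :: l2, Pth.tr k (Pth.step s hs q1), ?_, ?_, ?_⟩
    · rw [hu, ← q2]; rfl
    · intro x hx
      rcases List.mem_cons.mp hx with rfl | hx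
      · rw [q2, hmw]; omega
      · have := q3 x hx; omega
    · rw [List.pairwise_cons]
      refine ⟨fun x hx => ?_, q4⟩
      rw [q2, hmw]
      exact q3 x hx

private theorem exists_pth {K : ℝ} {S : Set (Equiv.Perm ℝ)} (hG : Gens K S) (v : ℝ × ℝ)
    {g : Equiv.Perm ℝ} (hg : g ∈ Gr S) : ∃ l, Pth S v g l := by
  have key : ∀ g ∈ Gr S, ∀ h l, Pth S v h l → ∃ l', Pth S v (g * h) l' := by
    intro g hg
    unfold Gr at hg
    induction hg using Subgroup.closure_induction'' with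
    | mem x hx =>
      intro h l hl
      rcases hx with rfl | hx
      · exact ⟨l, by simpa using Pth.tr 1 hl⟩
      · exact ⟨_, Pth.step x hx hl⟩
    | inv_mem x hx =>
      intro h l hl
      rcases hx with rfl | hx
      · exact ⟨l, by simpa using Pth.tr (-1) hl⟩
      · exact ⟨_, Pth.step x⁻¹ (hG.inv x hx) hl⟩
    | one => intro h l hl; exact ⟨l, by simpa using hl⟩
    | mul x y _ _ hx hy =>
      intro h l hl
      obtain ⟨l', hl'⟩ := hy h l hl
      obtain ⟨l'', hl''⟩ := hx _ l' hl'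
      exact ⟨l'', by rw [mul_assoc]; exact hl''⟩
  obtain ⟨l, hl⟩ := key g hg 1 [] Pth.nil
  exact ⟨l, by simpa using hl⟩

theorem tPA : StPA := by
  intro K S hG v Θ hTot g hg
  obtain ⟨l0, hl0⟩ := exists_pth hG v hg
  have hR0 : R S v l0.length (act g v) := ⟨g, l0, hl0, rfl, rfl⟩
  have hne : {n | R S v n (act g v)}.Nonempty := ⟨_, hR0⟩
  have hR : R S v (mm S v (act g v)) (act g v) := Nat.sInf_mem hne
  have hmin : ∀ j < mm S v (act g v), ¬ R S v j (act g v) := fun j hj hRj =>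
    absurd (Nat.sInf_le (s := {n | R S v n (act g v)}) hRj) (by unfold mm at hj; omega)
  obtain ⟨h, l, h1, h2, h3, h4⟩ := main _ _ hR hmin
  refine ⟨h, ⟨l, h1, ?_⟩, h2⟩
  have hpw : (act g v :: l).Pairwise (fun w w' => mm S v w' < mm S v w) := by
    rw [List.pairwise_cons]
    exact ⟨h3, h4⟩
  have hnd : (act g v :: l).Nodup := by
    refine hpw.imp ?_
    intro a b hab e
    rw [e] at hab
    exact lt_irrefl _ hab
  have hinj : ∀ a ∈ act g v :: l, ∀ b ∈ act g v :: l, mm S v a = mm S v b → a = b := by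
    intro a ha b hb hab
    by_contra hne
    have hpw' : (act g v :: l).Pairwise (fun w w' => mm S v w ≠ mm S v w') :=
      hpw.imp (fun {a b} hab => by omega)
    haveI : Std.Symm (fun w w' => mm S v w ≠ mm S v w') := ⟨fun a b h => Ne.symm h⟩
    exact hpw'.forall ha hb hne hab
  classical
  have hT := hTot (act g v :: l).toFinset ?_ ?_
  · rw [List.sum_toFinset _ hnd] at hT
    rw [List.map_cons, List.sum_cons] at hT
    rw [h2]
    unfold cost
    linarith
  · intro u hu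
    rw [List.mem_toFinset, List.mem_cons] at hu
    rcases hu with rfl | hu
    · exact ⟨g, hg, rfl⟩
    · exact (pth_mem h1).2 u hu
  · intro u hu w hw huw
    rw [List.mem_toFinset] at hu hw
    exact hinj u hu w hw (mm_eqv huw)

end Pool.Agent.Helper82.HG
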