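import Pool.Agent.Helper82.HG.St2

set_option autoImplicit false

namespace Pool.Agent.Helper82.HG

open Set

private theorem act_mul (g k : Equiv.Perm ℝ) (v : ℝ × ℝ) : act (g * k) v = act g (act k v) := rfl

private theorem good_almost {S : Set (Equiv.Perm ℝ)} {v : ℝ × ℝ} {Θ : ℝ} {h : Equiv.Perm ℝ}
    (hg : Good S v Θ h) : Almost S v Θ h := by
  obtain ⟨l, hp, hc⟩ := hg
  refine ⟨l, hp, ?_⟩
  have : 0 ≤ len (act h v) := abs_nonneg _
  linarith

private theorem step_almost {S : Set (Equiv.Perm ℝ)} {v : ℝ × ℝ} {Θ : ℝ} {h s : Equiv.Perm ℝ}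
    (hs : s ∈ S) (hg : Good S v Θ h) : Almost S v Θ (s * h) := by
  obtain ⟨l, hp, hc⟩ := hg
  refine ⟨act h v :: l, Pth.step s hs hp, ?_⟩
  have : cost (act h v :: l) = len (act h v) + cost l := by simp [cost]
  rw [this]
  linarith

private theorem tr_almost {S : Set (Equiv.Perm ℝ)} {v : ℝ × ℝ} {Θ : ℝ} {h : Equiv.Perm ℝ}
    (m : ℤ) (hg : Good S v Θ h) : Almost S v Θ (T ^ m * h) := by
  obtain ⟨l, hp, hc⟩ := good_almost hg
  exact ⟨l, Pth.tr m hp, hc⟩

theorem tPB : StPA → StPB := by
  intro hPA K S hS v Θ y hT hyp g hg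
  have h0 : 0 ≤ Θ := by
    have := hT ∅ (by simp) (by simp)
    simpa using this
  have h1 : Almost S v Θ 1 := ⟨[], Pth.nil, by simpa [cost] using h0⟩
  -- one step with a letter whose products with good paths are almost
  have stp : ∀ (x g' : Equiv.Perm ℝ), g' ∈ Gr S →
      (∀ h : Equiv.Perm ℝ, Good S v Θ h → Almost S v Θ (x * h)) →
      (∀ h : Equiv.Perm ℝ, Good S v Θ h → act h v = act g' v → g' y = h y) →
      ∀ h : Equiv.Perm ℝ, Good S v Θ h → act h v = act (x * g') v → (x * g') y = h y := by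
    intro x g' hg' hx ih h hh hact
    obtain ⟨h', hh', he⟩ := hPA K S hS v Θ hT g' hg'
    have e1 : g' y = h' y := ih h' hh' he
    have e2 : act h v = act (x * h') v := by rw [hact, act_mul, act_mul, he]
    have e3 := hyp h (x * h') (good_almost hh) (hx h' hh') e2
    show x (g' y) = h y
    rw [e3, e1]
    rfl
  have hg' : g ∈ Subgroup.closure (insert T S) := hg
  induction hg' using Subgroup.closure_induction_left with
  | one =>
    intro h hh hact
    exact (hyp h 1 (good_almost hh) h1 hact).symm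
  | mul_left x hx z hz ih =>
    rcases hx with rfl | hx
    · refine stp T z hz ?_ (ih hz)
      intro h hh
      have := tr_almost 1 hh
      rwa [zpow_one] at this
    · exact stp x z hz (fun h hh => step_almost hx hh) (ih hz)
  | inv_mul_cancel x hx z hz ih =>
    rcases hx with rfl | hx
    · refine stp T⁻¹ z hz ?_ (ih hz)
      intro h hh
      have := tr_almost (-1) hh
      rwa [zpow_neg_one] at this
    · exact stp x⁻¹ z hz (fun h hh => step_almost (hS.inv x hx) hh) (ih hz)

end Pool.Agent.Helper82.HG
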