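import Pool.Agent.Helper82.HG.St2

set_option autoImplicit false

namespace Pool.Agent.Helper82.HG

open Set Filter Topology

/-- a fixed point outside `Λ` lies in a gap with fixed end points -/
private theorem fix_gap {S : Set (Equiv.Perm ℝ)} {Λ : Set ℝ}
    (hgapEx : ∀ z, z ∉ Λ → ∃ a b, Gap Λ a b ∧ a < z ∧ z < b)
    (hgapIm : ∀ a b, Gap Λ a b → ∀ g ∈ Gr S, Gap Λ (min (g a) (g b)) (max (g a) (g b)))
    (hgapDis : ∀ a b a' b', Gap Λ a b → Gap Λ a' b' → (a, b) ≠ (a', b') → b < a' ∨ b' < a)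
    {F : Equiv.Perm ℝ} (hF : F ∈ Gr S) (hm : StrictMono F) {z : ℝ} (hz : z ∉ Λ) (hfz : F z = z) :
    ∃ x y, Gap Λ x y ∧ x < z ∧ z < y ∧ F x = x ∧ F y = y := by
  obtain ⟨x, y, hg, hxz, hzy⟩ := hgapEx z hz
  have h1 : F x < z := by rw [← hfz]; exact hm hxz
  have h2 : z < F y := by
    have := hm hzy
    rwa [hfz] at this
  have h3 := hgapIm x y hg F hF
  rw [min_eq_left (h1.trans h2).le, max_eq_right (h1.trans h2).le] at h3
  by_cases he : (x, y) = (F x, F y)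
  · rw [Prod.mk.injEq] at he
    exact ⟨x, y, hg, hxz, hzy, he.1.symm, he.2.symm⟩
  · exfalso
    rcases hgapDis x y (F x) (F y) hg h3 he with h | h
    · linarith
    · linarith

private theorem right_fix {S : Set (Equiv.Perm ℝ)} {Λ : Set ℝ} (hcl : IsClosed Λ)
    (hgapEx : ∀ z, z ∉ Λ → ∃ a b, Gap Λ a b ∧ a < z ∧ z < b)
    (hgapIm : ∀ a b, Gap Λ a b → ∀ g ∈ Gr S, Gap Λ (min (g a) (g b)) (max (g a) (g b)))
    (hgapDis : ∀ a b a' b', Gap Λ a b → Gap Λ a' b' → (a, b) ≠ (a', b') → b < a' ∨ b' < a)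
    {F : Equiv.Perm ℝ} (hF : F ∈ Gr S) (hm : StrictMono F) (hc : Continuous F) {c d : ℝ}
    (hcd : c < d) (hcΛ : c ∈ Λ) (hdΛ : d ∈ Λ) (hFc : F c ≠ c) (hFd : F d = d) :
    ∃ q ∈ Λ, c < q ∧ q ≤ d ∧ F q = q ∧ ∀ z ∈ Ico c q, F z ≠ z := by
  set A : Set ℝ := (Λ ∩ {z | F z = z}) ∩ Icc c d with hA
  have hAcl : IsClosed A := (hcl.inter (isClosed_eq hc continuous_id)).inter isClosed_Icc
  have hAne : A.Nonempty := ⟨d, ⟨hdΛ, hFd⟩, hcd.le, le_rfl⟩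
  have hAb : BddBelow A := ⟨c, fun y hy => hy.2.1⟩
  have hq := hAcl.csInf_mem hAne hAb
  set q := sInf A with hqdef
  have hFq : F q = q := hq.1.2
  have hcq : c < q := by
    refine lt_of_le_of_ne hq.2.1 ?_
    intro he
    exact hFc (he ▸ hFq)
  refine ⟨q, hq.1.1, hcq, hq.2.2, hFq, ?_⟩
  intro z hz hfz
  by_cases hzΛ : z ∈ Λ
  · have : q ≤ z := csInf_le hAb ⟨⟨hzΛ, hfz⟩, hz.1, (hz.2.le.trans hq.2.2)⟩
    exact absurd hz.2 (not_lt.2 this)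
  · obtain ⟨x, y, hg, hxz, hzy, hfx, _⟩ := fix_gap hgapEx hgapIm hgapDis hF hm hzΛ hfz
    have hcx : c ≤ x := by
      by_contra hlt
      push Not at hlt
      have h1 : c ∈ Ioo x y ∩ Λ := ⟨⟨hlt, lt_of_le_of_lt hz.1 hzy⟩, hcΛ⟩
      rw [hg.2.2.2] at h1
      exact h1
    have : q ≤ x := csInf_le hAb ⟨⟨hg.2.1, hfx⟩, hcx, by linarith [hz.2, hq.2.2]⟩
    linarith [hz.2]

private theorem left_fix {S : Set (Equiv.Perm ℝ)} {Λ : Set ℝ} (hcl : IsClosed Λ)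
    (hgapEx : ∀ z, z ∉ Λ → ∃ a b, Gap Λ a b ∧ a < z ∧ z < b)
    (hgapIm : ∀ a b, Gap Λ a b → ∀ g ∈ Gr S, Gap Λ (min (g a) (g b)) (max (g a) (g b)))
    (hgapDis : ∀ a b a' b', Gap Λ a b → Gap Λ a' b' → (a, b) ≠ (a', b') → b < a' ∨ b' < a)
    {F : Equiv.Perm ℝ} (hF : F ∈ Gr S) (hm : StrictMono F) (hc : Continuous F) {c d : ℝ}
    (hcd : c < d) (hcΛ : c ∈ Λ) (hdΛ : d ∈ Λ) (hFc : F c = c) (hFd : F d ≠ d) :
    ∃ p ∈ Λ, c ≤ p ∧ p < d ∧ F p = p ∧ ∀ z ∈ Ioc p d, F z ≠ z := by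
  set A : Set ℝ := (Λ ∩ {z | F z = z}) ∩ Icc c d with hA
  have hAcl : IsClosed A := (hcl.inter (isClosed_eq hc continuous_id)).inter isClosed_Icc
  have hAne : A.Nonempty := ⟨c, ⟨hcΛ, hFc⟩, le_rfl, hcd.le⟩
  have hAb : BddAbove A := ⟨d, fun y hy => hy.2.2⟩
  have hp := hAcl.csSup_mem hAne hAb
  set p := sSup A with hpdef
  have hFp : F p = p := hp.1.2
  have hpd : p < d := by
    refine lt_of_le_of_ne hp.2.2 ?_
    intro he
    exact hFd (he ▸ hFp)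
  refine ⟨p, hp.1.1, hp.2.1, hpd, hFp, ?_⟩
  intro z hz hfz
  by_cases hzΛ : z ∈ Λ
  · have : z ≤ p := le_csSup hAb ⟨⟨hzΛ, hfz⟩, (hp.2.1.trans hz.1.le), hz.2⟩
    exact absurd hz.1 (not_lt.2 this)
  · obtain ⟨x, y, hg, hxz, hzy, _, hfy⟩ := fix_gap hgapEx hgapIm hgapDis hF hm hzΛ hfz
    have hyd : y ≤ d := by
      by_contra hlt
      push Not at hlt
      have h1 : d ∈ Ioo x y ∩ Λ := ⟨⟨lt_of_lt_of_le hxz hz.2, hlt⟩, hdΛ⟩
      rw [hg.2.2.2] at h1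
      exact h1
    have : y ≤ p := le_csSup hAb ⟨⟨hg.2.2.1, hfy⟩, by linarith [hz.1, hp.2.1], hyd⟩
    linarith [hz.1]

/-- no fixed point on an interval with the point `u`: constant sign -/
private theorem const_sign {F : Equiv.Perm ℝ} (hc : Continuous F) {I : Set ℝ}
    (hI : I.OrdConnected) (hne : ∀ z ∈ I, F z ≠ z) :
    (∀ z ∈ I, F z < z) ∨ (∀ z ∈ I, z < F z) := by
  by_contra hcon
  push Not at hcon
  obtain ⟨⟨z, hz, h1⟩, w, hw, h2⟩ := hcon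
  have h1' : z < F z := lt_of_le_of_ne h1 (hne z hz).symm
  have h2' : F w < w := lt_of_le_of_ne h2 (hne w hw)
  have hcont : ContinuousOn (fun t => F t - t) (uIcc z w) := (hc.sub continuous_id).continuousOn
  have hmem : (0 : ℝ) ∈ uIcc (F z - z) (F w - w) := by
    rw [mem_uIcc]
    right
    constructor <;> linarith
  obtain ⟨t, ht, he⟩ := intermediate_value_uIcc hcont hmem
  have htI : t ∈ I := by
    rcases le_total z w with hzw | hzw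
    · rw [uIcc_of_le hzw] at ht
      exact hI.out hz hw ht
    · rw [uIcc_of_ge hzw] at ht
      exact hI.out hw hz ht
  exact hne t htI (by simpa [sub_eq_zero] using he)

theorem tSEP : StLAM → StNCF → StNID → StCRO → StSEP := by
  intro hLAM hNCF hNID hCRO K S Λ hK hS hL a b a' b' Θ Θ' ρ ρ' hG hG' hba hT hT' hρ hρ' h64 h64'
  by_contra hcon
  push Not at hcon
  obtain ⟨hinv, hint, hper, hdense, hgapEx, hgap1, hgapIm, hgapDis⟩ := hLAM K S Λ hS hL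
  have hΘ : 0 ≤ Θ := by
    have := hT ∅ (by simp) (by simp)
    simpa using this
  have hΘ' : 0 ≤ Θ' := by
    have := hT' ∅ (by simp) (by simp)
    simpa using this
  have hcl := hL.closed
  have hmin1 : a' - b < ρ / 4 := lt_of_lt_of_le hcon (by
    have := min_le_left ρ ρ'; linarith)
  have hmin2 : a' - b < ρ' / 4 := lt_of_lt_of_le hcon (by
    have := min_le_right ρ ρ'; linarith)
  have hab : a < b := hG.1
  have hab' : a' < b' := hG'.1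
  have h4 : 4 * K * Θ * ((b - a) + 2 * ρ) ≤ b - a := by
    have h0 : 0 ≤ K * Θ * ((b - a) + 2 * ρ) :=
      mul_nonneg (mul_nonneg hK hΘ) (by linarith)
    nlinarith
  have h4' : 4 * K * Θ' * ((b' - a') + 2 * ρ') ≤ b' - a' := by
    have h0 : 0 ≤ K * Θ' * ((b' - a') + 2 * ρ') :=
      mul_nonneg (mul_nonneg hK hΘ') (by linarith)
    nlinarith
  have hbΛ : b ∈ Λ := hG.2.2.1
  have ha'Λ : a' ∈ Λ := hG'.2.1
  -- the first map
  obtain ⟨f₀, hf₀, hf₀b⟩ := hNCF K S Λ hK hS hL a' b' Θ' ρ' b hG' hT' hρ' h4' hbΛ hba.ne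
    (hba.trans hab').ne (by linarith) (by linarith)
  have hn₀ := hNID K S hK hS a' b' Θ' ρ' f₀ hab' hΘ' hρ' h64' hf₀
  obtain ⟨q, hqΛ, hbq, hqa', hfq₀, hfne₀⟩ := right_fix hcl hgapEx hgapIm hgapDis hn₀.2.2.2.1
    hn₀.2.2.2.2.1 hn₀.2.2.2.2.2.1 hba hbΛ ha'Λ hf₀b hn₀.1
  have hf : ∃ f, Loop S (a', b') Θ' f ∧ f q = q ∧ ∀ z ∈ Ico b q, f z < z := by
    rcases const_sign hn₀.2.2.2.2.2.1 ordConnected_Ico hfne₀ with h | h
    · exact ⟨f₀, hf₀, hfq₀, h⟩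
    · refine ⟨f₀⁻¹, hn₀.2.2.1, ?_, ?_⟩
      · rw [Equiv.Perm.inv_eq_iff_eq, hfq₀]
      · intro z hz
        have h1 : z < f₀ z := h z hz
        by_contra hge
        push Not at hge
        have h2 : f₀ z ≤ f₀ (f₀⁻¹ z) := hn₀.2.2.2.2.1.monotone hge
        have h3 : f₀ (f₀⁻¹ z) = z := by simp
        rw [h3] at h2
        linarith
  obtain ⟨f, hfL, hfq, hflt⟩ := hf
  have hnf := hNID K S hK hS a' b' Θ' ρ' f hab' hΘ' hρ' h64' hfL
  -- the second map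
  obtain ⟨g₀, hg₀, hg₀q⟩ := hNCF K S Λ hK hS hL a b Θ ρ q hG hT hρ h4 hqΛ (hab.trans hbq).ne'
    hbq.ne' (by linarith) (by linarith)
  have hm₀ := hNID K S hK hS a b Θ ρ g₀ hab hΘ hρ h64 hg₀
  obtain ⟨p, hpΛ, hbp, hpq, hgp₀, hgne₀⟩ := left_fix hcl hgapEx hgapIm hgapDis hm₀.2.2.2.1
    hm₀.2.2.2.2.1 hm₀.2.2.2.2.2.1 hbq hbΛ hqΛ hm₀.2.1 hg₀q
  have hg : ∃ g, Loop S (a, b) Θ g ∧ g p = p ∧ ∀ z ∈ Ioc p q, z < g z := by
    rcases const_sign hm₀.2.2.2.2.2.1 ordConnected_Ioc hgne₀ with h | h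
    · refine ⟨g₀⁻¹, hm₀.2.2.1, ?_, ?_⟩
      · rw [Equiv.Perm.inv_eq_iff_eq, hgp₀]
      · intro z hz
        have h1 : g₀ z < z := h z hz
        by_contra hge
        push Not at hge
        have h2 : g₀ (g₀⁻¹ z) ≤ g₀ z := hm₀.2.2.2.2.1.monotone hge
        have h3 : g₀ (g₀⁻¹ z) = z := by simp
        rw [h3] at h2
        linarith
    · exact ⟨g₀, hg₀, hgp₀, h⟩
  obtain ⟨g, hgL, hgp, hglt⟩ := hg
  have hng := hNID K S hK hS a b Θ ρ g hab hΘ hρ h64 hgL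
  have nearf : Near f p q := hnf.2.2.2.2.2.2 p q (by linarith) hpq (by linarith) (by linarith)
  have nearg : Near g p q := hng.2.2.2.2.2.2 p q (by linarith) hpq (by linarith) (by linarith)
  -- a gap between `p` and `q`
  obtain ⟨z, hz, hzΛ⟩ : ∃ z ∈ Ioo p q, z ∉ Λ := by
    by_contra hall
    push Not at hall
    have h1 : Ioo p q ⊆ interior Λ := interior_maximal hall isOpen_Ioo
    rw [hint] at h1
    exact h1 (show (p + q) / 2 ∈ Ioo p q from ⟨by linarith, by linarith⟩)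
  obtain ⟨x, y, hxy, hxz, hzy⟩ := hgapEx z hzΛ
  have hpx : p ≤ x := by
    by_contra hlt
    push Not at hlt
    have h1 : p ∈ Ioo x y ∩ Λ := ⟨⟨hlt, hz.1.trans hzy⟩, hpΛ⟩
    rw [hxy.2.2.2] at h1
    exact h1
  have hyq : y ≤ q := by
    by_contra hlt
    push Not at hlt
    have h1 : q ∈ Ioo x y ∩ Λ := ⟨⟨hxz.trans hz.2, hlt⟩, hqΛ⟩
    rw [hxy.2.2.2] at h1
    exact h1
  exact hCRO Λ f g p q x y (hinv f hnf.2.2.2.1) (hinv g hng.2.2.2.1) hpq hpΛ hqΛ nearf nearg hfq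
    hgp (fun w hw => hflt w ⟨hbp.trans hw.1, hw.2⟩) hglt hxy hpx hyq

end Pool.Agent.Helper82.HG
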