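import Pool.Agent.Helper82.HG.St2

/-! Project HG, module BAS: elements of the group are diffeomorphisms. -/

set_option autoImplicit false

namespace Pool.Agent.Helper82.HG

open Set

private theorem self_inv_BAS (g : Equiv.Perm ℝ) (x : ℝ) : g (g⁻¹ x) = x :=
  Equiv.apply_symm_apply g x

private theorem mono_BAS {g : Equiv.Perm ℝ} (h : Differentiable ℝ g) :
    StrictMono g ∨ StrictAnti g :=
  h.continuous.strictMono_of_inj g.injective

private theorem inv_cont_BAS {g : Equiv.Perm ℝ} (h : Differentiable ℝ g) :
    Continuous (⇑g⁻¹) := by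
  rcases mono_BAS h with hm | hm
  · have h1 : StrictMono (⇑g⁻¹) := by
      intro x y hxy
      by_contra hc
      rw [not_lt] at hc
      have := hm.monotone hc
      rw [self_inv_BAS, self_inv_BAS] at this
      linarith
    exact h1.monotone.continuous_of_surjective g⁻¹.surjective
  · have h1 : StrictMono (fun x => -(g⁻¹ x)) := by
      intro x y hxy
      by_contra hc
      simp only [neg_lt_neg_iff, not_lt] at hc
      have := hm.antitone hc
      rw [self_inv_BAS, self_inv_BAS] at this
      linarith
    have h2 : Function.Surjective (fun x => -(g⁻¹ x)) := by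
      intro y
      obtain ⟨x, hx⟩ := g⁻¹.surjective (-y)
      exact ⟨x, by simp only [hx, neg_neg]⟩
    have h3 := h1.monotone.continuous_of_surjective h2
    have h4 := h3.neg
    have h5 : (fun x => -(-(g⁻¹ x))) = ⇑g⁻¹ := by
      ext x
      exact neg_neg _
    rw [← h5]
    exact h4

private theorem inv_deriv_BAS {g : Equiv.Perm ℝ} (h : Differentiable ℝ g)
    (hne : ∀ x, deriv g x ≠ 0) (x : ℝ) :
    HasDerivAt (⇑g⁻¹) (deriv g (g⁻¹ x))⁻¹ x := by
  have h1 : HasDerivAt g (deriv g (g⁻¹ x)) (g⁻¹ x) := (h _).hasDerivAt
  refine HasDerivAt.of_local_left_inverse (inv_cont_BAS h).continuousAt h1 (hne _) ?_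
  exact Filter.Eventually.of_forall fun y => by simp

theorem tBAS : StBAS := by
  intro K S hS g hg
  have key : Differentiable ℝ g ∧ (∀ x, deriv g x ≠ 0) ∧
      ∃ d : ℝ, (d = 1 ∨ d = -1) ∧ ∀ x, g (x + 1) = g x + d := by
    unfold Gr at hg
    induction hg using Subgroup.closure_induction with
    | mem s hs =>
      rcases hs with rfl | hs
      · have hT : ⇑T = fun x : ℝ => x + 1 := by
          ext x
          simp [T]
        refine ⟨?_, ?_, 1, Or.inl rfl, fun x => ?_⟩
        · rw [hT]; fun_prop
        · intro x
          rw [hT]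
          simp
        · rw [hT]
      · obtain ⟨h1, h2, _, h4⟩ := hS.nice s hs
        exact ⟨h1, h2, h4⟩
    | one =>
      refine ⟨?_, ?_, 1, Or.inl rfl, fun x => by simp⟩
      · rw [Equiv.Perm.coe_one]; exact differentiable_id
      · intro x
        rw [Equiv.Perm.coe_one]
        simp
    | mul a b _ _ ha hb =>
      obtain ⟨a1, a2, da, hda, a3⟩ := ha
      obtain ⟨b1, b2, db, hdb, b3⟩ := hb
      have hc : ∀ x, HasDerivAt (⇑(a * b)) (deriv a (b x) * deriv b x) x := by
        intro x
        rw [Equiv.Perm.coe_mul]
        exact (a1 (b x)).hasDerivAt.comp x (b1 x).hasDerivAt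
      have ha' : ∀ x, a (x - 1) = a x - da := by
        intro x
        have := a3 (x - 1)
        rw [sub_add_cancel] at this
        linarith
      refine ⟨fun x => (hc x).differentiableAt, fun x => ?_, da * db, ?_, fun x => ?_⟩
      · rw [(hc x).deriv]
        exact mul_ne_zero (a2 _) (b2 _)
      · rcases hda with rfl | rfl <;> rcases hdb with rfl | rfl <;> norm_num
      · rw [Equiv.Perm.mul_apply, Equiv.Perm.mul_apply, b3]
        rcases hdb with rfl | rfl
        · rw [a3, mul_one]
        · rw [← sub_eq_add_neg, ha']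
          ring
    | inv a _ ha =>
      obtain ⟨a1, a2, da, hda, a3⟩ := ha
      have hc := inv_deriv_BAS a1 a2
      refine ⟨fun x => (hc x).differentiableAt, fun x => ?_, da, hda, fun x => ?_⟩
      · rw [(hc x).deriv]
        exact inv_ne_zero (a2 _)
      · apply a.injective
        rw [self_inv_BAS]
        rcases hda with rfl | rfl
        · rw [a3, self_inv_BAS]
        · have := a3 (a⁻¹ x + -1)
          rw [neg_add_cancel_right, self_inv_BAS] at this
          linarith
  exact ⟨key.1, key.2.1, mono_BAS key.1, key.2.2⟩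

end Pool.Agent.Helper82.HG
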