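import Pool.Agent.Helper82.HG.St2

set_option autoImplicit false

namespace Pool.Agent.Helper82.HG

open Set Filter Topology

private theorem lam_iff {S : Set (Equiv.Perm ℝ)} {Λ : Set ℝ} (hL : Lam S Λ) :
    ∀ g ∈ Gr S, ∀ x, g x ∈ Λ ↔ x ∈ Λ := by
  intro g hg x
  constructor
  · intro h
    have := hL.invt g⁻¹ ((Gr S).inv_mem hg) ⟨g x, h, rfl⟩
    simpa using this
  · intro h
    exact hL.invt g hg ⟨x, h, rfl⟩

private theorem T_mem (S : Set (Equiv.Perm ℝ)) : T ∈ Gr S :=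
  Subgroup.subset_closure (Set.mem_insert _ _)

private theorem lam_add_one {S : Set (Equiv.Perm ℝ)} {Λ : Set ℝ} (hL : Lam S Λ) (x : ℝ) :
    x + 1 ∈ Λ ↔ x ∈ Λ := by
  have := lam_iff hL T (T_mem S) x
  simpa [T] using this

private theorem lam_add {S : Set (Equiv.Perm ℝ)} {Λ : Set ℝ} (hL : Lam S Λ) {x : ℝ} (hx : x ∈ Λ)
    (n : ℕ) : x + n ∈ Λ := by
  induction n with
  | zero => simpa using hx
  | succ n ih =>
    have := (lam_add_one hL (x + n)).2 ih
    rw [Nat.cast_succ, ← add_assoc]; exact this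

private theorem lam_sub {S : Set (Equiv.Perm ℝ)} {Λ : Set ℝ} (hL : Lam S Λ) {x : ℝ} (hx : x ∈ Λ)
    (n : ℕ) : x - n ∈ Λ := by
  induction n with
  | zero => simpa using hx
  | succ n ih =>
    apply (lam_add_one hL _).1
    have : x - ((n + 1 : ℕ) : ℝ) + 1 = x - n := by push_cast; ring
    rw [this]; exact ih

private theorem lam_nonempty {S : Set (Equiv.Perm ℝ)} {Λ : Set ℝ} (hL : Lam S Λ) :
    Λ.Nonempty := by
  obtain ⟨x, hx⟩ := hL.inf.nonempty
  exact ⟨x, hx.1⟩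

private theorem cont_of (h : StBAS) {K : ℝ} {S : Set (Equiv.Perm ℝ)} (hS : Gens K S)
    {g : Equiv.Perm ℝ} (hg : g ∈ Gr S) : Continuous g :=
  (h K S hS g hg).1.continuous

private theorem interior_empty (h : StBAS) {K : ℝ} {S : Set (Equiv.Perm ℝ)} {Λ : Set ℝ}
    (hS : Gens K S) (hL : Lam S Λ) : interior Λ = ∅ := by
  have hfr : frontier Λ = Λ := by
    apply hL.minl
    · exact hL.closed.frontier_subset
    · exact isClosed_frontier
    · rw [Set.nonempty_iff_ne_empty]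
      intro he
      have hclop : IsClopen Λ := isClopen_iff_frontier_eq_empty.2 he
      rcases isClopen_iff.1 hclop with h0 | h0
      · exact (lam_nonempty hL).ne_empty h0
      · exact hL.neuniv h0
    · intro g hg
      let G : ℝ ≃ₜ ℝ :=
        { toEquiv := g
          continuous_toFun := cont_of h hS hg
          continuous_invFun := cont_of h hS ((Gr S).inv_mem hg) }
      have e1 : ⇑G '' frontier Λ = frontier (⇑G '' Λ) := G.image_frontier Λ
      have e2 : ⇑G '' Λ = Λ := by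
        apply Subset.antisymm
        · exact hL.invt g hg
        · intro x hx
          refine ⟨g⁻¹ x, (lam_iff hL g⁻¹ ((Gr S).inv_mem hg) x).2 hx, ?_⟩
          show g (g⁻¹ x) = x
          simp
      have e3 : ⇑g '' frontier Λ = frontier Λ := by
        have : ⇑g '' frontier Λ = ⇑G '' frontier Λ := rfl
        rw [this, e1, e2]
      rw [e3]
  have : interior Λ = interior (frontier Λ) := by rw [hfr]
  rw [this]
  exact interior_frontier hL.closed

private theorem perfect (h : StBAS) {K : ℝ} {S : Set (Equiv.Perm ℝ)} {Λ : Set ℝ}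
    (hS : Gens K S) (hL : Lam S Λ) : ∀ x ∈ Λ, ∀ ε > 0, ∃ y ∈ Λ, y ≠ x ∧ |y - x| < ε := by
  set P : Set ℝ := {x | ∀ ε > 0, ∃ y ∈ Λ, y ≠ x ∧ |y - x| < ε} with hP
  have hPΛ : P ⊆ Λ := by
    intro x hx
    rw [← hL.closed.closure_eq, Metric.mem_closure_iff]
    intro ε hε
    obtain ⟨y, hy, _, hyx⟩ := hx ε hε
    exact ⟨y, hy, by rw [dist_comm, Real.dist_eq]; exact hyx⟩
  have hEq : P = Λ := by
    apply hL.minl
    · exact hPΛ
    · rw [← isOpen_compl_iff, Metric.isOpen_iff]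
      intro x hx
      have hx' : ¬ ∀ ε > 0, ∃ y ∈ Λ, y ≠ x ∧ |y - x| < ε := hx
      push Not at hx'
      obtain ⟨ε, hε, hy⟩ := hx'
      refine ⟨ε, hε, ?_⟩
      intro x' hx'' hmem
      rw [Metric.mem_ball, Real.dist_eq] at hx''
      have hm : ∀ ε > 0, ∃ y ∈ Λ, y ≠ x' ∧ |y - x'| < ε := hmem
      by_cases hxx : x' = x
      · subst hxx
        obtain ⟨y, h1, h2, h3⟩ := hm ε hε
        exact absurd h3 (not_lt.2 (hy y h1 h2))
      · have hpos : 0 < |x' - x| := abs_pos.2 (sub_ne_zero.2 hxx)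
        obtain ⟨y, h1, h2, h3⟩ := hm (min (ε - |x' - x|) (|x' - x|))
          (lt_min (by linarith) hpos)
        have h4 : |y - x'| < ε - |x' - x| := lt_of_lt_of_le h3 (min_le_left _ _)
        have h5 : |y - x'| < |x' - x| := lt_of_lt_of_le h3 (min_le_right _ _)
        have hyx : y ≠ x := by
          rintro rfl
          rw [abs_sub_comm] at h5
          exact lt_irrefl _ h5
        have h6 : |y - x| ≤ |y - x'| + |x' - x| := abs_sub_le _ _ _
        exact absurd (lt_of_le_of_lt h6 (by linarith)) (not_lt.2 (hy y h1 hyx))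
    · have hsub : Λ ∩ Ico (0 : ℝ) 1 ⊆ Icc 0 1 := fun x hx => ⟨hx.2.1, hx.2.2.le⟩
      obtain ⟨x, _, hx⟩ := hL.inf.exists_accPt_of_subset_isCompact isCompact_Icc hsub
      refine ⟨x, ?_⟩
      intro ε hε
      obtain ⟨y, hy, hyx⟩ := accPt_iff_nhds.1 hx (Metric.ball x ε) (Metric.ball_mem_nhds x hε)
      refine ⟨y, hy.2.1, hyx, ?_⟩
      have := hy.1
      rwa [Metric.mem_ball, Real.dist_eq] at this
    · rintro g hg _ ⟨x, hx, rfl⟩
      intro ε hε
      have hc : ContinuousAt g x := (cont_of h hS hg).continuousAt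
      rw [Metric.continuousAt_iff] at hc
      obtain ⟨δ, hδ, hd⟩ := hc ε hε
      obtain ⟨y, h1, h2, h3⟩ := hx δ hδ
      refine ⟨g y, (lam_iff hL g hg y).2 h1, fun he => h2 (g.injective he), ?_⟩
      have := hd (x := y) (by rw [Real.dist_eq]; exact h3)
      rwa [Real.dist_eq] at this
  intro x hx
  have : x ∈ P := hEq ▸ hx
  exact this

private theorem dense_orbit (h : StBAS) {K : ℝ} {S : Set (Equiv.Perm ℝ)} {Λ : Set ℝ}
    (hS : Gens K S) (hL : Lam S Λ) : ∀ x ∈ Λ, ∀ U : Set ℝ, IsOpen U → (U ∩ Λ).Nonempty →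
      ∃ g ∈ Gr S, g x ∈ U := by
  intro x hx U hU hne
  have hEq : closure {y | ∃ g ∈ Gr S, g x = y} = Λ := by
    apply hL.minl
    · apply closure_minimal _ hL.closed
      rintro y ⟨g, hg, rfl⟩
      exact (lam_iff hL g hg x).2 hx
    · exact isClosed_closure
    · exact ⟨x, subset_closure ⟨1, (Gr S).one_mem, rfl⟩⟩
    · intro g hg
      refine (image_closure_subset_closure_image (cont_of h hS hg)).trans (closure_mono ?_)
      rintro _ ⟨y, ⟨k, hk, rfl⟩, rfl⟩
      exact ⟨g * k, (Gr S).mul_mem hg hk, rfl⟩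
  obtain ⟨y, hyU, hyΛ⟩ := hne
  rw [← hEq] at hyΛ
  obtain ⟨z, hz, g, hg, rfl⟩ := mem_closure_iff.1 hyΛ U hU hyU
  exact ⟨g, hg, hz⟩

private theorem gap_exists {S : Set (Equiv.Perm ℝ)} {Λ : Set ℝ} (hL : Lam S Λ) :
    ∀ z, z ∉ Λ → ∃ a b, Gap Λ a b ∧ a < z ∧ z < b := by
  intro z hz
  obtain ⟨x, hx⟩ := lam_nonempty hL
  have hA : (Λ ∩ Iic z).Nonempty := by
    obtain ⟨n, hn⟩ := exists_nat_ge (x - z)
    exact ⟨x - n, lam_sub hL hx n, by simp only [mem_Iic]; linarith⟩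
  have hB : (Λ ∩ Ici z).Nonempty := by
    obtain ⟨n, hn⟩ := exists_nat_ge (z - x)
    exact ⟨x + n, lam_add hL hx n, by simp only [mem_Ici]; linarith⟩
  have bA : BddAbove (Λ ∩ Iic z) := ⟨z, fun y hy => hy.2⟩
  have bB : BddBelow (Λ ∩ Ici z) := ⟨z, fun y hy => hy.2⟩
  have mA := (hL.closed.inter isClosed_Iic).csSup_mem hA bA
  have mB := (hL.closed.inter isClosed_Ici).csInf_mem hB bB
  have lA : sSup (Λ ∩ Iic z) < z := lt_of_le_of_ne mA.2 (fun he => hz (he ▸ mA.1))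
  have lB : z < sInf (Λ ∩ Ici z) := lt_of_le_of_ne mB.2 (fun he => hz (he ▸ mB.1))
  refine ⟨sSup (Λ ∩ Iic z), sInf (Λ ∩ Ici z), ⟨lA.trans lB, mA.1, mB.1, ?_⟩, lA, lB⟩
  rw [Set.eq_empty_iff_forall_notMem]
  rintro y ⟨⟨h1, h2⟩, h3⟩
  rcases le_total y z with hyz | hyz
  · exact absurd (le_csSup bA ⟨h3, hyz⟩) (not_le.2 h1)
  · exact absurd (csInf_le bB ⟨h3, hyz⟩) (not_le.2 h2)

theorem tLAM : StBAS → StLAM := by
  intro h K S Λ hS hL
  have hper := perfect h hS hL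
  refine ⟨lam_iff hL, interior_empty h hS hL, hper, dense_orbit h hS hL, gap_exists hL,
    ?_, ?_, ?_⟩
  · rintro a b ⟨hab, ha, hb, he⟩
    by_contra hcon
    push Not at hcon
    have h1 : a + 1 ∈ Ioo a b ∩ Λ := ⟨⟨by linarith, by linarith⟩, (lam_add_one hL a).2 ha⟩
    rw [he] at h1
    exact h1
  · rintro a b ⟨hab, ha, hb, he⟩ g hg
    have hga := (lam_iff hL g hg a).2 ha
    have hgb := (lam_iff hL g hg b).2 hb
    have key : ∀ y ∈ Λ, ∃ x ∈ Λ, g x = y := by
      intro y hy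
      refine ⟨g⁻¹ y, (lam_iff hL g⁻¹ ((Gr S).inv_mem hg) y).2 hy, by simp⟩
    rcases (h K S hS g hg).2.2.1 with hm | hm
    · have h1 : g a < g b := hm hab
      rw [min_eq_left h1.le, max_eq_right h1.le]
      refine ⟨h1, hga, hgb, ?_⟩
      rw [Set.eq_empty_iff_forall_notMem]
      rintro y ⟨⟨h2, h3⟩, h4⟩
      obtain ⟨x, hx, rfl⟩ := key y h4
      have h5 : x ∈ Ioo a b ∩ Λ := ⟨⟨hm.lt_iff_lt.1 h2, hm.lt_iff_lt.1 h3⟩, hx⟩
      rw [he] at h5
      exact h5
    · have h1 : g b < g a := hm hab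
      rw [min_eq_right h1.le, max_eq_left h1.le]
      refine ⟨h1, hgb, hga, ?_⟩
      rw [Set.eq_empty_iff_forall_notMem]
      rintro y ⟨⟨h2, h3⟩, h4⟩
      obtain ⟨x, hx, rfl⟩ := key y h4
      have h5 : x ∈ Ioo a b ∩ Λ := ⟨⟨hm.lt_iff_gt.1 h3, hm.lt_iff_gt.1 h2⟩, hx⟩
      rw [he] at h5
      exact h5
  · -- disjoint closures
    have aux : ∀ a b a' b', Gap Λ a b → Gap Λ a' b' → a < a' → b < a' := by
      rintro a b a' b' ⟨hab, ha, hb, he⟩ ⟨hab', ha', hb', he'⟩ hlt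
      by_contra hcon
      push Not at hcon
      have h1 : a' = b := by
        by_contra hne
        have h2 : a' ∈ Ioo a b ∩ Λ := ⟨⟨hlt, lt_of_le_of_ne hcon hne⟩, ha'⟩
        rw [he] at h2
        exact h2
      subst h1
      obtain ⟨y, hy, hne, hlt'⟩ := hper a' ha' (min (a' - a) (b' - a'))
        (lt_min (by linarith) (by linarith))
      have h3 : |y - a'| < a' - a := lt_of_lt_of_le hlt' (min_le_left _ _)
      have h4 : |y - a'| < b' - a' := lt_of_lt_of_le hlt' (min_le_right _ _)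
      rw [abs_lt] at h3 h4
      rcases lt_or_gt_of_ne hne with h5 | h5
      · have h6 : y ∈ Ioo a a' ∩ Λ := ⟨⟨by linarith, h5⟩, hy⟩
        rw [he] at h6
        exact h6
      · have h6 : y ∈ Ioo a' b' ∩ Λ := ⟨⟨h5, by linarith⟩, hy⟩
        rw [he'] at h6
        exact h6
    intro a b a' b' hg hg' hne
    rcases lt_trichotomy a a' with hlt | heq | hgt
    · exact Or.inl (aux a b a' b' hg hg' hlt)
    · exfalso
      subst heq
      obtain ⟨hab, ha, hb, he⟩ := hg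
      obtain ⟨hab', ha', hb', he'⟩ := hg'
      rcases lt_trichotomy b b' with h1 | h1 | h1
      · have h2 : b ∈ Ioo a b' ∩ Λ := ⟨⟨hab, h1⟩, hb⟩
        rw [he'] at h2
        exact h2
      · exact hne (by rw [h1])
      · have h2 : b' ∈ Ioo a b ∩ Λ := ⟨⟨hab', h1⟩, hb'⟩
        rw [he] at h2
        exact h2
    · exact Or.inr (aux a' b' a b hg' hg hgt)

end Pool.Agent.Helper82.HG
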