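import Pool.Agent.Helper82.HG.St2

/-!
# HG, module SUM (helper33): different gaps modulo translation have total length at most one.
-/

set_option autoImplicit false

namespace Pool.Agent.Helper82.HG

open Set MeasureTheory

private theorem transZ_SUM {Λ : Set ℝ} (h : ∀ x, x ∈ Λ ↔ x + 1 ∈ Λ) (m : ℤ) :
    ∀ x : ℝ, x ∈ Λ ↔ x + m ∈ Λ := by
  induction m using Int.induction_on with
  | zero => intro x; simp
  | succ i ih =>
    intro x
    rw [ih x, h (x + (i : ℤ))]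
    push_cast
    rw [add_assoc]
  | pred i ih =>
    intro x
    rw [h (x + ((-(i : ℤ) - 1 : ℤ) : ℝ)), ih x]
    push_cast
    rw [show x + (-(i : ℝ) - 1) + 1 = x + -(i : ℝ) by ring]

private theorem gap_trans_SUM {Λ : Set ℝ} (h : ∀ x, x ∈ Λ ↔ x + 1 ∈ Λ) (m : ℤ) {a b : ℝ}
    (hg : Gap Λ a b) : Gap Λ (a + m) (b + m) := by
  obtain ⟨h1, h2, h3, h4⟩ := hg
  refine ⟨by linarith, (transZ_SUM h m a).mp h2, (transZ_SUM h m b).mp h3, ?_⟩
  rw [Set.eq_empty_iff_forall_notMem] at h4 ⊢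
  rintro z ⟨⟨hz1, hz2⟩, hz3⟩
  refine h4 (z - m) ⟨⟨by linarith, by linarith⟩, ?_⟩
  rw [transZ_SUM h m, sub_add_cancel]
  exact hz3

private theorem gap_eq_SUM {Λ : Set ℝ} {a b c d z : ℝ} (h : Gap Λ a b) (h' : Gap Λ c d)
    (hz : z ∈ Ioo a b) (hz' : z ∈ Ioo c d) : a = c ∧ b = d := by
  obtain ⟨_, ha, hb, h4⟩ := h
  obtain ⟨_, hc, hd, h4'⟩ := h'
  rw [Set.eq_empty_iff_forall_notMem] at h4 h4'
  have e1 : ¬ (a < c) := fun hh => h4 c ⟨⟨hh, hz'.1.trans hz.2⟩, hc⟩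
  have e2 : ¬ (c < a) := fun hh => h4' a ⟨⟨hh, hz.1.trans hz'.2⟩, ha⟩
  have e3 : ¬ (d < b) := fun hh => h4 d ⟨⟨hz.1.trans hz'.2, hh⟩, hd⟩
  have e4 : ¬ (b < d) := fun hh => h4' b ⟨⟨hz'.1.trans hz.2, hh⟩, hb⟩
  exact ⟨by linarith, by linarith⟩

theorem tSUM : StSUM := by
  intro Λ hΛ s hgap hinj
  rcases s.eq_empty_or_nonempty with rfl | ⟨u0, hu0⟩
  · simp
  set x0 : ℝ := u0.1 with hx0
  let m : ℝ × ℝ → ℤ := fun u => -⌊u.1 - x0⌋
  have hm : ∀ u, x0 ≤ u.1 + (m u : ℝ) ∧ u.1 + (m u : ℝ) < x0 + 1 := by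
    intro u
    have e : ((m u : ℤ) : ℝ) = -(⌊u.1 - x0⌋ : ℝ) := by
      show ((-⌊u.1 - x0⌋ : ℤ) : ℝ) = _
      push_cast
      rfl
    rw [e]
    have h1 := Int.floor_le (u.1 - x0)
    have h2 := Int.lt_floor_add_one (u.1 - x0)
    exact ⟨by linarith, by linarith⟩
  let I : ℝ × ℝ → Set ℝ := fun u => Ioo (u.1 + (m u : ℝ)) (u.2 + (m u : ℝ))
  have hx0' : x0 + 1 ∈ Λ := (hΛ x0).mp (hgap u0 hu0).2.1
  have hG : ∀ u ∈ s, Gap Λ (u.1 + (m u : ℝ)) (u.2 + (m u : ℝ)) := fun u hu =>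
    gap_trans_SUM hΛ (m u) (hgap u hu)
  have hsub : ∀ u ∈ s, I u ⊆ Icc x0 (x0 + 1) := by
    intro u hu z hz
    have h2 : u.2 + (m u : ℝ) ≤ x0 + 1 := by
      by_contra hcon
      have h4 := (hG u hu).2.2.2
      rw [Set.eq_empty_iff_forall_notMem] at h4
      exact h4 _ ⟨⟨(hm u).2, not_le.mp hcon⟩, hx0'⟩
    exact ⟨(hm u).1.trans hz.1.le, hz.2.le.trans h2⟩
  have hdisj : (s : Set (ℝ × ℝ)).PairwiseDisjoint I := by
    intro u hu w hw huw
    rw [Function.onFun, Set.disjoint_left]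
    intro z hz hz'
    obtain ⟨e1, e2⟩ := gap_eq_SUM (hG u hu) (hG w hw) hz hz'
    apply huw
    apply hinj u hu w hw
    refine ⟨m u - m w, ?_, ?_⟩
    · push_cast; linarith
    · push_cast; linarith
  have hvol : volume (⋃ u ∈ s, I u) = ∑ u ∈ s, volume (I u) :=
    measure_biUnion_finset hdisj (fun _ _ => measurableSet_Ioo)
  have hle : volume (⋃ u ∈ s, I u) ≤ volume (Icc x0 (x0 + 1)) :=
    measure_mono (Set.iUnion₂_subset hsub)
  rw [hvol, Real.volume_Icc] at hle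
  have hsum : ∑ u ∈ s, volume (I u) = ENNReal.ofReal (∑ u ∈ s, (u.2 - u.1)) := by
    rw [ENNReal.ofReal_sum_of_nonneg]
    · refine Finset.sum_congr rfl fun u _ => ?_
      show volume (Ioo _ _) = _
      rw [Real.volume_Ioo]
      congr 1
      ring
    · intro u hu
      have := (hgap u hu).1
      linarith
  rw [hsum, show x0 + 1 - x0 = 1 by ring] at hle
  exact (ENNReal.ofReal_le_ofReal_iff zero_le_one).mp hle

end Pool.Agent.Helper82.HG
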