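import Pool.Agent.Helper82.HG.St

/-!
# MP_10ef18_an (Hector: finiteness of gap orbits), statements of the modules, second part
-/

set_option autoImplicit false

namespace Pool.Agent.Helper82.HG

open Set MeasureTheory

/-- MODULE NCF (`theorem tNCF : StBAS → StLAM → StCTM → StPA → StPB → StNCF`). The loops at a gap
have no common fixed point of `Λ` near the gap.
PROOF. Suppose no loop moves `y`. Say `y > b` (the case `y < a` is symmetric: use `[y, b]` and the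
end point `b`; or apply the argument to the mirror image). `h y = k y` for all `Almost` `h, k` with
the same end (otherwise `h⁻¹ * k` is a loop moving `y`). By StPA, StPB every `g ∈ Gr S` agrees at `y`
(and at `a`, `b`) with a good path `h`; good paths are `Almost`; StCTM with `ρ` (cost `≤ Θ`) gives
`|g a - g y| ≤ C len (act g (a,b))`, `C := 2 (y - a)/(b - a)`, for ALL `g ∈ Gr S`.  (∗)
Choose `x₀ ∈ Λ ∩ (b, y)` (`b` is a limit of points of `Λ` by StLAM (c), and they are `> b` or `< a`).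
Let `δ = min (x₀ - b) (y - x₀)/2`, `U = (x₀ - δ/2, x₀ + δ/2)`. There is `g ∈ Gr S` with `g a ∈ U` and
`C len (act g (a,b)) < δ/2`: otherwise all gaps `act g (a,b)` with `g a ∈ U` have length
`≥ λ₀ := δ/(2C)`, they are pairwise disjoint or equal and meet `U`, so there are finitely many, so
`{g a} ∩ U` is finite; but it is dense in `Λ ∩ U` (StLAM (d)), which is infinite (StLAM (c)).
For this `g` we get `g '' [a, y] ⊆ (x₀ - δ, x₀ + δ) ⊆ (b, y)` by (∗). Let `A = [a, y]`. Then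
`A ⊆ g⁻ᵏ '' A` for all `k`, and `g⁻ᵏ '' A` is the interval with end points `g⁻ᵏ a`, `g⁻ᵏ y`
of length `≤ C len (act (g⁻ᵏ) (a,b))` by (∗). So `len (act (g⁻ᵏ) (a,b)) ≥ (y - a)/C` for all `k`, and
(lengths of gaps are `≤ 1`) all these gaps lie in `[a - C, a + C]`: two of them are equal as sets, so
`g^m` maps `[a, b]` onto itself for some `m ≥ 1`; but `g^m '' [a,b] ⊆ g '' A ⊆ (b, y)`.
Contradiction. -/
def StNCF : Prop :=
  ∀ (K : ℝ) (S : Set (Equiv.Perm ℝ)) (Λ : Set ℝ), 0 ≤ K → Gens K S → Lam S Λ →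
    ∀ (a b Θ ρ y : ℝ), Gap Λ a b → Tot S (a, b) Θ → 0 < ρ →
    4 * K * Θ * ((b - a) + 2 * ρ) ≤ b - a → y ∈ Λ → y ≠ a → y ≠ b → a - ρ ≤ y → y ≤ b + ρ →
    ∃ f, Loop S (a, b) Θ f ∧ f y ≠ y

/-- MODULE NID (`theorem tNID : StBAS → StCTL → StCTM → StNID`). Loops are near the identity.
PROOF. `f = h⁻¹ * k`, `act h v = act k v`, `v = (a,b)`, `ℓ = b - a`; `f a = a`, `f b = b`;
`f⁻¹ = k⁻¹ * h` is a loop; paths are in `Gr S`. `h`, `k` are both increasing or both decreasing (they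
agree at `a`, `b`), so `f` is increasing; it is continuous and differentiable everywhere with
derivative `deriv k z / deriv h (f z) > 0` (StBAS). Let `κ = 2KΘ/ℓ`, `λ = len (act h v)/ℓ`. StCTL for
`h` and `k` with `ρ` on `I = [a-ρ, b+ρ]`: `log|h'|`, `log|k'|` are `κ`-Lipschitz and (mean value
theorem: the value `log λ` is taken in `(a,b)`) differ from `log λ` by at most
`κ(ℓ+2ρ) ≤ 1/32`. For `z ∈ [a - ρ/4, b + ρ/4]`: `f z ∈ I`: indeed if `z ∈ [a,b]` then `f z ∈ [a,b]`;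
if `b < z ≤ b + ρ/4` then `|k z - k b| ≤ 2 λ ρ/4 = λρ/2` and `|h (b+ρ) - h b| ≥ λρ/2` (StCTM), same
side, so `f z = h⁻¹ (k z)` is between `b` and `b + ρ`; similarly on the left. Hence
`log f'(z) = (log|k'(z)| - log λ) - (log|h'(f z)| - log λ)` has absolute value `≤ 1/16`, so
`|f z - f z'| ≤ 2|z - z'|`, and `|log f'(z) - log f'(z')| ≤ κ|z-z'| + κ|f z - f z'| ≤ 3κ|z-z'|`.
Take `M = 3κ`: `M (q - p) ≤ 6KΘρ/(4ℓ) ≤ 1/8` by the hypothesis. (`cost l ≤ Θ`, `0 ≤ Θ`.) -/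
def StNID : Prop :=
  ∀ (K : ℝ) (S : Set (Equiv.Perm ℝ)), 0 ≤ K → Gens K S →
    ∀ (a b Θ ρ : ℝ) (f : Equiv.Perm ℝ), a < b → 0 ≤ Θ → 0 < ρ →
    64 * K * Θ * ((b - a) + 2 * ρ) ≤ b - a → Loop S (a, b) Θ f →
    f a = a ∧ f b = b ∧ Loop S (a, b) Θ f⁻¹ ∧ f ∈ Gr S ∧ StrictMono f ∧ Continuous f ∧
    ∀ p q, a - ρ / 4 ≤ p → p < q → q ≤ b + ρ / 4 → q - p ≤ ρ / 4 → Near f p q

/-- MODULE CRO (`theorem tCRO : StCRO`). Crossing lemma (Duminy).
PROOF. All images of the gap `(x,y)` under products of `f`, `g` and their inverses are gaps, so they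
never contain `p` or `q` and different ones are disjoint. First `x ≠ p` (otherwise `(p, g y)` is a gap
starting at `p`, so `g y = y`) and `y ≠ q` (same with `f`): `p` is not the left end point and `q` not the
right end point of a gap contained in `[p,q]`. For a gap `V = (x,y)` with
`p < x`, `y < q`: `g '' V` is a gap `(g x, g y)` with `g x > x`, different from `V`, so `g x ≥ y`; `f`
similarly `f y ≤ x`.
G-push: let `k` be the greatest number with `g^k y < q` (exists: `g^k y` increases; if all were `< q` the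
limit would be a fixed point of `g` in `(p, q]`). Then `g^{k+1} x ≥ q` (`q ∈ Λ` is not inside the gap
`g^{k+1} V` nor its right end point, and `g^{k+1} y ≥ q`). Let `V' = g^k V = (x', y')`. With `ε = 1/8`: the intervals
`[g^j x, g^{j+1} x]`, `j ≤ k`, lie in `[p, q]`-ish (for `j < k` in `[p,q]`) and do not overlap, so the
Lipschitz condition gives for `u, u' ∈ [x, g x]` (note `V ⊆ [x, g x]`):
`|log (g^k)'(u) - log (g^k)'(u')| ≤ M (q - p) ≤ 1/8`, hence by the mean value theorem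
`|V'|/|V| ≥ e^{-1/8} (g x' - x')/(g x - x)`; `g x' ≥ q`, and `g x - x ≤ (e^{1/8} - 1)(x - p)` because
`g p = p` and `g' ≤ e^{1/8}` on `[p,q]`. So `|V'| ≥ |V| e^{-1/8} (q - x')/((e^{1/8}-1)(x - p))`.
F-push (mirror image): for a gap `V = (x,y)` inside `(p,q)` there is `l` with `V' = f^l V = (x', y')` inside
`(p,q)`, `f y' ≤ p`, and `|V'| ≥ |V| e^{-1/8} (y' - p)/((e^{1/8}-1)(q - y))`.
Composition F then G: from `V = (x,y)` get `V₂ = (x₂,y₂)`, then `V₃ = (x₃,y₃)`: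
`|V₃| ≥ |V| e^{-1/4} (e^{1/8}-1)^{-2} ((y₂ - p)/(x₂ - p)) ((q - x₃)/(q - y))`, and `y₂ ≥ x₂`,
`q - y ≤ q - x`, so `|V₃|/(q - x₃) ≥ 2 |V|/(q - x)`. Iterating, `|V_n|/(q - x_n) ≥ 2^n |V|/(q-x)`, but
`V_n ⊆ (x_n, q)` gives `|V_n|/(q - x_n) ≤ 1`. Contradiction. -/
def StCRO : Prop :=
  ∀ (Λ : Set ℝ) (f g : Equiv.Perm ℝ) (p q x y : ℝ), (∀ z, f z ∈ Λ ↔ z ∈ Λ) →
    (∀ z, g z ∈ Λ ↔ z ∈ Λ) → p < q → p ∈ Λ → q ∈ Λ → Near f p q → Near g p q → f q = q → g p = p →
    (∀ z ∈ Ico p q, f z < z) → (∀ z ∈ Ioc p q, z < g z) → Gap Λ x y → p ≤ x → y ≤ q → False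

/-- MODULE SEP (`theorem tSEP : StLAM → StNCF → StNID → StCRO → StSEP`). Two gaps are separated.
PROOF. Suppose `a' - b < min ρ ρ' / 4`. The hypotheses with `64` imply those with `4` of StNCF
(`0 ≤ Θ`: `Tot` of the empty set). `b ∈ Λ`, `a' - ρ' ≤ b < a'`, so StNCF for `(a', b')` gives a loop `f`
at `(a',b')` with `f b ≠ b`; by StNID it is increasing, continuous, fixes `a'`, preserves `Λ`
(StLAM (a)). Let `q` be the least point of the closed set `{z ∈ Λ | f z = z} ∩ [b, a']`; `b < q ≤ a'`.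
`f` has no fixed point in `[b, q)`: a fixed point `z ∉ Λ` lies in a gap `(x₁,y₁)` (StLAM (e)); the gaps
`(x₁,y₁)` and `(f x₁, f y₁)` both contain `z`, so they are equal and `f x₁ = x₁`, `b ≤ x₁ < q` against
the choice of `q`. By continuity `f z - z` has constant sign on `[b,q)`; replacing `f` by the loop `f⁻¹`
we may assume `f z < z` there. `q ∈ Λ`, `b < q ≤ b + ρ`: StNCF for `(a,b)` gives a loop `g` at `(a,b)`
with `g q ≠ q`, `g b = b`; let `p` be the greatest point of `{z ∈ Λ | g z = z} ∩ [b, q]`; `b ≤ p < q`,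
no fixed point of `g` in `(p, q]`, and after replacing `g` by `g⁻¹`, `z < g z` there.
`Near f p q` and `Near g p q` by StNID (`[p,q] ⊆ [b,a']`, `a' - b < ρ/4, ρ'/4`). `interior Λ = ∅` gives a
point of `(p,q)` outside `Λ`, its gap `(x,y)` has `p ≤ x`, `y ≤ q`. StCRO gives a contradiction. -/
def StSEP : Prop :=
  ∀ (K : ℝ) (S : Set (Equiv.Perm ℝ)) (Λ : Set ℝ), 0 ≤ K → Gens K S → Lam S Λ →
    ∀ (a b a' b' Θ Θ' ρ ρ' : ℝ), Gap Λ a b → Gap Λ a' b' → b < a' → Tot S (a, b) Θ →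
    Tot S (a', b') Θ' → 0 < ρ → 0 < ρ' → 64 * K * Θ * ((b - a) + 2 * ρ) ≤ b - a →
    64 * K * Θ' * ((b' - a') + 2 * ρ') ≤ b' - a' → min ρ ρ' / 4 ≤ a' - b

/-- MODULE CRD (`theorem tCRD : StCRD`). Lacunary sets of numbers in `[m, 1]` are small.
PROOF. Induction on the cardinality (remove the greatest element `r`; if the rest is nonempty with
greatest element `r'`, then `r' < r/2 ≤ 1/2`, so twice the rest lies in `[2m, 1]`), or: sort. -/
def StCRD : Prop :=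
  ∀ (s : Finset ℝ) (m : ℝ), 0 < m → m ≤ 1 → (∀ r ∈ s, m ≤ r ∧ r ≤ 1) →
    (∀ r ∈ s, ∀ r' ∈ s, r < r' → 2 * r < r') → (s.card : ℝ) ≤ 1 + Real.log (1 / m) / Real.log 2

/-- MODULE INT (`theorem tINT : StCRD → StINT`). Packing.
PROOF. `Λ` is invariant under integer translations and nonempty, so `δ z := infDist z Λ ≤ 1/2`. For
`z ∈ [0,1) \ Λ` let `J z` be the (finite) set of pairs `(u, m)`, `u ∈ s`, `m ∈ ℤ`, with
`u.1 + m - R u/4 < z < u.2 + m + R u/4`. Claim `card (J z) ≤ 2 + log(1/δ z)/log 2`. At most one of them has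
`u.1 + m < z < u.2 + m` (gaps are disjoint). For the others `z` is outside `[u.1+m, u.2+m]` whose end
points are in `Λ`, so `δ z ≤` distance `< R u/4`. Two different members `(u,m)`, `(w,n)` (different gaps,
`Eqv u w → u = w`; two different gaps have `u.2 + m < w.1 + n` or the reverse by the hypothesis
of perfectness) have `min (R u) (R w) ≤ distance of the intervals < (R u + R w)/4`, so the greater of
`R u, R w` is more than twice the smaller; so `R` is injective on them and their `R` values form a set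
as in StCRD with `m = 4 δ z` (`≤ R u ≤ 1`). [If there is no such member the bound is trivial.]
Integrate over `[0,1)`: `∫ card (J z) dz = ∑_{u ∈ s} (u.2 - u.1 + R u/2)` (unfolding: sum over `m` of the
volume of the translated interval intersected with `[0,1)`; only `≥` is needed), so
`∑ R u / 2 ≤ ∫_{[0,1]} (2 + log (1/δ)/log 2) ≤ 2 + (1/log 2) ∫ |log δ|` and `2/log 2 ≤ 4`. -/
def StINT : Prop :=
  ∀ (Λ : Set ℝ), IsClosed Λ → (∀ x, x ∈ Λ ↔ x + 1 ∈ Λ) → Λ.Nonempty → volume Λ = 0 →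
    (∀ x ∈ Λ, ∀ ε > 0, ∃ y ∈ Λ, y ≠ x ∧ |y - x| < ε) →
    IntegrableOn (fun z => Real.log (Metric.infDist z Λ)) (Icc (0 : ℝ) 1) volume →
    ∀ (s : Finset (ℝ × ℝ)) (R : ℝ × ℝ → ℝ), (∀ u ∈ s, Gap Λ u.1 u.2) →
    (∀ u ∈ s, 0 < R u ∧ R u ≤ 1) → (∀ u ∈ s, ∀ w ∈ s, Eqv u w → u = w) →
    (∀ u ∈ s, ∀ w ∈ s, ∀ m : ℤ, u.2 < w.1 + m → min (R u) (R w) ≤ w.1 + m - u.2) →
    ∑ u ∈ s, R u ≤ 4 + 4 * ∫ z in Icc (0 : ℝ) 1, |Real.log (Metric.infDist z Λ)|

/-- MODULE REP (`theorem tREP : StBAS → StLAM → StSUM → StREP`). Finitely many gaps of an orbit carry a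
quarter of its total length.
PROOF. `v = (a,b)`. Every `u = act g v` has `Gap Λ (min u.1 u.2) (max u.1 u.2)` (StLAM (g)). Let
`nrm u := (min u.1 u.2 - ⌊min u.1 u.2⌋, max u.1 u.2 - ⌊min u.1 u.2⌋)`: a gap with first end point in
`[0,1)` and length `len u`. If `s` is a finset of pairwise inequivalent elements of the orbit then
`nrm` is at most 2-to-1 on `s` (`nrm u = nrm u'` implies `Eqv u u'` or `Eqv u.swap u'`), the elements
of `s.image nrm` are gaps, pairwise inequivalent, so `∑_{s} len ≤ 2 ∑_{image} len ≤ 2` by StSUM. So the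
set in the definition of `Theta S v` is bounded above by 2, `Tot S v Θ` holds for `Θ := Theta S v`,
`Θ ≥ b - a > 0` (the set `{v}`), `Θ ≤ 2`, and there is `s` with `∑_s len ≥ Θ/2`. Take
`t := s.image nrm`. For `w = nrm (act g v) ∈ t`: `w` is the image of `v` or of `(b,a)` under the element
`T^(-m) * g`, so `⇑(T^(-m) * g) '' Ioo a b = Ioo w.1 w.2`, and `Tot S w Θ`: `Orb S (act g v) = Orb S v`
and the orbit of the swapped pair consists of the swapped pairs (lengths do not change, `Eqv` is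
compatible with swapping). -/
def StREP : Prop :=
  ∀ (K : ℝ) (S : Set (Equiv.Perm ℝ)) (Λ : Set ℝ), Gens K S → Lam S Λ →
    ∀ a b : ℝ, Gap Λ a b → ∃ (Θ : ℝ) (t : Finset (ℝ × ℝ)), 0 < Θ ∧
      (∀ w ∈ t, Gap Λ w.1 w.2 ∧ 0 ≤ w.1 ∧ w.1 < 1 ∧
        (∃ g ∈ Gr S, ⇑g '' Ioo a b = Ioo w.1 w.2) ∧ Tot S w Θ ∧ w.2 - w.1 ≤ Θ) ∧
      Θ / 4 ≤ ∑ w ∈ t, (w.2 - w.1)

/-- MODULE BOX (`theorem tBOX : StBOX`). Box dimension less than one implies the two hypotheses.
PROOF. `Λ ⊆ thickening r Λ`, so `volume (Λ ∩ [0,1]) ≤ C r^δ → 0`, and `Λ` is periodic, so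
`volume Λ = 0`. On `[0,1]` `infDist z Λ ≤ 1/2`. The set where `infDist z Λ < 2^{-k}` is contained in the
thickening, of measure `≤ C 2^{-kδ}` in `[0,1]`; `|log infDist z| ≤ ∑_{k ≥ 0} log 2 · 1[infDist z < 2^{-k}]`
for `z ∉ Λ`; the integral is `≤ ∑ log 2 · C 2^{-kδ} < ∞`. Measurability: `infDist` is continuous. -/
def StBOX : Prop :=
  ∀ (Λ : Set ℝ), IsClosed Λ → Λ.Nonempty → (∀ x, x ∈ Λ ↔ x + 1 ∈ Λ) →
    (∃ C δ : ℝ, 0 < δ ∧ ∀ r : ℝ, 0 < r → r ≤ 1 →
      volume (Metric.thickening r Λ ∩ Icc (0 : ℝ) 1) ≤ ENNReal.ofReal (C * r ^ δ)) →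
    volume Λ = 0 ∧
      IntegrableOn (fun z => Real.log (Metric.infDist z Λ)) (Icc (0 : ℝ) 1) volume

/-- MODULE MAIN (`theorem tMAIN : StBAS → StLAM → StSUM → StSEP → StINT → StREP → StMAIN`).
PROOF. Write `(a,b) ~ (c,d)` if some `g ∈ Gr S` maps `Ioo a b` onto `Ioo c d`. If the conclusion fails
then for every `N` there are `N` pairwise inequivalent gaps `v₁, …, v_N` (induction: the finset of the
first ones misses some gap). Take `Θ_i, t_i` from StREP. The `t_i` are pairwise disjoint and elements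
of the union are pairwise different modulo translation (first end points in `[0,1)`). StSUM:
`∑_i Θ_i/4 ≤ 1`. Let `Θ* = 1/(256 K)`. At most `4/Θ*` indices have `Θ_i > Θ*`. Let `I` be the others, `s` the
union of their `t_i`, `R w := (w.2 - w.1)/(1024 K Θ_i)` for `w ∈ t_i` (`Θ_i` is determined by `w`), so
`0 < R w ≤ 1`. Separation hypothesis of StINT: apply StSEP to `u` and the translated gap
`(w.1 + m, w.2 + m)` (a gap, `Tot` is translation invariant as `T^m ∈ Gr S`) with `ρ = 4 R u`,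
`ρ' = 4 R w`: `64 K Θ_i ((u.2-u.1) + 2ρ) = 64 K Θ_i (u.2-u.1) + (u.2-u.1)/2 ≤ (u.2-u.1)(1/4 + 1/2)`.
StINT: `|I|/(4096 K) ≤ ∑ R ≤ 4 + 4 ∫ |log|`. So `N ≤ 4/Θ* + 4096 K (4 + 4 ∫)` for every `N`. -/
def StMAIN : Prop :=
  ∀ (K : ℝ) (S : Set (Equiv.Perm ℝ)) (Λ : Set ℝ), 1 ≤ K → Gens K S → Lam S Λ → volume Λ = 0 →
    IntegrableOn (fun z => Real.log (Metric.infDist z Λ)) (Icc (0 : ℝ) 1) volume →
    ∃ s : Finset (ℝ × ℝ), ∀ a b : ℝ, Gap Λ a b →
      ∃ p ∈ s, ∃ g ∈ Gr S, ⇑g '' Ioo p.1 p.2 = Ioo a b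

end Pool.Agent.Helper82.HG
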