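import Pool.Agent.Helper82.HG.St2

/-!
# MP_10ef18_an, module BOX
-/

set_option autoImplicit false

namespace Pool.Agent.Helper82.HG

open Set MeasureTheory

private theorem box_shift (Λ : Set ℝ) (hp : ∀ x, x ∈ Λ ↔ x + 1 ∈ Λ) (m : ℤ) (x : ℝ) :
    x ∈ Λ ↔ x + m ∈ Λ := by
  induction m using Int.induction_on with
  | zero => simp
  | succ n ih =>
    rw [ih, hp (x + ((n : ℤ) : ℝ))]
    push_cast
    rw [add_assoc]
  | pred n ih =>
    rw [ih, hp (x + ((-(n : ℤ) - 1 : ℤ) : ℝ))]
    push_cast
    have : x + (-(n : ℝ) - 1) + 1 = x + -(n : ℝ) := by ring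
    rw [this]

private theorem box_infDist_le (Λ : Set ℝ) (hne : Λ.Nonempty)
    (hp : ∀ x, x ∈ Λ ↔ x + 1 ∈ Λ) (z : ℝ) : Metric.infDist z Λ ≤ 1 := by
  obtain ⟨x, hx⟩ := hne
  have h1 : x + (⌊z - x⌋ : ℤ) ∈ Λ := (box_shift Λ hp _ x).1 hx
  refine (Metric.infDist_le_dist_of_mem h1).trans ?_
  rw [Real.dist_eq, abs_le]
  have h2 := Int.floor_le (z - x)
  have h3 := Int.lt_floor_add_one (z - x)
  constructor <;> linarith

theorem tBOX : StBOX := by
  intro Λ hcl hne hp hbox
  obtain ⟨C, δ, hδ, hC⟩ := hbox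
  constructor
  · -- volume zero
    have h0 : volume (Λ ∩ Icc (0 : ℝ) 1) = 0 := by
      have hlim : Filter.Tendsto (fun r : ℝ => ENNReal.ofReal (C * r ^ δ)) (nhdsWithin 0 (Ioi 0))
          (nhds 0) := by
        have h1 : Filter.Tendsto (fun r : ℝ => C * r ^ δ) (nhdsWithin 0 (Ioi 0)) (nhds (C * 0)) := by
          apply Filter.Tendsto.const_mul
          have h2 : ContinuousAt (fun r : ℝ => r ^ δ) 0 :=
            Real.continuousAt_rpow_const 0 δ (Or.inr hδ.le)
          have h3 : Filter.Tendsto (fun r : ℝ => r ^ δ) (nhds 0) (nhds ((0 : ℝ) ^ δ)) := h2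
          rw [Real.zero_rpow hδ.ne'] at h3
          exact h3.mono_left nhdsWithin_le_nhds
        have h4 := (ENNReal.continuous_ofReal.tendsto (C * 0)).comp h1
        rw [mul_zero, ENNReal.ofReal_zero] at h4
        exact h4
      refine le_antisymm ?_ zero_le
      refine ge_of_tendsto hlim ?_
      have hev : ∀ᶠ r : ℝ in nhdsWithin 0 (Ioi 0), r ∈ Ioc (0 : ℝ) 1 := by
        refine Ioc_mem_nhdsGT ?_
        norm_num
      filter_upwards [hev] with r hr
      refine le_trans (measure_mono ?_) (hC r hr.1 hr.2)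
      exact inter_subset_inter_left _ (Metric.self_subset_thickening hr.1 Λ)
    have hsub : Λ ⊆ ⋃ m : ℤ, (fun x : ℝ => x + (m : ℝ)) ⁻¹' (Λ ∩ Icc (0 : ℝ) 1) := by
      intro x hx
      rw [mem_iUnion]
      refine ⟨-⌊x⌋, ?_, ?_⟩
      · exact (box_shift Λ hp _ x).1 hx
      · have h2 := Int.floor_le x
        have h3 := Int.lt_floor_add_one x
        push_cast
        constructor <;> linarith
    refine measure_mono_null hsub ?_
    refine measure_iUnion_null fun m => ?_
    rw [measure_preimage_add_right]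
    exact h0
  · -- integrability
    have hmeas : Measurable (fun z => Real.log (Metric.infDist z Λ)) :=
      Real.measurable_log.comp (Metric.continuous_infDist_pt Λ).measurable
    refine ⟨hmeas.aestronglyMeasurable, ?_⟩
    rw [hasFiniteIntegral_iff_norm]
    rw [lintegral_eq_lintegral_meas_lt (volume.restrict (Icc (0 : ℝ) 1))
      (Filter.Eventually.of_forall fun z => norm_nonneg _) hmeas.norm.aemeasurable]
    have hb : ∀ t ∈ Ioi (0 : ℝ), (volume.restrict (Icc (0 : ℝ) 1))
        {a : ℝ | t < ‖Real.log (Metric.infDist a Λ)‖} ≤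
        ENNReal.ofReal (C * Real.exp (-δ * t)) := by
      intro t ht
      have ht' : (0 : ℝ) < t := ht
      rw [Measure.restrict_apply' measurableSet_Icc]
      have he : Real.exp (-δ * t) = (Real.exp (-t)) ^ δ := by
        rw [← Real.exp_mul]; ring_nf
      rw [he]
      refine le_trans (measure_mono ?_) (hC (Real.exp (-t)) (Real.exp_pos _) ?_)
      · rintro z ⟨hz, hz1⟩
        refine ⟨?_, hz1⟩
        rw [Metric.mem_thickening_iff_infDist_lt hne]
        have hz' : t < |Real.log (Metric.infDist z Λ)| := hz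
        have hd1 := box_infDist_le Λ hne hp z
        have hd0 : 0 ≤ Metric.infDist z Λ := Metric.infDist_nonneg
        have hlog : Real.log (Metric.infDist z Λ) ≤ 0 := Real.log_nonpos hd0 hd1
        rw [abs_of_nonpos hlog] at hz'
        rcases hd0.eq_or_lt with h | h
        · rw [← h] at hz' ⊢
          exact Real.exp_pos _
        · rw [← Real.log_lt_iff_lt_exp h]
          linarith
      · rw [Real.exp_le_one_iff]; linarith
    have hI : IntegrableOn (fun t : ℝ => C * Real.exp (-δ * t)) (Ioi 0) :=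
      (exp_neg_integrableOn_Ioi 0 hδ).const_mul C
    calc ∫⁻ t in Ioi (0 : ℝ), (volume.restrict (Icc (0 : ℝ) 1))
          {a : ℝ | t < ‖Real.log (Metric.infDist a Λ)‖}
        ≤ ∫⁻ t in Ioi (0 : ℝ), ENNReal.ofReal (C * Real.exp (-δ * t)) :=
          setLIntegral_mono' measurableSet_Ioi hb
      _ ≤ ∫⁻ t in Ioi (0 : ℝ), ‖C * Real.exp (-δ * t)‖ₑ := by
          refine lintegral_mono fun t => ?_
          rw [Real.enorm_eq_ofReal_abs]
          exact ENNReal.ofReal_le_ofReal (le_abs_self _)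
      _ < ⊤ := hI.2

end Pool.Agent.Helper82.HG
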