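import Pool.Agent.Helper82.HG.St2

/-!
# MP_10ef18_an (Hector), module CRD: lacunary sets are small
-/

set_option autoImplicit false

namespace Pool.Agent.Helper82.HG

open Set

private theorem crd_aux (m : ℝ) (hm : 0 < m) (s : Finset ℝ) :
    ∀ M : ℝ, m ≤ M → (∀ r ∈ s, m ≤ r ∧ r ≤ M) →
    (∀ r ∈ s, ∀ r' ∈ s, r < r' → 2 * r < r') →
    (s.card : ℝ) ≤ 1 + Real.log (M / m) / Real.log 2 := by
  have hl2 : 0 < Real.log 2 := Real.log_pos (by norm_num)
  induction s using Finset.induction_on_max with
  | empty =>
    intro M hM _ _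
    have : 0 ≤ Real.log (M / m) := Real.log_nonneg (by rw [le_div_iff₀ hm]; linarith)
    simp only [Finset.card_empty, Nat.cast_zero]
    positivity
  | insert a s hmax ih =>
    intro M hM hb hl
    have hnot : a ∉ s := fun h => lt_irrefl _ (hmax a h)
    rw [Finset.card_insert_of_notMem hnot]
    have hlog : 0 ≤ Real.log (M / m) := Real.log_nonneg (by rw [le_div_iff₀ hm]; linarith)
    rcases s.eq_empty_or_nonempty with rfl | ⟨x, hx⟩
    · simp only [Finset.card_empty, zero_add, Nat.cast_one]
      have : 0 ≤ Real.log (M / m) / Real.log 2 := by positivity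
      linarith
    · have hsm : ∀ r ∈ s, m ≤ r ∧ r ≤ M / 2 := by
        intro r hr
        refine ⟨(hb r (Finset.mem_insert_of_mem hr)).1, ?_⟩
        have h1 := hl r (Finset.mem_insert_of_mem hr) a (Finset.mem_insert_self _ _) (hmax r hr)
        have h2 := (hb a (Finset.mem_insert_self _ _)).2
        linarith
      have hM2 : m ≤ M / 2 := (hsm x hx).1.trans (hsm x hx).2
      have h3 := ih (M / 2) hM2 hsm (fun r hr r' hr' h =>
        hl r (Finset.mem_insert_of_mem hr) r' (Finset.mem_insert_of_mem hr') h)
      have h4 : Real.log (M / 2 / m) = Real.log (M / m) - Real.log 2 := by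
        rw [div_right_comm, Real.log_div _ (by norm_num)]
        have : 0 < M := by linarith
        positivity
      rw [h4, sub_div, div_self hl2.ne'] at h3
      push_cast
      linarith

/-- MODULE CRD. -/
theorem tCRD : StCRD := by
  intro s m hm hm1 hb hl
  exact crd_aux m hm s 1 hm1 hb hl

end Pool.Agent.Helper82.HG
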