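import Pool.Agent.Helper82.HG.St2

/-!
# MP_10ef18_an, module MAIN
-/

set_option autoImplicit false

namespace Pool.Agent.Helper82.HG

open Set MeasureTheory

/-- related intervals -/
private def Rel (S : Set (Equiv.Perm ℝ)) (p q : ℝ × ℝ) : Prop :=
  ∃ g ∈ Gr S, ⇑g '' Ioo p.1 p.2 = Ioo q.1 q.2

private theorem Rel.refl (S : Set (Equiv.Perm ℝ)) (p : ℝ × ℝ) : Rel S p p :=
  ⟨1, one_mem _, by simp⟩

private theorem Rel.symm {S : Set (Equiv.Perm ℝ)} {p q : ℝ × ℝ} (h : Rel S p q) : Rel S q p := by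
  obtain ⟨g, hg, he⟩ := h
  refine ⟨g⁻¹, inv_mem hg, ?_⟩
  rw [← he, ← Set.image_comp]
  have : (⇑g⁻¹ ∘ ⇑g) = id := by
    funext x
    simp
  rw [this, Set.image_id]

private theorem Rel.trans {S : Set (Equiv.Perm ℝ)} {p q r : ℝ × ℝ} (h : Rel S p q)
    (h' : Rel S q r) : Rel S p r := by
  obtain ⟨g, hg, he⟩ := h
  obtain ⟨g', hg', he'⟩ := h'
  refine ⟨g' * g, mul_mem hg' hg, ?_⟩
  rw [← he', ← he, ← Set.image_comp]
  rfl

private theorem T_mem (S : Set (Equiv.Perm ℝ)) : T ∈ Gr S :=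
  Subgroup.subset_closure (mem_insert _ _)

private theorem T_zpow_apply (m : ℤ) (x : ℝ) : (T ^ m) x = x + m := by
  induction m using Int.induction_on with
  | zero => simp
  | succ n ih =>
    rw [zpow_add, zpow_one, Equiv.Perm.mul_apply]
    have h : ∀ y, T y = y + 1 := fun y => rfl
    have h2 : ∀ y : ℝ, (T ^ (n : ℤ)) y = y + n := by
      intro y
      clear ih
      induction n generalizing y with
      | zero => simp
      | succ k ihk =>
        rw [Nat.cast_succ, zpow_add, zpow_one, Equiv.Perm.mul_apply, ihk, h]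
        push_cast
        ring
    rw [h, h2]
    push_cast
    ring
  | pred n ih =>
    have h2 : ∀ y : ℝ, (T ^ (n : ℤ)) y = y + n := by
      intro y
      clear ih
      induction n generalizing y with
      | zero => simp
      | succ k ihk =>
        rw [Nat.cast_succ, zpow_add, zpow_one, Equiv.Perm.mul_apply, ihk]
        have h : ∀ y, T y = y + 1 := fun y => rfl
        rw [h]
        push_cast
        ring
    have h3 : ∀ y : ℝ, (T ^ ((n : ℤ) + 1)) y = y + (n + 1) := by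
      intro y
      rw [zpow_add, zpow_one, Equiv.Perm.mul_apply, h2]
      have h : ∀ y, T y = y + 1 := fun y => rfl
      rw [h]
      ring
    have h4 : (-(n : ℤ) - 1) = -((n : ℤ) + 1) := by ring
    rw [h4, zpow_neg, Equiv.Perm.inv_eq_iff_eq, h3]
    push_cast
    ring

private theorem Tot_act {S : Set (Equiv.Perm ℝ)} {v : ℝ × ℝ} {Θ : ℝ} (h : Tot S v Θ)
    (g : Equiv.Perm ℝ) (hg : g ∈ Gr S) : Tot S (act g v) Θ := by
  intro s hs hE
  refine h s (fun u hu => ?_) hE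
  obtain ⟨k, hk, he⟩ := hs u hu
  exact ⟨k * g, mul_mem hk hg, he⟩

private theorem shift_mem {Λ : Set ℝ} (hp : ∀ x, x ∈ Λ ↔ x + 1 ∈ Λ) (m : ℤ) (x : ℝ) :
    x ∈ Λ ↔ x + m ∈ Λ := by
  induction m using Int.induction_on with
  | zero => simp
  | succ n ih =>
    rw [ih, hp (x + ((n : ℤ) : ℝ))]
    push_cast
    rw [add_assoc]
  | pred n ih =>
    rw [ih, hp (x + ((-(n : ℤ) - 1 : ℤ) : ℝ))]
    push_cast
    have : x + (-(n : ℝ) - 1) + 1 = x + -(n : ℝ) := by ring
    rw [this]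

private theorem gap_shift {Λ : Set ℝ} (hp : ∀ x, x ∈ Λ ↔ x + 1 ∈ Λ) (m : ℤ) {a b : ℝ}
    (h : Gap Λ a b) : Gap Λ (a + m) (b + m) := by
  obtain ⟨h1, h2, h3, h4⟩ := h
  refine ⟨by linarith, (shift_mem hp m a).1 h2, (shift_mem hp m b).1 h3, ?_⟩
  rw [Set.eq_empty_iff_forall_notMem] at h4 ⊢
  rintro x ⟨hx1, hx2⟩
  refine h4 (x - m) ⟨⟨by linarith [hx1.1], by linarith [hx1.2]⟩, ?_⟩
  rw [shift_mem hp m]
  simpa using hx2

private theorem eqv_eq {u w : ℝ × ℝ} (hu : 0 ≤ u.1 ∧ u.1 < 1) (hw : 0 ≤ w.1 ∧ w.1 < 1)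
    (h : Eqv u w) : u = w := by
  obtain ⟨m, h1, h2⟩ := h
  have hm1 : (m : ℝ) < 1 := by linarith [hu.1, hw.2]
  have hm2 : (-1 : ℝ) < m := by linarith [hu.2, hw.1]
  have hm3 : m < 1 := by exact_mod_cast hm1
  have hm4 : -1 < m := by exact_mod_cast hm2
  have hm : m = 0 := by omega
  subst hm
  simp only [Int.cast_zero, add_zero] at h1 h2
  exact Prod.ext h1.symm h2.symm

theorem tMAIN : StBAS → StLAM → StSUM → StSEP → StINT → StREP → StMAIN := by
  intro _ hLAM hSUM hSEP hINT hREP K S Λ hK hG hL hvol hint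
  obtain ⟨la, _, lc, _, _, _, _, _⟩ := hLAM K S Λ hG hL
  have hK0 : 0 < K := by linarith
  have hper : ∀ x, x ∈ Λ ↔ x + 1 ∈ Λ := fun x => (la T (T_mem S) x).symm
  have hne : Λ.Nonempty := (hL.inf.nonempty).mono inter_subset_left
  by_contra hcon
  push Not at hcon
  -- many inequivalent gaps
  have hmany : ∀ N : ℕ, ∃ V : Finset (ℝ × ℝ), V.card = N ∧ (∀ v ∈ V, Gap Λ v.1 v.2) ∧
      ∀ v ∈ V, ∀ w ∈ V, v ≠ w → ¬ Rel S v w := by
    intro N
    induction N with
    | zero => exact ⟨∅, rfl, by simp, by simp⟩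
    | succ N ih =>
      obtain ⟨V, h1, h2, h3⟩ := ih
      obtain ⟨a, b, hab, hno⟩ := hcon V
      have hno' : ∀ p ∈ V, ¬ Rel S p (a, b) := by
        rintro p hp ⟨g, hg, he⟩
        exact hno p hp g hg he
      have hnot : (a, b) ∉ V := fun h => hno' _ h (Rel.refl S _)
      refine ⟨insert (a, b) V, ?_, ?_, ?_⟩
      · rw [Finset.card_insert_of_notMem hnot, h1]
      · intro v hv
        rcases Finset.mem_insert.1 hv with rfl | hv
        · exact hab
        · exact h2 v hv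
      · intro v hv w hw hvw
        rcases Finset.mem_insert.1 hv with rfl | hv <;> rcases Finset.mem_insert.1 hw with rfl | hw
        · exact absurd rfl hvw
        · exact fun h => hno' w hw h.symm
        · exact hno' v hv
        · exact h3 v hv w hw hvw
  set B : ℝ := 4 + 4 * ∫ z in Icc (0 : ℝ) 1, |Real.log (Metric.infDist z Λ)| with hB
  obtain ⟨N, hN⟩ := exists_nat_gt (1024 * K + 4096 * K * B)
  obtain ⟨V, hVc, hVg, hVr⟩ := hmany N
  have hrep : ∀ v : ℝ × ℝ, ∃ (Θ : ℝ) (t : Finset (ℝ × ℝ)), v ∈ V → 0 < Θ ∧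
      (∀ w ∈ t, Gap Λ w.1 w.2 ∧ 0 ≤ w.1 ∧ w.1 < 1 ∧ Rel S v w ∧ Tot S w Θ ∧ w.2 - w.1 ≤ Θ) ∧
      Θ / 4 ≤ ∑ w ∈ t, (w.2 - w.1) := by
    intro v
    by_cases hv : v ∈ V
    · obtain ⟨Θ, t, h1, h2, h3⟩ := hREP K S Λ hG hL v.1 v.2 (hVg v hv)
      exact ⟨Θ, t, fun _ => ⟨h1, h2, h3⟩⟩
    · exact ⟨0, ∅, fun h => absurd h hv⟩
  choose Θ t hΘt using hrep
  have hΘ : ∀ v ∈ V, 0 < Θ v := fun v hv => (hΘt v hv).1
  have ht : ∀ v ∈ V, ∀ w ∈ t v, Gap Λ w.1 w.2 ∧ 0 ≤ w.1 ∧ w.1 < 1 ∧ Rel S v w ∧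
      Tot S w (Θ v) ∧ w.2 - w.1 ≤ Θ v := fun v hv => (hΘt v hv).2.1
  have hsum : ∀ v ∈ V, Θ v / 4 ≤ ∑ w ∈ t v, (w.2 - w.1) := fun v hv => (hΘt v hv).2.2
  have huniq : ∀ v ∈ V, ∀ v' ∈ V, ∀ w, w ∈ t v → w ∈ t v' → v = v' := by
    intro v hv v' hv' w hw hw'
    by_contra hne
    exact hVr v hv v' hv' hne ((ht v hv w hw).2.2.2.1.trans (ht v' hv' w hw').2.2.2.1.symm)
  have hdisj : ∀ V' ⊆ V, Set.PairwiseDisjoint (↑V' : Set (ℝ × ℝ)) t := by
    intro V' hV' v hv v' hv' hne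
    rw [Function.onFun, Finset.disjoint_left]
    intro w hw hw'
    exact hne (huniq v (hV' hv) v' (hV' hv') w hw hw')
  have heqv : ∀ V' ⊆ V, ∀ u ∈ V'.biUnion t, ∀ w ∈ V'.biUnion t, Eqv u w → u = w := by
    intro V' hV' u hu w hw h
    rw [Finset.mem_biUnion] at hu hw
    obtain ⟨v, hv, huv⟩ := hu
    obtain ⟨v', hv', hwv⟩ := hw
    have h1 := ht v (hV' hv) u huv
    have h2 := ht v' (hV' hv') w hwv
    exact eqv_eq ⟨h1.2.1, h1.2.2.1⟩ ⟨h2.2.1, h2.2.2.1⟩ h
  have hgap : ∀ V' ⊆ V, ∀ u ∈ V'.biUnion t, Gap Λ u.1 u.2 := by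
    intro V' hV' u hu
    rw [Finset.mem_biUnion] at hu
    obtain ⟨v, hv, huv⟩ := hu
    exact (ht v (hV' hv) u huv).1
  have htot : ∑ v ∈ V, Θ v ≤ 4 := by
    have h1 := hSUM Λ hper (V.biUnion t) (hgap V subset_rfl) (heqv V subset_rfl)
    rw [Finset.sum_biUnion (hdisj V subset_rfl)] at h1
    have h2 : ∑ v ∈ V, Θ v / 4 ≤ ∑ v ∈ V, ∑ w ∈ t v, (w.2 - w.1) := Finset.sum_le_sum hsum
    rw [← Finset.sum_div] at h2
    linarith
  -- the two parts
  set V₁ := V.filter fun v => 1 / (256 * K) < Θ v with hV₁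
  set V₂ := V.filter fun v => ¬ (1 / (256 * K) < Θ v) with hV₂
  have hcard : (V₁.card : ℝ) + V₂.card = N := by
    rw [← hVc]
    exact_mod_cast Finset.card_filter_add_card_filter_not (s := V) (fun v => 1 / (256 * K) < Θ v)
  have hV₂V : V₂ ⊆ V := Finset.filter_subset _ _
  have hc1 : (V₁.card : ℝ) ≤ 1024 * K := by
    have h1 : ∑ v ∈ V₁, 1 / (256 * K) ≤ ∑ v ∈ V₁, Θ v :=
      Finset.sum_le_sum fun v hv => (Finset.mem_filter.1 hv).2.le
    have h2 : ∑ v ∈ V₁, Θ v ≤ ∑ v ∈ V, Θ v :=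
      Finset.sum_le_sum_of_subset_of_nonneg (Finset.filter_subset _ _) fun v hv _ => (hΘ v hv).le
    rw [Finset.sum_const, nsmul_eq_mul] at h1
    have h3 : (V₁.card : ℝ) * (1 / (256 * K)) ≤ 4 := by linarith
    rw [mul_one_div, div_le_iff₀ (by positivity)] at h3
    linarith
  -- the radii
  let R : ℝ × ℝ → ℝ := fun w =>
    if h : ∃ v ∈ V, w ∈ t v then (w.2 - w.1) / (1024 * K * Θ h.choose) else 0
  have hR : ∀ v ∈ V, ∀ w ∈ t v, R w = (w.2 - w.1) / (1024 * K * Θ v) := by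
    intro v hv w hw
    have h : ∃ v ∈ V, w ∈ t v := ⟨v, hv, hw⟩
    have h1 : h.choose = v := huniq _ h.choose_spec.1 _ hv w h.choose_spec.2 hw
    simp only [R]
    rw [dif_pos h, h1]
  have hc2 : ∑ u ∈ V₂.biUnion t, R u ≤ B := by
    refine hINT Λ hL.closed hper hne hvol lc hint (V₂.biUnion t) R (hgap V₂ hV₂V) ?_
      (heqv V₂ hV₂V) ?_
    · intro u hu
      rw [Finset.mem_biUnion] at hu
      obtain ⟨v, hv, huv⟩ := hu
      have hvV := hV₂V hv
      rw [hR v hvV u huv]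
      have h1 := hΘ v hvV
      have h2 := ht v hvV u huv
      have h3 := h2.1.1
      constructor
      · apply div_pos
        · linarith
        · positivity
      · rw [div_le_one (by positivity)]
        have h4 := h2.2.2.2.2.2
        have h5 : Θ v ≤ 1024 * K * Θ v := by nlinarith
        linarith
    · intro u hu w hw m huw
      rw [Finset.mem_biUnion] at hu hw
      obtain ⟨v, hv, huv⟩ := hu
      obtain ⟨v', hv', hwv⟩ := hw
      have hvV := hV₂V hv
      have hvV' := hV₂V hv'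
      have h1 := ht v hvV u huv
      have h2 := ht v' hvV' w hwv
      have key : ∀ v ∈ V₂, ∀ u ∈ t v, 0 < 4 * R u ∧
          64 * K * Θ v * ((u.2 - u.1) + 2 * (4 * R u)) ≤ u.2 - u.1 := by
        intro v hv u huv
        have hvV := hV₂V hv
        have h1 := hΘ v hvV
        have h2 := ht v hvV u huv
        have h3 := h2.1.1
        have h4 : Θ v ≤ 1 / (256 * K) := not_lt.1 (Finset.mem_filter.1 hv).2
        have h5 : K * Θ v ≤ 1 / 256 := by
          rw [le_div_iff₀ (by positivity)] at h4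
          linarith
        rw [hR v hvV u huv]
        have h6 : 0 < u.2 - u.1 := by linarith
        constructor
        · have : 0 < (u.2 - u.1) / (1024 * K * Θ v) := div_pos h6 (by positivity)
          linarith
        · have h7 : 64 * K * Θ v * (2 * (4 * ((u.2 - u.1) / (1024 * K * Θ v)))) =
              (u.2 - u.1) / 2 := by
            field_simp
            norm_num
          have h8 : 64 * K * Θ v * (u.2 - u.1) ≤ (u.2 - u.1) / 4 := by nlinarith
          rw [mul_add, h7]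
          linarith
      have k1 := key v hv u huv
      have k2 := key v' hv' w hwv
      have hT : Tot S (w.1 + m, w.2 + m) (Θ v') := by
        have := Tot_act h2.2.2.2.2.1 (T ^ m) (zpow_mem (T_mem S) m)
        have he : act (T ^ m) w = (w.1 + (m : ℝ), w.2 + (m : ℝ)) := by
          unfold act
          rw [T_zpow_apply, T_zpow_apply]
        rwa [he] at this
      have hs := hSEP K S Λ hK0.le hG hL u.1 u.2 (w.1 + m) (w.2 + m) (Θ v) (Θ v') (4 * R u)
        (4 * R w) h1.1 (gap_shift hper m h2.1) huw h1.2.2.2.2.1 hT k1.1 k2.1 k1.2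
        (by
          have e1 : w.2 + (m : ℝ) - (w.1 + m) = w.2 - w.1 := by ring
          rw [e1]
          exact k2.2)
      have hmin : min (4 * R u) (4 * R w) = 4 * min (R u) (R w) := by
        rcases le_total (R u) (R w) with h | h
        · rw [min_eq_left h, min_eq_left (by linarith)]
        · rw [min_eq_right h, min_eq_right (by linarith)]
      rw [hmin] at hs
      linarith
  have hc3 : (V₂.card : ℝ) ≤ 4096 * K * B := by
    rw [Finset.sum_biUnion (hdisj V₂ hV₂V)] at hc2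
    have h1 : ∀ v ∈ V₂, 1 / (4096 * K) ≤ ∑ w ∈ t v, R w := by
      intro v hv
      have hvV := hV₂V hv
      have h2 : ∑ w ∈ t v, R w = (∑ w ∈ t v, (w.2 - w.1)) / (1024 * K * Θ v) := by
        rw [Finset.sum_div]
        exact Finset.sum_congr rfl fun w hw => hR v hvV w hw
      have h3 := hΘ v hvV
      rw [h2, div_le_div_iff₀ (by positivity) (by positivity)]
      have h4 := hsum v hvV
      nlinarith
    have h2 := Finset.sum_le_sum h1
    rw [Finset.sum_const, nsmul_eq_mul] at h2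
    have h3 : (V₂.card : ℝ) * (1 / (4096 * K)) ≤ B := by linarith
    rw [mul_one_div, div_le_iff₀ (by positivity)] at h3
    linarith
  linarith

end Pool.Agent.Helper82.HG
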