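import Pool.Agent.Helper82.HG.St2

/-!
# MP_10ef18_an (Hector), module REP: finitely many gaps of an orbit carry a quarter of its length
-/

set_option autoImplicit false

namespace Pool.Agent.Helper82.HG

open Set

private theorem T_apply' (x : ℝ) : T x = x + 1 := rfl

private theorem T_zpow' (m : ℤ) : ∀ x : ℝ, (T ^ m) x = x + m := by
  have hnat : ∀ (n : ℕ) (x : ℝ), (T ^ n) x = x + n := by
    intro n
    induction n with
    | zero => intro x; simp
    | succ n ih =>
      intro x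
      rw [pow_succ', Equiv.Perm.mul_apply, ih, T_apply']
      push_cast
      ring
  intro x
  cases m with
  | ofNat n => simpa using hnat n x
  | negSucc n =>
    rw [zpow_negSucc]
    rw [Equiv.Perm.inv_eq_iff_eq]
    rw [hnat]
    push_cast
    ring

private theorem T_mem {S : Set (Equiv.Perm ℝ)} (m : ℤ) : T ^ m ∈ Gr S :=
  zpow_mem (Subgroup.subset_closure (Set.mem_insert _ _)) m

/-- normalised pair -/
private noncomputable def nrm (u : ℝ × ℝ) : ℝ × ℝ :=
  (min u.1 u.2 - ⌊min u.1 u.2⌋, max u.1 u.2 - ⌊min u.1 u.2⌋)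

private def L (w : ℝ × ℝ) : ℝ := w.2 - w.1

private theorem L_nrm (u : ℝ × ℝ) : L (nrm u) = len u := by
  have h : max u.1 u.2 - min u.1 u.2 = |u.1 - u.2| := by
    rw [max_sub_min_eq_abs, abs_sub_comm]
  unfold L nrm len
  rw [← h]
  ring

private theorem nrm_nonneg (u : ℝ × ℝ) : 0 ≤ (nrm u).1 := by
  unfold nrm
  have := Int.floor_le (min u.1 u.2)
  simp only
  linarith

private theorem nrm_lt (u : ℝ × ℝ) : (nrm u).1 < 1 := by
  unfold nrm
  have := Int.lt_floor_add_one (min u.1 u.2)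
  simp only
  linarith

/-- equal normal forms and equal orientation: equivalent -/
private theorem eqv_of_nrm (u u' : ℝ × ℝ) (h : nrm u = nrm u') (ho : u.1 < u.2 ↔ u'.1 < u'.2) :
    Eqv u u' := by
  have h1 : min u.1 u.2 - (⌊min u.1 u.2⌋ : ℝ) = min u'.1 u'.2 - (⌊min u'.1 u'.2⌋ : ℝ) :=
    congrArg Prod.fst h
  have h2 : max u.1 u.2 - (⌊min u.1 u.2⌋ : ℝ) = max u'.1 u'.2 - (⌊min u'.1 u'.2⌋ : ℝ) :=
    congrArg Prod.snd h
  refine ⟨⌊min u'.1 u'.2⌋ - ⌊min u.1 u.2⌋, ?_⟩
  push_cast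
  by_cases hlt : u.1 < u.2
  · have hlt' := ho.1 hlt
    rw [min_eq_left hlt.le] at h1 h2 ⊢
    rw [min_eq_left hlt'.le] at h1 h2 ⊢
    rw [max_eq_right hlt.le, max_eq_right hlt'.le] at h2
    constructor <;> linarith
  · have hlt' : ¬ u'.1 < u'.2 := fun h' => hlt (ho.2 h')
    rw [not_lt] at hlt hlt'
    rw [min_eq_right hlt] at h1 h2 ⊢
    rw [min_eq_right hlt'] at h1 h2 ⊢
    rw [max_eq_left hlt, max_eq_left hlt'] at h2
    constructor <;> linarith

/-- equivalent normal forms are equal -/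
private theorem nrm_eqv (u u' : ℝ × ℝ) (h : Eqv (nrm u) (nrm u')) : nrm u = nrm u' := by
  obtain ⟨m, h1, h2⟩ := h
  have a1 := nrm_nonneg u
  have a2 := nrm_lt u
  have a3 := nrm_nonneg u'
  have a4 := nrm_lt u'
  have hm : m = 0 := by
    have b1 : (m : ℝ) < 1 := by linarith
    have b2 : (-1 : ℝ) < m := by linarith
    have c1 : m < 1 := by exact_mod_cast b1
    have c2 : -1 < m := by exact_mod_cast b2
    omega
  subst hm
  simp only [Int.cast_zero, add_zero] at h1 h2
  exact Prod.ext h1.symm h2.symm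

private theorem sum_fib (s : Finset (ℝ × ℝ)) (hs : ∀ u ∈ s, ∀ w ∈ s, Eqv u w → u = w) :
    ∑ u ∈ s, len u ≤ 2 * ∑ w ∈ s.image nrm, L w := by
  classical
  have h1 : ∑ u ∈ s, len u = ∑ u ∈ s, L (nrm u) := by
    apply Finset.sum_congr rfl
    intro u _
    rw [L_nrm]
  rw [h1, Finset.sum_comp L nrm, Finset.mul_sum]
  apply Finset.sum_le_sum
  intro w hw
  obtain ⟨u, -, rfl⟩ := Finset.mem_image.1 hw
  have hL : 0 ≤ L (nrm u) := by rw [L_nrm]; exact abs_nonneg _
  rw [nsmul_eq_mul]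
  apply mul_le_mul_of_nonneg_right _ hL
  have hc : (s.filter fun x => nrm x = nrm u).card ≤ (Finset.univ : Finset Bool).card := by
    apply Finset.card_le_card_of_injOn (fun x : ℝ × ℝ => decide (x.1 < x.2))
    · intro x _
      exact Finset.mem_coe.2 (Finset.mem_univ _)
    · intro x hx y hy hxy
      rw [Finset.mem_coe, Finset.mem_filter] at hx hy
      apply hs x hx.1 y hy.1
      apply eqv_of_nrm x y (hx.2.trans hy.2.symm)
      simpa using hxy
  have h2 : (Finset.univ : Finset Bool).card = 2 := rfl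
  rw [h2] at hc
  exact_mod_cast hc

private theorem image_Ioo (g : Equiv.Perm ℝ) (hg : StrictMono g ∨ StrictAnti g) (a b : ℝ)
    (hab : a < b) : ⇑g '' Ioo a b = Ioo (min (g a) (g b)) (max (g a) (g b)) := by
  ext y
  constructor
  · rintro ⟨x, ⟨hx1, hx2⟩, rfl⟩
    rcases hg with hg | hg
    · rw [min_eq_left (hg hab).le, max_eq_right (hg hab).le]
      exact ⟨hg hx1, hg hx2⟩
    · rw [min_eq_right (hg hab).le, max_eq_left (hg hab).le]
      exact ⟨hg hx2, hg hx1⟩
  · rintro ⟨h1, h2⟩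
    refine ⟨g.symm y, ?_, g.apply_symm_apply y⟩
    rcases hg with hg | hg
    · rw [min_eq_left (hg hab).le] at h1
      rw [max_eq_right (hg hab).le] at h2
      constructor
      · apply hg.lt_iff_lt.1
        rwa [g.apply_symm_apply]
      · apply hg.lt_iff_lt.1
        rwa [g.apply_symm_apply]
    · rw [min_eq_right (hg hab).le] at h1
      rw [max_eq_left (hg hab).le] at h2
      constructor
      · apply hg.lt_iff_gt.1
        rwa [g.apply_symm_apply]
      · apply hg.lt_iff_gt.1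
        rwa [g.apply_symm_apply]

private theorem tot_of_orb {S : Set (Equiv.Perm ℝ)} {v w : ℝ × ℝ} {Θ : ℝ} (h : Tot S v Θ)
    (hw : w ∈ Orb S v) : Tot S w Θ := by
  intro s h1 h2
  apply h s _ h2
  intro u hu
  obtain ⟨g, hg, rfl⟩ := h1 u hu
  obtain ⟨k, hk, rfl⟩ := hw
  exact ⟨g * k, mul_mem hg hk, rfl⟩

private theorem tot_swap {S : Set (Equiv.Perm ℝ)} {v : ℝ × ℝ} {Θ : ℝ} (h : Tot S v Θ) :
    Tot S v.swap Θ := by
  classical
  intro s h1 h2
  have h3 : ∑ u ∈ s, len u = ∑ u ∈ s.image Prod.swap, len u := by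
    rw [Finset.sum_image (fun x _ y _ hxy => Prod.swap_injective hxy)]
    apply Finset.sum_congr rfl
    intro u _
    unfold len
    rw [abs_sub_comm]
    rfl
  rw [h3]
  apply h
  · intro u hu
    obtain ⟨w, hw, rfl⟩ := Finset.mem_image.1 hu
    obtain ⟨g, hg, rfl⟩ := h1 w hw
    exact ⟨g, hg, rfl⟩
  · intro u hu w hw he
    obtain ⟨u', hu', rfl⟩ := Finset.mem_image.1 hu
    obtain ⟨w', hw', rfl⟩ := Finset.mem_image.1 hw
    obtain ⟨m, h4, h5⟩ := he
    rw [h2 u' hu' w' hw' ⟨m, h5, h4⟩]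

/-- MODULE REP. -/
theorem tREP : StBAS → StLAM → StSUM → StREP := by
  classical
  intro hB hL hU K S Λ hG hΛ a b hab
  obtain ⟨l1, -, -, -, -, -, l7, -⟩ := hL K S Λ hG hΛ
  have hT : ∀ x, x ∈ Λ ↔ x + 1 ∈ Λ := by
    intro x
    have := l1 (T ^ (1 : ℤ)) (T_mem 1) x
    rw [T_zpow'] at this
    simpa using this.symm
  have hZ : ∀ (m : ℤ) (x : ℝ), x + m ∈ Λ ↔ x ∈ Λ := by
    intro m x
    have := l1 (T ^ m) (T_mem m) x
    rwa [T_zpow'] at this
  -- normal forms of orbit elements are gaps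
  have hgap : ∀ u ∈ Orb S (a, b), Gap Λ (nrm u).1 (nrm u).2 := by
    rintro u ⟨g, hg, rfl⟩
    have h1 := l7 a b hab g hg
    have h2 := l7 _ _ h1 (T ^ (-⌊min (g a) (g b)⌋)) (T_mem _)
    rw [T_zpow', T_zpow'] at h2
    have h3 : min (g a) (g b) + ((-⌊min (g a) (g b)⌋ : ℤ) : ℝ)
        ≤ max (g a) (g b) + ((-⌊min (g a) (g b)⌋ : ℤ) : ℝ) := by
      have := min_le_max (a := g a) (b := g b)
      linarith
    rw [min_eq_left h3, max_eq_right h3] at h2
    have e1 : (nrm (act g (a, b))).1 = min (g a) (g b) + ((-⌊min (g a) (g b)⌋ : ℤ) : ℝ) := by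
      unfold nrm act
      push_cast
      ring
    have e2 : (nrm (act g (a, b))).2 = max (g a) (g b) + ((-⌊min (g a) (g b)⌋ : ℤ) : ℝ) := by
      unfold nrm act
      push_cast
      ring
    rw [e1, e2]
    exact h2
  have himg : ∀ s : Finset (ℝ × ℝ), (∀ u ∈ s, u ∈ Orb S (a, b)) →
      ∑ w ∈ s.image nrm, L w ≤ 1 := by
    intro s hs
    apply hU Λ hT
    · intro w hw
      obtain ⟨u, hu, rfl⟩ := Finset.mem_image.1 hw
      exact hgap u (hs u hu)
    · intro w hw w' hw' he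
      obtain ⟨u, hu, rfl⟩ := Finset.mem_image.1 hw
      obtain ⟨u', hu', rfl⟩ := Finset.mem_image.1 hw'
      exact nrm_eqv u u' he
  set A : Set ℝ := {t | ∃ s : Finset (ℝ × ℝ), (∀ u ∈ s, u ∈ Orb S (a, b)) ∧
    (∀ u ∈ s, ∀ w ∈ s, Eqv u w → u = w) ∧ t = ∑ u ∈ s, len u} with hA
  have hbdd : BddAbove A := by
    refine ⟨2, ?_⟩
    rintro t ⟨s, h1, h2, rfl⟩
    have := sum_fib s h2
    have := himg s h1
    linarith
  have hself : (a, b) ∈ Orb S (a, b) := ⟨1, one_mem _, rfl⟩
  have hlen : len (a, b) = b - a := by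
    unfold len
    rw [abs_sub_comm]
    exact abs_of_pos (sub_pos.2 hab.1)
  have hmemA : b - a ∈ A := by
    refine ⟨{(a, b)}, ?_, ?_, ?_⟩
    · intro u hu
      rw [Finset.mem_singleton.1 hu]
      exact hself
    · intro u hu w hw _
      rw [Finset.mem_singleton.1 hu, Finset.mem_singleton.1 hw]
    · rw [Finset.sum_singleton, hlen]
  set Θ : ℝ := sSup A with hΘ
  have hpos : 0 < Θ := lt_of_lt_of_le (sub_pos.2 hab.1) (le_csSup hbdd hmemA)
  have htot : Tot S (a, b) Θ := fun s h1 h2 => le_csSup hbdd ⟨s, h1, h2, rfl⟩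
  obtain ⟨t0, ⟨s, h1, h2, rfl⟩, h3⟩ := exists_lt_of_lt_csSup ⟨_, hmemA⟩ (half_lt_self hpos)
  refine ⟨Θ, s.image nrm, hpos, ?_, ?_⟩
  · intro w hw
    obtain ⟨u, hu, rfl⟩ := Finset.mem_image.1 hw
    have hgw := hgap u (h1 u hu)
    have hTot : Tot S (nrm u) Θ := by
      obtain ⟨g, hg, rfl⟩ := h1 u hu
      have hg' : T ^ (-⌊min (g a) (g b)⌋) * g ∈ Gr S := mul_mem (T_mem _) hg
      have hval : ∀ x, (T ^ (-⌊min (g a) (g b)⌋) * g) x = g x - ⌊min (g a) (g b)⌋ := by
        intro x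
        rw [Equiv.Perm.mul_apply, T_zpow']
        push_cast
        ring
      rcases le_total (g a) (g b) with hle | hle
      · have e : nrm (act g (a, b)) = act (T ^ (-⌊min (g a) (g b)⌋) * g) (a, b) := by
          unfold nrm act
          simp only [hval]
          rw [min_eq_left hle, max_eq_right hle]
        rw [e]
        exact tot_of_orb htot ⟨_, hg', rfl⟩
      · have e : nrm (act g (a, b)) = (act (T ^ (-⌊min (g a) (g b)⌋) * g) (a, b)).swap := by
          unfold nrm act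
          simp only [hval, Prod.swap]
          rw [min_eq_right hle, max_eq_left hle]
        rw [e]
        exact tot_swap (tot_of_orb htot ⟨_, hg', rfl⟩)
    refine ⟨hgw, nrm_nonneg u, nrm_lt u, ?_, hTot, ?_⟩
    · obtain ⟨g, hg, rfl⟩ := h1 u hu
      have hg' : T ^ (-⌊min (g a) (g b)⌋) * g ∈ Gr S := mul_mem (T_mem _) hg
      refine ⟨_, hg', ?_⟩
      have hval : ∀ x, (T ^ (-⌊min (g a) (g b)⌋) * g) x = g x - ⌊min (g a) (g b)⌋ := by
        intro x
        rw [Equiv.Perm.mul_apply, T_zpow']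
        push_cast
        ring
      rw [image_Ioo _ (hB K S hG _ hg').2.2.1 a b hab.1, hval, hval]
      unfold nrm act
      simp only
      rcases le_total (g a) (g b) with hle | hle
      · have h' : g a - (⌊min (g a) (g b)⌋ : ℝ) ≤ g b - ⌊min (g a) (g b)⌋ := by linarith
        rw [min_eq_left h', max_eq_right h', min_eq_left hle, max_eq_right hle]
      · have h' : g b - (⌊min (g a) (g b)⌋ : ℝ) ≤ g a - ⌊min (g a) (g b)⌋ := by linarith
        rw [min_eq_right h', max_eq_left h', min_eq_right hle, max_eq_left hle]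
    · have h4 := hTot {nrm u} (by
        intro x hx
        rw [Finset.mem_singleton.1 hx]
        exact ⟨1, one_mem _, rfl⟩) (by
        intro x hx y hy _
        rw [Finset.mem_singleton.1 hx, Finset.mem_singleton.1 hy])
      rw [Finset.sum_singleton] at h4
      unfold len at h4
      rw [abs_sub_comm] at h4
      exact (le_abs_self _).trans h4
  · have h5 := sum_fib s h2
    have h6 : ∑ w ∈ s.image nrm, L w = ∑ w ∈ s.image nrm, (w.2 - w.1) := rfl
    rw [← h6]
    linarith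

end Pool.Agent.Helper82.HG
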