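import Mathlib

/-!
# MP_10ef18_an (Hector: finiteness of gap orbits), definitions

Everything is on the real line: lifts of circle diffeomorphisms.
-/

set_option autoImplicit false

namespace Pool.Agent.Helper82.HG

open Set

/-- translation by one -/
noncomputable def T : Equiv.Perm ℝ := Equiv.addRight (1 : ℝ)

/-- a differentiable bijection of the line with non-vanishing derivative, `log |s'|` is
`K`-Lipschitz, and `s (x + 1) = s x ± 1`. -/
structure Nice (K : ℝ) (s : Equiv.Perm ℝ) : Prop where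
  diff : Differentiable ℝ s
  ne : ∀ x, deriv s x ≠ 0
  lip : ∀ x y, |Real.log (|deriv s x|) - Real.log (|deriv s y|)| ≤ K * |x - y|
  deg : ∃ d : ℝ, (d = 1 ∨ d = -1) ∧ ∀ x, s (x + 1) = s x + d

/-- the group generated by `S` and the unit translation -/
def Gr (S : Set (Equiv.Perm ℝ)) : Subgroup (Equiv.Perm ℝ) := Subgroup.closure (insert T S)

/-- the standing hypotheses on the (symmetric) generating set -/
structure Gens (K : ℝ) (S : Set (Equiv.Perm ℝ)) : Prop where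
  nice : ∀ s ∈ S, Nice K s
  inv : ∀ s ∈ S, s⁻¹ ∈ S

/-- the standing hypotheses on the set `Λ` (lift of an exceptional minimal set) -/
structure Lam (S : Set (Equiv.Perm ℝ)) (Λ : Set ℝ) : Prop where
  closed : IsClosed Λ
  invt : ∀ g ∈ Gr S, ⇑g '' Λ ⊆ Λ
  minl : ∀ K : Set ℝ, K ⊆ Λ → IsClosed K → K.Nonempty → (∀ g ∈ Gr S, ⇑g '' K ⊆ K) → K = Λ
  neuniv : Λ ≠ Set.univ
  inf : (Λ ∩ Set.Ico (0 : ℝ) 1).Infinite

/-- `(a, b)` (with `a < b`) is a gap of `Λ` -/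
def Gap (Λ : Set ℝ) (a b : ℝ) : Prop := a < b ∧ a ∈ Λ ∧ b ∈ Λ ∧ Set.Ioo a b ∩ Λ = ∅

/-- length of a pair -/
def len (u : ℝ × ℝ) : ℝ := |u.1 - u.2|

/-- cost of a list of pairs -/
def cost (l : List (ℝ × ℝ)) : ℝ := (l.map len).sum

/-- image of a pair -/
def act (g : Equiv.Perm ℝ) (v : ℝ × ℝ) : ℝ × ℝ := (g v.1, g v.2)

/-- paths from `v`: words in the letters of `S`; integer translations are free. The list contains
the pairs visited before the end. -/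
inductive Pth (S : Set (Equiv.Perm ℝ)) (v : ℝ × ℝ) : Equiv.Perm ℝ → List (ℝ × ℝ) → Prop
  | nil : Pth S v 1 []
  | tr {g : Equiv.Perm ℝ} {l : List (ℝ × ℝ)} (m : ℤ) : Pth S v g l → Pth S v (T ^ m * g) l
  | step {g : Equiv.Perm ℝ} {l : List (ℝ × ℝ)} (s : Equiv.Perm ℝ) :
      s ∈ S → Pth S v g l → Pth S v (s * g) (act g v :: l)

/-- equality modulo integer translation -/
def Eqv (u w : ℝ × ℝ) : Prop := ∃ m : ℤ, w.1 = u.1 + m ∧ w.2 = u.2 + m

/-- the orbit of a pair -/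
def Orb (S : Set (Equiv.Perm ℝ)) (v : ℝ × ℝ) : Set (ℝ × ℝ) := {u | ∃ g ∈ Gr S, u = act g v}

/-- `Θ` bounds the total length of the orbit of `v` modulo integer translation -/
def Tot (S : Set (Equiv.Perm ℝ)) (v : ℝ × ℝ) (Θ : ℝ) : Prop :=
  ∀ s : Finset (ℝ × ℝ), (∀ u ∈ s, u ∈ Orb S v) → (∀ u ∈ s, ∀ w ∈ s, Eqv u w → u = w) →
    ∑ u ∈ s, len u ≤ Θ

/-- the total length of the orbit of `v` modulo integer translation -/
noncomputable def Theta (S : Set (Equiv.Perm ℝ)) (v : ℝ × ℝ) : ℝ :=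
  sSup {t | ∃ s : Finset (ℝ × ℝ), (∀ u ∈ s, u ∈ Orb S v) ∧
    (∀ u ∈ s, ∀ w ∈ s, Eqv u w → u = w) ∧ t = ∑ u ∈ s, len u}

/-- end of a path of cost at most `Θ` -/
def Almost (S : Set (Equiv.Perm ℝ)) (v : ℝ × ℝ) (Θ : ℝ) (h : Equiv.Perm ℝ) : Prop :=
  ∃ l, Pth S v h l ∧ cost l ≤ Θ

/-- end of a path of cost at most `Θ`, the last pair included -/
def Good (S : Set (Equiv.Perm ℝ)) (v : ℝ × ℝ) (Θ : ℝ) (h : Equiv.Perm ℝ) : Prop :=
  ∃ l, Pth S v h l ∧ cost l + len (act h v) ≤ Θ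

/-- a loop at `v`: two paths of cost at most `Θ` with the same end -/
def Loop (S : Set (Equiv.Perm ℝ)) (v : ℝ × ℝ) (Θ : ℝ) (f : Equiv.Perm ℝ) : Prop :=
  ∃ h k : Equiv.Perm ℝ, Almost S v Θ h ∧ Almost S v Θ k ∧ act h v = act k v ∧ f = h⁻¹ * k

/-- the hypothesis on one of the two maps of the crossing lemma, on `[p, q]` -/
structure Near (f : Equiv.Perm ℝ) (p q : ℝ) : Prop where
  mono : StrictMono f
  cont : Continuous f
  diff : ∀ z ∈ Set.Icc p q, DifferentiableAt ℝ f z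
  pos : ∀ z ∈ Set.Icc p q, 0 < deriv f z
  small : ∀ z ∈ Set.Icc p q, |Real.log (deriv f z)| ≤ 1 / 8
  lip : ∃ M : ℝ, 0 ≤ M ∧ M * (q - p) ≤ 1 / 8 ∧ ∀ z ∈ Set.Icc p q, ∀ z' ∈ Set.Icc p q,
    |Real.log (deriv f z) - Real.log (deriv f z')| ≤ M * |z - z'|

end Pool.Agent.Helper82.HG
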