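import Pool.Agent.Helper80.HG.St

/-!
# Project HG (MP_1bacb5_al), module CO: elements commuting with a positive germ
-/

set_option autoImplicit false

namespace Pool.Agent.Helper82.HG

open Pool.Agent.Helper80.HG Filter Topology Asymptotics
open scoped commutatorElement

theorem co_pow {H : Set (ℝ → ℝ)} {Γ : Type} [Group Γ] {θ : Γ → ℝ → ℝ} (hR : RB H θ) (z : Γ) :
    ∀ N : ℕ, ∀ᶠ x in atTop, θ (z ^ N) x = (θ z)^[N] x := by
  intro N
  induction N with
  | zero =>
    filter_upwards [hR.one] with x hx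
    rw [pow_zero, hx]
    rfl
  | succ N ih =>
    filter_upwards [ih, hR.mul z (z ^ N)] with x h1 h2
    rw [pow_succ', h2, h1, Function.iterate_succ_apply']

theorem hCO : StCO := by
  intro H _ Γ _ θ hR u z hz hcomm
  rcases hR.tri u with h | h | h
  · refine ⟨1, ?_⟩
    filter_upwards [h, hz] with x h1 h2
    rw [pow_one, h1]
    exact h2.le
  · obtain ⟨M1, hM1⟩ := hR.mono z
    obtain ⟨M2, hM2⟩ := hR.mono u
    obtain ⟨M3, hM3⟩ := hR.cont z
    have hc : ∀ᶠ x in atTop, θ u (θ z x) = θ z (θ u x) := by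
      filter_upwards [hR.mul u z, hR.mul z u] with x h1 h2
      rw [← h1, ← h2, hcomm]
    have hev : ∀ᶠ x in atTop, x < θ z x ∧ x < θ u x ∧ θ u (θ z x) = θ z (θ u x) := by
      filter_upwards [hz, h, hc] with x h1 h2 h3
      exact ⟨h1, h2, h3⟩
    obtain ⟨a, ha⟩ := (eventually_atTop.1 hev)
    set x₀ : ℝ := max (max a M1) (max M2 M3) with hx₀
    have ha0 : a ≤ x₀ := (le_max_left _ _).trans (le_max_left _ _)
    have h10 : M1 ≤ x₀ := (le_max_right _ _).trans (le_max_left _ _)
    have h20 : M2 ≤ x₀ := (le_max_left _ _).trans (le_max_right _ _)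
    have h30 : M3 ≤ x₀ := (le_max_right _ _).trans (le_max_right _ _)
    have hz1 : ∀ x, x₀ ≤ x → x < θ z x := fun x hx => (ha x (ha0.trans hx)).1
    have hu1 : ∀ x, x₀ ≤ x → x < θ u x := fun x hx => (ha x (ha0.trans hx)).2.1
    have hc1 : ∀ x, x₀ ≤ x → θ u (θ z x) = θ z (θ u x) := fun x hx => (ha x (ha0.trans hx)).2.2
    have hzm : ∀ x y, x₀ ≤ x → x ≤ y → θ z x ≤ θ z y := fun x y hx hxy =>
      hM1.monotoneOn (h10.trans hx) (h10.trans (hx.trans hxy)) hxy
    have hum : ∀ x y, x₀ ≤ x → x ≤ y → θ u x ≤ θ u y := fun x y hx hxy =>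
      hM2.monotoneOn (h20.trans hx) (h20.trans (hx.trans hxy)) hxy
    have hge : ∀ (n : ℕ) (x : ℝ), x₀ ≤ x → x ≤ (θ z)^[n] x := by
      intro n
      induction n with
      | zero => intro x _; exact le_rfl
      | succ n ih =>
        intro x hx
        rw [Function.iterate_succ_apply']
        exact (ih x hx).trans (hz1 _ (hx.trans (ih x hx))).le
    have hit : ∀ (n : ℕ) (x y : ℝ), x₀ ≤ x → x ≤ y → (θ z)^[n] x ≤ (θ z)^[n] y := by
      intro n
      induction n with
      | zero => intro x y _ hxy; exact hxy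
      | succ n ih =>
        intro x y hx hxy
        rw [Function.iterate_succ_apply', Function.iterate_succ_apply']
        exact hzm _ _ (hx.trans (hge n x hx)) (ih x y hx hxy)
    set s : ℕ → ℝ := fun n => (θ z)^[n] x₀ with hs
    have hs0 : ∀ n, x₀ ≤ s n := fun n => hge n x₀ le_rfl
    have hss : ∀ n, s (n + 1) = θ z (s n) := fun n => Function.iterate_succ_apply' _ _ _
    have hsm : Monotone s := monotone_nat_of_le_succ fun n => by
      rw [hss]
      exact (hz1 _ (hs0 n)).le
    have hst : Tendsto s atTop atTop := by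
      rcases tendsto_atTop_of_monotone hsm with h1 | ⟨l, hl⟩
      · exact h1
      · exfalso
        have hl0 : x₀ ≤ l := ge_of_tendsto hl (Eventually.of_forall hs0)
        have hcw : ContinuousWithinAt (θ z) (Set.Ici M3) l := hM3 l (h30.trans hl0)
        have h2 : Tendsto s atTop (𝓝[Set.Ici M3] l) :=
          tendsto_nhdsWithin_iff.2 ⟨hl, Eventually.of_forall fun n => h30.trans (hs0 n)⟩
        have h3 : Tendsto (fun n => θ z (s n)) atTop (𝓝 (θ z l)) := hcw.tendsto.comp h2
        have h4 : Tendsto (fun n => s (n + 1)) atTop (𝓝 l) := hl.comp (tendsto_add_atTop_nat 1)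
        have h5 : (fun n => s (n + 1)) = fun n => θ z (s n) := funext hss
        rw [h5] at h4
        have h6 := tendsto_nhds_unique h3 h4
        have h7 := hz1 l hl0
        rw [h6] at h7
        exact lt_irrefl _ h7
    obtain ⟨N, hN⟩ := (hst.eventually_ge_atTop (θ u x₀)).exists
    have hus : ∀ n, θ u (s n) = (θ z)^[n] (θ u x₀) := by
      intro n
      induction n with
      | zero => rfl
      | succ n ih => rw [hss, hc1 _ (hs0 n), ih, Function.iterate_succ_apply']
    have hus2 : ∀ n, θ u (s n) ≤ s (n + N) := by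
      intro n
      rw [hus]
      have h1 := hit n (θ u x₀) (s N) (hu1 x₀ le_rfl).le hN
      rw [hs] at h1 ⊢
      simp only at h1 ⊢
      rw [Function.iterate_add_apply]
      exact h1
    have hfin : ∀ x, x₀ ≤ x → θ u x ≤ (θ z)^[N + 1] x := by
      intro x hx
      have hex : ∃ n, x < s n := (hst.eventually_gt_atTop x).exists
      classical
      obtain ⟨k, hk, hmin⟩ : ∃ k, x < s k ∧ ∀ m < k, ¬ x < s m :=
        ⟨Nat.find hex, Nat.find_spec hex, fun m hm => Nat.find_min hex hm⟩
      have hk0 : k ≠ 0 := by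
        rintro rfl
        exact absurd hk (not_lt.2 hx)
      obtain ⟨n, rfl⟩ := Nat.exists_eq_succ_of_ne_zero hk0
      have hn : s n ≤ x := not_lt.1 (hmin n (Nat.lt_succ_self n))
      calc θ u x ≤ θ u (s (n + 1)) := hum _ _ hx hk.le
        _ ≤ s (n + 1 + N) := hus2 (n + 1)
        _ = (θ z)^[N + 1] (s n) := by
            rw [hs]
            simp only
            rw [← Function.iterate_add_apply, show n + 1 + N = N + 1 + n by ring]
        _ ≤ (θ z)^[N + 1] x := hit _ _ _ (hs0 n) hn
    refine ⟨N + 1, ?_⟩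
    filter_upwards [co_pow hR z (N + 1), eventually_ge_atTop x₀] with x h1 h2
    rw [h1]
    exact hfin x h2
  · refine ⟨1, ?_⟩
    have h3 : ∀ᶠ w in atTop, θ u w ≤ w := by
      apply hR.trans u⁻¹
      filter_upwards [hR.inv u, h] with y h1 h2
      rw [h1]
      exact h2.le
    filter_upwards [h3, hz] with x h1 h2
    rw [pow_one]
    exact h1.trans h2.le

end Pool.Agent.Helper82.HG
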