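import Pool.Agent.Helper82.HG.St2

/-!
# MP_10ef18_an, module INT (helper4): packing
-/

set_option autoImplicit false

namespace Pool.Agent.Helper82.HG

open Set MeasureTheory

private theorem per_int {Λ : Set ℝ} (h : ∀ x, x ∈ Λ ↔ x + 1 ∈ Λ) (m : ℤ) :
    ∀ x, x ∈ Λ ↔ x + m ∈ Λ := by
  induction m using Int.induction_on with
  | zero => intro x; simp
  | succ i ih =>
    intro x
    rw [ih x, h (x + _)]
    push_cast
    rw [add_assoc]
  | pred i ih =>
    intro x
    rw [ih x, h (x + ((-(i:ℤ) - 1 : ℤ) : ℝ))]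
    push_cast
    rw [show x + (-(i:ℝ) - 1) + 1 = x + -(i:ℝ) by ring]

private theorem gap_tr {Λ : Set ℝ} (h : ∀ x, x ∈ Λ ↔ x + 1 ∈ Λ) {a b : ℝ} (hg : Gap Λ a b)
    (m : ℤ) : Gap Λ (a + m) (b + m) := by
  obtain ⟨h1, h2, h3, h4⟩ := hg
  refine ⟨by linarith, (per_int h m a).mp h2, (per_int h m b).mp h3, ?_⟩
  rw [Set.eq_empty_iff_forall_notMem] at h4 ⊢
  rintro x ⟨⟨hx1, hx2⟩, hx3⟩
  apply h4 (x - m)
  refine ⟨⟨by linarith, by linarith⟩, ?_⟩
  rw [per_int h m]
  simpa using hx3

private theorem isol {Λ : Set ℝ} (hp : ∀ x ∈ Λ, ∀ ε > 0, ∃ y ∈ Λ, y ≠ x ∧ |y - x| < ε)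
    {a b c : ℝ} (h1 : Gap Λ a b) (h2 : Gap Λ b c) : False := by
  obtain ⟨g1, _, g3, g4⟩ := h1
  obtain ⟨g1', _, _, g4'⟩ := h2
  obtain ⟨y, hy, hne, hlt⟩ := hp b g3 (min (b - a) (c - b)) (lt_min (by linarith) (by linarith))
  rw [lt_min_iff, abs_lt, abs_lt] at hlt
  rw [Set.eq_empty_iff_forall_notMem] at g4 g4'
  rcases lt_or_gt_of_ne hne with h | h
  · exact g4 y ⟨⟨by linarith [hlt.1.1], h⟩, hy⟩
  · exact g4' y ⟨⟨h, by linarith [hlt.2.2]⟩, hy⟩

private theorem gap_sep {Λ : Set ℝ} (hp : ∀ x ∈ Λ, ∀ ε > 0, ∃ y ∈ Λ, y ≠ x ∧ |y - x| < ε)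
    {a b a' b' : ℝ} (h1 : Gap Λ a b) (h2 : Gap Λ a' b') (hne : ¬ (a = a' ∧ b = b')) :
    b < a' ∨ b' < a := by
  by_contra hc
  push Not at hc
  obtain ⟨hc1, hc2⟩ := hc
  have e1 := h1.2.2.2
  have e2 := h2.2.2.2
  rw [Set.eq_empty_iff_forall_notMem] at e1 e2
  by_cases q1 : a' = b
  · subst q1; exact isol hp h1 h2
  by_cases q2 : a = b'
  · subst q2; exact isol hp h2 h1
  have r1 : a' ≤ a := by
    by_contra h
    push Not at h
    exact e1 a' ⟨⟨h, lt_of_le_of_ne hc1 q1⟩, h2.2.1⟩
  have r2 : a ≤ a' := by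
    by_contra h
    push Not at h
    exact e2 a ⟨⟨h, lt_of_le_of_ne hc2 q2⟩, h1.2.1⟩
  have r3 : a = a' := le_antisymm r2 r1
  subst r3
  apply hne
  refine ⟨rfl, le_antisymm ?_ ?_⟩
  · by_contra h
    push Not at h
    exact e1 b' ⟨⟨h2.1, h⟩, h2.2.2.1⟩
  · by_contra h
    push Not at h
    exact e2 b ⟨⟨h1.1, h⟩, h1.2.2.1⟩

private def E (c r : ℝ) : Set ℝ := Ico (0:ℝ) 1 ∩ ⋃ k : ℤ, Ioo (c + k) (c + k + r)

private theorem meas_E (c r : ℝ) : MeasurableSet (E c r) :=
  measurableSet_Ico.inter (MeasurableSet.iUnion fun _ => measurableSet_Ioo)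

private theorem vol_E (c r : ℝ) :
    r ≤ 1 → ENNReal.ofReal r ≤ volume (E c r) := by
  intro hr1
  unfold E
  set d := Int.fract c with hd
  have hd0 : 0 ≤ d := Int.fract_nonneg c
  have hd1 : d < 1 := Int.fract_lt_one c
  have hc : (⌊c⌋ : ℝ) + d = c := Int.floor_add_fract c
  by_cases h : d + r ≤ 1
  · calc ENNReal.ofReal r = volume (Ioo d (d + r)) := by
          rw [Real.volume_Ioo]; congr 1; ring
      _ ≤ _ := by
        apply measure_mono
        intro z hz
        refine ⟨⟨by linarith [hz.1], by linarith [hz.2]⟩, ?_⟩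
        rw [mem_iUnion]
        refine ⟨-⌊c⌋, ?_, ?_⟩
        · push_cast; linarith [hz.1]
        · push_cast; linarith [hz.2]
  · push Not at h
    have hdis : Disjoint (Ioo d 1) (Ioo 0 (d + r - 1)) := by
      rw [Set.disjoint_left]
      rintro z ⟨h1, _⟩ ⟨_, h2⟩
      linarith
    calc ENNReal.ofReal r = ENNReal.ofReal (1 - d) + ENNReal.ofReal (d + r - 1) := by
          rw [← ENNReal.ofReal_add (by linarith) (by linarith)]; congr 1; ring
      _ = volume (Ioo d 1) + volume (Ioo 0 (d + r - 1)) := by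
          rw [Real.volume_Ioo, Real.volume_Ioo, sub_zero]
      _ = volume (Ioo d 1 ∪ Ioo 0 (d + r - 1)) := (measure_union hdis measurableSet_Ioo).symm
      _ ≤ _ := by
        apply measure_mono
        rintro z (hz | hz)
        · refine ⟨⟨by linarith [hz.1], by linarith [hz.2]⟩, ?_⟩
          rw [mem_iUnion]
          refine ⟨-⌊c⌋, ?_, ?_⟩
          · push_cast; linarith [hz.1]
          · push_cast; linarith [hz.2]
        · refine ⟨⟨by linarith [hz.1], by linarith [hz.2]⟩, ?_⟩
          rw [mem_iUnion]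
          refine ⟨-⌊c⌋ - 1, ?_, ?_⟩
          · push_cast; linarith [hz.1]
          · push_cast; linarith [hz.2]

theorem tINT : StCRD → StINT := by
  intro hCRD Λ hcl hper hΛne hvol hperf hint s R hgap hR heqv hsep
  classical
  have hlog2 : (1 / 2 : ℝ) < Real.log 2 := by linarith [Real.log_two_gt_d9]
  -- pointwise bound
  have hpt : ∀ z, z ∉ Λ → ((s.filter (fun u => z ∈ E u.2 (R u / 4))).card : ℝ)
      ≤ |Real.log (Metric.infDist z Λ)| / (2 * Real.log 2) := by
    intro z hz
    set A := s.filter (fun u => z ∈ E u.2 (R u / 4)) with hA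
    rcases A.eq_empty_or_nonempty with he | hne
    · rw [he]
      simp only [Finset.card_empty, Nat.cast_zero]
      positivity
    have hmem : ∀ u ∈ A, u ∈ s ∧ ∃ k : ℤ, u.2 + k < z ∧ z < u.2 + k + R u / 4 := by
      intro u hu
      rw [hA, Finset.mem_filter] at hu
      obtain ⟨h1, _, h2⟩ := hu
      rw [mem_iUnion] at h2
      obtain ⟨k, hk⟩ := h2
      exact ⟨h1, k, hk.1, hk.2⟩
    have hδ0 : 0 < Metric.infDist z Λ := (hcl.notMem_iff_infDist_pos hΛne).mp hz
    set δ := Metric.infDist z Λ with hδ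
    have hδR : ∀ u ∈ A, 4 * δ ≤ R u := by
      intro u hu
      obtain ⟨h1, k, hk1, hk2⟩ := hmem u hu
      have h3 : u.2 + k ∈ Λ := (per_int hper k u.2).mp (hgap u h1).2.2.1
      have h4 : δ ≤ dist z (u.2 + k) := Metric.infDist_le_dist_of_mem h3
      rw [Real.dist_eq, abs_of_pos (by linarith)] at h4
      linarith
    have hlac : ∀ u ∈ A, ∀ w ∈ A, u ≠ w → 4 * R w < R u ∨ 4 * R u < R w := by
      intro u hu w hw huw
      obtain ⟨h1, k, hk1, hk2⟩ := hmem u hu
      obtain ⟨h1', n, hn1, hn2⟩ := hmem w hw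
      have g1 := gap_tr hper (hgap u h1) k
      have g2 := gap_tr hper (hgap w h1') n
      have hR1 := hR u h1
      have hR2 := hR w h1'
      have hx : ¬ (u.1 + k = w.1 + n ∧ u.2 + k = w.2 + n) := by
        rintro ⟨e1, e2⟩
        apply huw
        apply heqv u h1 w h1'
        refine ⟨k - n, ?_, ?_⟩
        · push_cast; linarith
        · push_cast; linarith
      rcases gap_sep hperf g1 g2 hx with h | h
      · left
        have := hsep u h1 w h1' (n - k) (by push_cast; linarith)
        push_cast at this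
        have h5 : w.1 < w.2 := (hgap w h1').1
        have h6 : min (R u) (R w) < R u / 4 := by linarith
        rcases min_lt_iff.mp h6 with h7 | h7
        · linarith
        · linarith
      · right
        have := hsep w h1' u h1 (k - n) (by push_cast; linarith)
        push_cast at this
        have h5 : u.1 < u.2 := (hgap u h1).1
        have h6 : min (R w) (R u) < R w / 4 := by linarith
        rcases min_lt_iff.mp h6 with h7 | h7
        · linarith
        · linarith
    have hinj : Set.InjOn (fun u => √(R u)) (A : Set (ℝ × ℝ)) := by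
      intro u hu w hw h
      by_contra hne
      have hu' : u ∈ A := hu
      have hw' : w ∈ A := hw
      have h3 := hlac u hu' w hw' hne
      have hR1 := hR u (hmem u hu').1
      have hR2 := hR w (hmem w hw').1
      have h4 : R u = R w := by
        have h5 : √(R u) = √(R w) := h
        have := congrArg (fun t => t ^ 2) h5
        simp only [Real.sq_sqrt hR1.1.le, Real.sq_sqrt hR2.1.le] at this
        exact this
      rcases h3 with h3 | h3 <;> linarith
    have hcard := hCRD (A.image (fun u => √(R u))) (√(4 * δ)) (Real.sqrt_pos.mpr (by positivity))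
      ?_ ?_ ?_
    · rw [Finset.card_image_of_injOn hinj] at hcard
      refine hcard.trans ?_
      have e1 : Real.log (1 / √(4 * δ)) = - Real.log 2 - Real.log δ / 2 := by
        rw [one_div, Real.log_inv, Real.log_sqrt (by positivity),
          Real.log_mul (by norm_num) hδ0.ne', show (4 : ℝ) = 2 ^ 2 by norm_num, Real.log_pow]
        push_cast
        ring
      rw [e1]
      have e2 : 1 + (-Real.log 2 - Real.log δ / 2) / Real.log 2
          = (- Real.log δ) / (2 * Real.log 2) := by
        field_simp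
        ring
      rw [e2]
      apply div_le_div_of_nonneg_right (neg_le_abs _) (by positivity)
    · obtain ⟨u, hu⟩ := hne
      have h1 := hδR u hu
      have h2 := (hR u (hmem u hu).1).2
      rw [Real.sqrt_le_one]
      linarith
    · intro r hr
      rw [Finset.mem_image] at hr
      obtain ⟨u, hu, rfl⟩ := hr
      refine ⟨Real.sqrt_le_sqrt (hδR u hu), ?_⟩
      rw [Real.sqrt_le_one]
      exact (hR u (hmem u hu).1).2
    · intro r hr r' hr' hrr
      rw [Finset.mem_image] at hr hr'
      obtain ⟨u, hu, rfl⟩ := hr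
      obtain ⟨w, hw, rfl⟩ := hr'
      have hR1 := hR u (hmem u hu).1
      have hR2 := hR w (hmem w hw).1
      have hlt : R u < R w := by
        rwa [Real.sqrt_lt_sqrt_iff hR1.1.le] at hrr
      have hne : u ≠ w := by
        rintro rfl
        exact lt_irrefl _ hlt
      have h3 : 4 * R u < R w := by
        rcases hlac u hu w hw hne with h | h
        · linarith
        · exact h
      calc 2 * √(R u) = √(4 * R u) := by
            rw [Real.sqrt_mul (by norm_num), show (4 : ℝ) = 2 ^ 2 by norm_num,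
              Real.sqrt_sq (by norm_num)]
        _ < √(R w) := Real.sqrt_lt_sqrt (by linarith) h3
  -- integration
  have hsub : ∀ u : ℝ × ℝ, E u.2 (R u / 4) ⊆ Icc (0:ℝ) 1 := fun u z hz =>
    ⟨hz.1.1, hz.1.2.le⟩
  have h1 : ∑ u ∈ s, R u / 4 ≤ ∑ u ∈ s,
      ∫ z in Icc (0:ℝ) 1, (E u.2 (R u / 4)).indicator (1 : ℝ → ℝ) z := by
    apply Finset.sum_le_sum
    intro u hu
    rw [integral_indicator_one (meas_E _ _), Measure.real, Measure.restrict_apply (meas_E _ _),
      inter_eq_self_of_subset_left (hsub u)]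
    have hfin : volume (E u.2 (R u / 4)) ≠ ⊤ := by
      apply ne_top_of_le_ne_top _ (measure_mono (hsub u))
      rw [Real.volume_Icc]
      exact ENNReal.ofReal_ne_top
    have := vol_E u.2 (R u / 4) (by linarith [(hR u hu).2])
    rw [ENNReal.ofReal_le_iff_le_toReal hfin] at this
    exact this
  rw [← integral_finsetSum] at h1
  swap
  · intro u hu
    exact (integrable_const (1:ℝ)).indicator (meas_E _ _)
  have h2 : ∫ z in Icc (0:ℝ) 1, ∑ u ∈ s, (E u.2 (R u / 4)).indicator (1 : ℝ → ℝ) z
      ≤ ∫ z in Icc (0:ℝ) 1, |Real.log (Metric.infDist z Λ)| / (2 * Real.log 2) := by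
    apply integral_mono_ae
    · apply integrable_finsetSum
      intro u hu
      exact (integrable_const (1:ℝ)).indicator (meas_E _ _)
    · exact hint.abs.div_const _
    · apply ae_restrict_of_ae
      have : ∀ᵐ z, z ∉ Λ := measure_eq_zero_iff_ae_notMem.mp hvol
      filter_upwards [this] with z hz
      refine le_trans (le_of_eq ?_) (hpt z hz)
      rw [Finset.card_filter]
      push_cast
      apply Finset.sum_congr rfl
      intro u hu
      rw [Set.indicator_apply]
      rfl
  rw [integral_div] at h2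
  set I := ∫ z in Icc (0:ℝ) 1, |Real.log (Metric.infDist z Λ)| with hI
  have hI0 : 0 ≤ I := integral_nonneg fun z => abs_nonneg _
  rw [← Finset.sum_div] at h1
  have h3 : I / (2 * Real.log 2) ≤ I := by
    apply div_le_self hI0
    linarith
  linarith

end Pool.Agent.Helper82.HG
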