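import Pool.Agent.Helper82.HG.St2

/-!
# MP_10ef18_an, module LIP
-/

set_option autoImplicit false

namespace Pool.Agent.Helper82.HG

open Set MeasureTheory

/-- a continuous function of period one is bounded -/
private theorem bdd_of_periodic {h : ℝ → ℝ} (hc : Continuous h) (hp : Function.Periodic h 1) :
    ∃ B : ℝ, ∀ x, |h x| ≤ B := by
  obtain ⟨B, hB⟩ := (isCompact_Icc (a := (0 : ℝ)) (b := 1)).exists_bound_of_continuousOn
    hc.continuousOn
  refine ⟨B, fun x => ?_⟩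
  obtain ⟨y, hy, hxy⟩ := hp.exists_mem_Ico₀ one_pos x
  rw [hxy]
  exact hB y ⟨hy.1, hy.2.le⟩

/-- Lipschitz from a bound of the derivative -/
private theorem lip_of_deriv {f : ℝ → ℝ} (hf : Differentiable ℝ f) {B : ℝ}
    (hB : ∀ x, |deriv f x| ≤ B) (x y : ℝ) : |f x - f y| ≤ B * |x - y| := by
  have := Convex.norm_image_sub_le_of_norm_deriv_le (f := f) (s := univ) (x := y) (y := x)
    (fun z _ => hf z) (fun z _ => hB z) convex_univ (mem_univ _) (mem_univ _)
  simpa [Real.norm_eq_abs] using this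

private theorem one_map (F : Equiv.Perm ℝ) (h2 : ContDiff ℝ 2 (⇑F))
    (h0 : ∀ x, deriv (⇑F) x ≠ 0) (hd : ∃ d : ℝ, (d = 1 ∨ d = -1) ∧ ∀ x : ℝ, F (x + 1) = F x + d) :
    ∃ B : ℝ, 0 ≤ B ∧ (∀ x y, |Real.log (|deriv (⇑F) x|) - Real.log (|deriv (⇑F) y|)| ≤ B * |x - y|) ∧
      ∀ x, |(deriv (⇑F) x)⁻¹| ≤ B := by
  obtain ⟨d, -, hd⟩ := hd
  have hdiff : Differentiable ℝ (⇑F) := h2.differentiable (by norm_num)
  have h1 : ContDiff ℝ 1 (deriv (⇑F)) := by
    have : ContDiff ℝ (1 + 1) (⇑F) := by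
      rw [one_add_one_eq_two]
      exact h2
    exact (contDiff_succ_iff_deriv.mp this).2.2
  have hgdiff : Differentiable ℝ (deriv (⇑F)) := h1.differentiable (by norm_num)
  have hgc : Continuous (deriv (⇑F)) := hgdiff.continuous
  have hg'c : Continuous (deriv (deriv (⇑F))) := h1.continuous_deriv (by norm_num)
  have hper : Function.Periodic (deriv (⇑F)) 1 := by
    intro x
    have e : (fun x => F (x + 1)) = fun x => F x + d := funext hd
    have e1 : deriv (fun x => F (x + 1)) x = deriv (fun x => F x + d) x := by rw [e]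
    rw [deriv_comp_add_const, deriv_add_const] at e1
    exact e1
  have hper' : Function.Periodic (deriv (deriv (⇑F))) 1 := by
    intro x
    have e : (fun x => deriv (⇑F) (x + 1)) = deriv (⇑F) := funext hper
    have e1 : deriv (fun x => deriv (⇑F) (x + 1)) x = deriv (deriv (⇑F)) x := by rw [e]
    rw [deriv_comp_add_const] at e1
    exact e1
  obtain ⟨B1, hB1⟩ := bdd_of_periodic (h := fun x => (deriv (⇑F) x)⁻¹) (hgc.inv₀ h0)
    (fun x => by show (deriv (⇑F) (x + 1))⁻¹ = _; rw [hper x])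
  obtain ⟨B2, hB2⟩ := bdd_of_periodic (h := fun x => deriv (deriv (⇑F)) x / deriv (⇑F) x)
    (hg'c.div hgc h0)
    (fun x => by
      show deriv (deriv (⇑F)) (x + 1) / deriv (⇑F) (x + 1) = _
      rw [hper x, hper' x])
  have hB1' : 0 ≤ B1 := (abs_nonneg _).trans (hB1 0)
  have hB2' : 0 ≤ B2 := (abs_nonneg _).trans (hB2 0)
  refine ⟨B1 + B2, by positivity, fun x y => ?_, fun x => (hB1 x).trans (by linarith)⟩
  have hL : Differentiable ℝ (fun x => Real.log (deriv (⇑F) x)) := fun x =>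
    (hgdiff x).log (h0 x)
  have hL' : ∀ x, deriv (fun x => Real.log (deriv (⇑F) x)) x
      = deriv (deriv (⇑F)) x / deriv (⇑F) x := by
    intro x
    exact ((hgdiff x).hasDerivAt.log (h0 x)).deriv
  have h3 := lip_of_deriv hL (B := B2) (fun x => by rw [hL' x]; exact hB2 x) x y
  rw [Real.log_abs, Real.log_abs]
  refine h3.trans ?_
  apply mul_le_mul_of_nonneg_right _ (abs_nonneg _)
  linarith

private theorem ap_inv (F : Equiv.Perm ℝ) (x : ℝ) : F (F⁻¹ x) = x := F.apply_symm_apply x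

private theorem nice_map (F : Equiv.Perm ℝ) (h2 : ContDiff ℝ 2 (⇑F))
    (h0 : ∀ x, deriv (⇑F) x ≠ 0) (hd : ∃ d : ℝ, (d = 1 ∨ d = -1) ∧ ∀ x : ℝ, F (x + 1) = F x + d) :
    ∃ K : ℝ, 0 ≤ K ∧ ∀ K' : ℝ, K ≤ K' → Nice K' F ∧ Nice K' F⁻¹ := by
  obtain ⟨B, hB0, hB, hBi⟩ := one_map F h2 h0 hd
  have hdiff : Differentiable ℝ (⇑F) := h2.differentiable (by norm_num)
  have hstr : ∀ x, HasStrictDerivAt (⇑F) (deriv (⇑F) x) x := fun x =>
    h2.contDiffAt.hasStrictDerivAt (by norm_num)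
  have hopen : IsOpenMap (⇑F) := isOpenMap_of_hasStrictDerivAt hstr h0
  have hcont : Continuous (⇑F⁻¹) := F.continuous_symm_iff.mpr hopen
  have hinv : ∀ x, HasDerivAt (⇑F⁻¹) (deriv (⇑F) (F⁻¹ x))⁻¹ x := by
    intro x
    apply HasDerivAt.of_local_left_inverse hcont.continuousAt (hdiff _).hasDerivAt (h0 _)
    filter_upwards with y
    exact F.apply_symm_apply y
  have hinvd : ∀ x, deriv (⇑F⁻¹) x = (deriv (⇑F) (F⁻¹ x))⁻¹ := fun x => (hinv x).deriv
  have hLi := lip_of_deriv (f := ⇑F⁻¹) (fun x => (hinv x).differentiableAt) (B := B)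
    (fun x => by rw [hinvd x]; exact hBi _)
  refine ⟨B + B * B, by positivity, fun K' hK' => ⟨⟨hdiff, h0, ?_, hd⟩,
    ⟨fun x => (hinv x).differentiableAt, ?_, ?_, ?_⟩⟩⟩
  · intro x y
    refine (hB x y).trans (mul_le_mul_of_nonneg_right ?_ (abs_nonneg _))
    nlinarith
  · intro x
    rw [hinvd x]
    exact inv_ne_zero (h0 _)
  · intro x y
    rw [hinvd x, hinvd y, abs_inv, abs_inv, Real.log_inv, Real.log_inv]
    have h1 : ∀ a b : ℝ, |-a - -b| = |a - b| := by
      intro a b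
      rw [← abs_neg]
      congr 1
      ring
    rw [h1]
    refine (hB _ _).trans ?_
    calc B * |F⁻¹ x - F⁻¹ y| ≤ B * (B * |x - y|) := mul_le_mul_of_nonneg_left (hLi x y) hB0
      _ = (B * B) * |x - y| := by ring
      _ ≤ K' * |x - y| := mul_le_mul_of_nonneg_right (by linarith) (abs_nonneg _)
  · obtain ⟨d, hd1, hd⟩ := hd
    refine ⟨d, hd1, fun x => ?_⟩
    rcases hd1 with rfl | rfl
    · apply F.injective
      rw [hd, ap_inv, ap_inv]
    · have h3 := hd (F⁻¹ x - 1)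
      rw [sub_add_cancel, ap_inv] at h3
      apply F.injective
      rw [ap_inv, ← sub_eq_add_neg]
      linarith

theorem tLIP : StLIP := by
  intro n F h2 h0 hd
  choose K hK0 hK using fun i => nice_map (F i) (h2 i) (h0 i) (hd i)
  have hle : ∀ i, K i ≤ 1 + ∑ i, K i := by
    intro i
    have := Finset.single_le_sum (f := K) (fun i _ => hK0 i) (Finset.mem_univ i)
    linarith
  refine ⟨1 + ∑ i, K i, {s | ∃ i, s = F i ∨ s = (F i)⁻¹}, ?_, ⟨?_, ?_⟩, ?_⟩
  · have := Finset.sum_nonneg (s := Finset.univ) (f := K) (fun i _ => hK0 i)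
    linarith
  · rintro s ⟨i, rfl | rfl⟩
    · exact (hK i _ (hle i)).1
    · exact (hK i _ (hle i)).2
  · rintro s ⟨i, rfl | rfl⟩
    · exact ⟨i, Or.inr rfl⟩
    · exact ⟨i, Or.inl (inv_inv _)⟩
  · apply le_antisymm
    · unfold Gr
      rw [Subgroup.closure_le]
      rintro s (rfl | ⟨i, rfl | rfl⟩)
      · exact Subgroup.subset_closure (Or.inl rfl)
      · exact Subgroup.subset_closure (Or.inr ⟨i, rfl⟩)
      · exact Subgroup.inv_mem _ (Subgroup.subset_closure (Or.inr ⟨i, rfl⟩))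
    · rw [Subgroup.closure_le]
      rintro s (rfl | ⟨i, rfl⟩)
      · exact Subgroup.subset_closure (Or.inl rfl)
      · exact Subgroup.subset_closure (Or.inr ⟨i, Or.inl rfl⟩)

end Pool.Agent.Helper82.HG
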