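import Pool.Agent.Helper80.HG.St

/-!
# Project HG (MP_1bacb5_al), module WN: window lemma
-/

set_option autoImplicit false

namespace Pool.Agent.Helper82.HG

open Pool.Agent.Helper80.HG Pool.Agent.Helper58.RK Filter Topology Asymptotics
open scoped commutatorElement

theorem wn_lit {L M : ℝ → ℝ} (h : Tendsto (fun x => M x - L x) atTop atTop) :
    (fun x => Real.exp (-M x)) =o[atTop] fun x => Real.exp (-L x) := by
  rw [isLittleO_iff_tendsto (fun x hx => absurd hx (Real.exp_ne_zero _))]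
  have h1 : (fun x => Real.exp (-M x) / Real.exp (-L x)) = fun x => Real.exp (-(M x - L x)) := by
    funext x
    rw [← Real.exp_sub]
    congr 1
    ring
  rw [h1]
  exact Real.tendsto_exp_neg_atTop_nhds_zero.comp h

theorem hWN : StWN := by
  intro hLN hDP hCM H hB Γ _ θ r hS hr a L Λ δ C hδ hδ1 hΛ hΛt hps hgap hlow hwin
  have hCM' := hCM hLN hDP H hB Γ θ hS Λ hΛ hΛt δ hδ hδ1
  obtain ⟨B, hBm⟩ := hS.big (fun z => Real.exp (-Λ z))
  have hE : ∀ i : ℕ, ∃ S : Subgroup Γ, ∀ g, g ∈ S ↔ dsp θ g =o[atTop] fun z => Real.exp (-L i z) :=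
    fun i => hS.lit _
  choose E hEm using hE
  have haB : ∀ i ≤ r, a i ∈ B := by
    intro i hi
    rw [hBm]
    obtain ⟨-, -, h3⟩ := hps i hi
    refine IsBigO.of_bound (Real.exp C) ?_
    filter_upwards [h3, hlow i hi] with x h4 h5
    rw [h4, Real.norm_eq_abs, Real.norm_eq_abs, Real.abs_exp, Real.abs_exp, ← Real.exp_add]
    exact Real.exp_le_exp.2 (by linarith)
  have hcl : Subgroup.closure (a '' Set.Iic r) ≤ B := by
    rw [Subgroup.closure_le]
    rintro _ ⟨i, hi, rfl⟩
    exact haB i hi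
  refine rank_lemma hr a E ?_ ?_ ?_
  · intro x hx y hy i hi
    rw [hEm]
    have h1 := hCM' x y ((hBm x).1 (hcl hx)) ((hBm y).1 (hcl hy))
    exact h1.trans_isLittleO (wn_lit (hwin i hi))
  · intro i hi n hn hmem
    rw [hEm] at hmem
    obtain ⟨-, -, h3⟩ := hps i hi
    have hpos : Pos θ (a i) := by
      filter_upwards [h3] with x hx
      have h5 : 0 < dsp θ (a i) x := by rw [hx]; exact Real.exp_pos _
      unfold dsp at h5
      linarith
    have h4 := hS.pow (a i) hpos n hn
    have h5 := hmem.def (show (0 : ℝ) < 1 / 2 by norm_num)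
    obtain ⟨x, h6, h7, h8⟩ := (h3.and (h4.and h5)).exists
    have h9 : dsp θ (a i) x ≤ dsp θ (a i ^ n) x := by
      unfold dsp
      linarith
    rw [h6] at h9
    have h10 := Real.exp_pos (-L i x)
    rw [Real.norm_eq_abs, Real.norm_eq_abs, Real.abs_exp, abs_of_pos (h10.trans_le h9)] at h8
    linarith
  · intro i j hij hj
    rw [hEm]
    obtain ⟨-, -, h3⟩ := hps j hj
    have h4 : dsp θ (a j) =ᶠ[atTop] fun x => Real.exp (-L j x) := h3
    exact h4.trans_isLittleO (wn_lit (hgap i j hij hj))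

end Pool.Agent.Helper82.HG
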