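import Pool.Agent.Helper82.HG.Defs

/-!
# MP_10ef18_an (Hector: finiteness of gap orbits), statements of the modules

Each `StXX : Prop` is proved in the module `Pool/Agent/Helper82/HG/M_XX.lean` as
`theorem tXX : StXX` (possibly `theorem tXX : StYY → StXX`, see the docstring).
-/

set_option autoImplicit false

namespace Pool.Agent.Helper82.HG

open Set MeasureTheory

/-- MODULE LIP (`theorem tLIP : StLIP`).
PROOF. `S = {F i} ∪ {(F i)⁻¹}`. `F i (x+1) = F i x + d` gives `deriv (F i) (x+1) = deriv (F i) x`,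
so the continuous functions `|deriv|`, `1/|deriv|`, `|deriv (deriv)|/|deriv|` are bounded by a
constant `B ≥ 1` (compactness of `[0,1]` and periodicity); `log |deriv (F i)|` has derivative
`deriv (deriv F)/deriv F`, so it is `B`-Lipschitz. For the inverse (strictly monotone bijection with
nonvanishing derivative, hence differentiable with derivative `1/(deriv F) (F⁻¹ x)`), the log is
`- log |deriv F (F⁻¹ x)|`, which is `B * B`-Lipschitz. `K` = maximum over `i` of `B * B`, and `≥ 1`.
`F⁻¹ (x + 1) = F⁻¹ x + d` follows from `F (x + d) = F x + 1` (d = ±1).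
The groups agree since the closure contains inverses. -/
def StLIP : Prop :=
  ∀ (n : ℕ) (F : Fin n → Equiv.Perm ℝ),
    (∀ i, ContDiff ℝ 2 (⇑(F i))) →
    (∀ i x, deriv (⇑(F i)) x ≠ 0) →
    (∀ i, ∃ d : ℝ, (d = 1 ∨ d = -1) ∧ ∀ x : ℝ, F i (x + 1) = F i x + d) →
    ∃ (K : ℝ) (S : Set (Equiv.Perm ℝ)), 1 ≤ K ∧ Gens K S ∧
      Gr S = Subgroup.closure (insert (Equiv.addRight (1 : ℝ)) (Set.range F))

/-- MODULE BAS (`theorem tBAS : StBAS`). Every element of the group is a diffeomorphism, commutes
with the translation up to sign, and is strictly monotone or antitone.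
PROOF. `Subgroup.closure_induction`; the inverse of a strictly monotone (antitone) differentiable
bijection with nonvanishing derivative has the same properties. A continuous injective map of `ℝ`
is strictly monotone or antitone (`Continuous.strictMono_of_inj`). -/
def StBAS : Prop :=
  ∀ (K : ℝ) (S : Set (Equiv.Perm ℝ)), Gens K S → ∀ g ∈ Gr S,
    Differentiable ℝ g ∧ (∀ x, deriv g x ≠ 0) ∧ (StrictMono g ∨ StrictAnti g) ∧
    ∃ d : ℝ, (d = 1 ∨ d = -1) ∧ ∀ x, g (x + 1) = g x + d

/-- MODULE LAM (`theorem tLAM : StBAS → StLAM`). Basic facts on `Λ`.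
PROOF. (a) apply `invt` to `g` and `g⁻¹`. (b) `frontier Λ` is closed, invariant (elements are
homeomorphisms by StBAS), contained in `Λ`, nonempty (`Λ` is nonempty because `Λ ∩ [0,1)` is infinite,
`Λ ≠ univ`, `ℝ` connected: `frontier_eq_empty_iff`), hence `= Λ`, so `interior Λ = ∅`.
(c) the set of accumulation points of `Λ` is closed, invariant, contained in `Λ`, nonempty
(`Λ ∩ [0,1)` is infinite and bounded, Bolzano-Weierstrass), hence `= Λ`.
(d) the closure of the orbit of `x` is closed, invariant, nonempty, contained in `Λ`, hence `= Λ`.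
(e) `a = sSup (Λ ∩ Iic z)`, `b = sInf (Λ ∩ Ici z)`; `Λ` is unbounded in both directions since
`Λ + 1 = Λ` and it is nonempty. (f) `a ∈ Λ` gives `a + 1 ∈ Λ`, so `b ≤ a + 1`.
(g) monotone/antitone bijections map the interval onto the interval, use (a).
(h) two different gaps have disjoint closures: they cannot overlap (an end point of one would be
inside the other), and a common end point would be isolated, against (c). -/
def StLAM : Prop :=
  ∀ (K : ℝ) (S : Set (Equiv.Perm ℝ)) (Λ : Set ℝ), Gens K S → Lam S Λ →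
    (∀ g ∈ Gr S, ∀ x, g x ∈ Λ ↔ x ∈ Λ) ∧
    interior Λ = ∅ ∧
    (∀ x ∈ Λ, ∀ ε > 0, ∃ y ∈ Λ, y ≠ x ∧ |y - x| < ε) ∧
    (∀ x ∈ Λ, ∀ U : Set ℝ, IsOpen U → (U ∩ Λ).Nonempty → ∃ g ∈ Gr S, g x ∈ U) ∧
    (∀ z, z ∉ Λ → ∃ a b, Gap Λ a b ∧ a < z ∧ z < b) ∧
    (∀ a b, Gap Λ a b → b - a ≤ 1) ∧
    (∀ a b, Gap Λ a b → ∀ g ∈ Gr S, Gap Λ (min (g a) (g b)) (max (g a) (g b))) ∧
    (∀ a b a' b', Gap Λ a b → Gap Λ a' b' → (a, b) ≠ (a', b') → b < a' ∨ b' < a)

/-- MODULE CTL (`theorem tCTL : StBAS → StCTL`). Control along a path.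
PROOF. Induction on the path (for all prefixes). Let `ℓ = len v`, `I` the interval of the statement
(length `ℓ + 2ρ`). `nil`: both sides 0. `tr`: the derivative does not change. `step s`: path `g, l'`,
new map `s * g`, new list `act g v :: l'`. The induction hypothesis (cost `l' ≤` cost `l`, lengths are
nonneg) gives `|log|g'(y)| - log|g'(z)|| ≤ (2 K cost l' / ℓ) |y - z| ≤ 2 K cost l (ℓ+2ρ)/ℓ ≤ 1/2`
on `I`. Mean value theorem between `v.1` and `v.2`: some `ξ` between them has
`|g'(ξ)| = len (act g v)/ℓ`; so `|g'| ≤ e^{1/2} len (act g v)/ℓ ≤ 2 len (act g v)/ℓ` on `I`, and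
`|g y - g z| ≤ 2 (len (act g v)/ℓ) |y - z|`. Chain rule:
`log|(s∘g)'(y)| - log|(s∘g)'(z)|` is at most `K |g y - g z|` plus the induction hypothesis,
i.e. at most `(2K/ℓ)(len (act g v) + cost l') |y - z|`. -/
def StCTL : Prop :=
  ∀ (K : ℝ) (S : Set (Equiv.Perm ℝ)), 0 ≤ K → Gens K S →
    ∀ (v : ℝ × ℝ) (h : Equiv.Perm ℝ) (l : List (ℝ × ℝ)) (ρ : ℝ), v.1 ≠ v.2 → 0 ≤ ρ →
    Pth S v h l → 4 * K * cost l * (len v + 2 * ρ) ≤ len v →
    ∀ y ∈ Icc (min v.1 v.2 - ρ) (max v.1 v.2 + ρ), ∀ z ∈ Icc (min v.1 v.2 - ρ) (max v.1 v.2 + ρ),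
      |Real.log (|deriv h y|) - Real.log (|deriv h z|)| ≤ 2 * K * cost l / len v * |y - z|

/-- MODULE CTM (`theorem tCTM : StBAS → StCTL → StCTM`). Bilipschitz control along a path.
PROOF. StCTL gives a variation of `log |h'|` of at most `2 K cost l (ℓ + 2ρ)/ℓ ≤ 1/2` on the
interval; some `ξ` between `v.1` and `v.2` has `|h'(ξ)| = len (act h v)/ℓ` (mean value theorem, `h`
differentiable by StBAS: a path is in `Gr S`), so `|h'|` is between `e^{-1/2} ≥ 1/2` times and
`e^{1/2} ≤ 2` times this number on the interval; mean value theorem between `y` and `z`. -/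
def StCTM : Prop :=
  ∀ (K : ℝ) (S : Set (Equiv.Perm ℝ)), 0 ≤ K → Gens K S →
    ∀ (v : ℝ × ℝ) (h : Equiv.Perm ℝ) (l : List (ℝ × ℝ)) (ρ : ℝ), v.1 ≠ v.2 → 0 ≤ ρ →
    Pth S v h l → 4 * K * cost l * (len v + 2 * ρ) ≤ len v →
    ∀ y ∈ Icc (min v.1 v.2 - ρ) (max v.1 v.2 + ρ), ∀ z ∈ Icc (min v.1 v.2 - ρ) (max v.1 v.2 + ρ),
      1 / 2 * (len (act h v) / len v) * |y - z| ≤ |h y - h z| ∧
      |h y - h z| ≤ 2 * (len (act h v) / len v) * |y - z|

/-- MODULE PA (`theorem tPA : StPA`). Shortest paths are simple, so their cost is at most `Θ`.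
PROOF. For `u` in the orbit let `m u` be the least length of a list `l` with
`∃ g, Pth S v g l ∧ act g v = u` (such paths exist: induction on `g ∈ Gr S`, using that `S` is closed
under inverses and that translations are free; it is convenient to prove by
`Subgroup.closure_induction` that for every `g ∈ Gr S` and every path `(h, l)` there is a path
`(g * h, l')`). `m` is invariant under integer translation (`tr`). Claim, by induction on `m u`: there
is a path `(g, l)` with `act g v = u`, `l.length = m u`, all entries `w` of `l` are in the orbit with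
`m w < m u` and the values `m w` along `l` are strictly decreasing (`l.Pairwise (m w > m w')`).
Indeed take any path of least length; after removing the final translations its last step is
`s * g'` with list `act g' v :: l'`; `w := act g' v` has `m w ≤ l'.length = m u - 1`, and
`m w ≥ m u - 1` since `u` is reachable from `w` with one step (up to a free translation); replace the
path to `w` by the one from the induction hypothesis. Elements of `u :: l` have different `m`, so
they are pairwise different modulo integer translation and different, so `Tot` applied to the finset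
of the list `u :: l` (nodup) gives the cost bound `cost l + len u ≤ Θ`. -/
def StPA : Prop :=
  ∀ (K : ℝ) (S : Set (Equiv.Perm ℝ)), Gens K S → ∀ (v : ℝ × ℝ) (Θ : ℝ), Tot S v Θ →
    ∀ g ∈ Gr S, ∃ h : Equiv.Perm ℝ, Good S v Θ h ∧ act h v = act g v

/-- MODULE PB (`theorem tPB : StPA → StPB`). If all pairs of paths with the same end agree at `y`
then every group element agrees at `y` with every good path with the same end.
PROOF. Write `g` as a product of elements of `S` and powers of `T` (closure induction in the form: the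
set of `g` with the property is closed under left multiplication by `s ∈ S` and by `T ^ m`;
`Subgroup.closure_induction_left`, or prove it for all products). `g = 1`: `1` is `Almost` (list
`[]`, `Θ ≥ 0` by `Tot` for the empty set), a good `h` is `Almost` (lengths are nonneg), so
`h y = 1 y`. `g = s * g'`: by StPA there is a good `h'` with `act h' v = act g' v`, and `g' y = h' y`;
`s * h'` is `Almost` with the list `act h' v :: l'`; `h` is `Almost`, same end, so
`h y = s (h' y) = g y`. `g = T ^ m * g'`: same with `T ^ m * h'`. -/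
def StPB : Prop :=
  ∀ (K : ℝ) (S : Set (Equiv.Perm ℝ)), Gens K S → ∀ (v : ℝ × ℝ) (Θ y : ℝ), Tot S v Θ →
    (∀ h k : Equiv.Perm ℝ, Almost S v Θ h → Almost S v Θ k → act h v = act k v → h y = k y) →
    ∀ g ∈ Gr S, ∀ h : Equiv.Perm ℝ, Good S v Θ h → act h v = act g v → g y = h y

/-- MODULE SUM (`theorem tSUM : StSUM`). Different gaps modulo translation have total length `≤ 1`.
PROOF. Translate every gap `u` so that `0 ≤ u.1 < 1` (the hypothesis is invariant, lengths too; use
`Int.fract`); they are pairwise different gaps with `u.1 ∈ [0,1)` and (since `Λ + 1 = Λ`) the gap with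
the largest `u.1` may stick out over `1`: but with `m` = the smallest `u.1`, all lie in `[m, m+1]`
because `m + 1 ∈ Λ`. Pairwise disjoint intervals in an interval of length 1: total length `≤ 1`
(measure of a disjoint union, `measure_biUnion_finset`, `Real.volume_Ioo`). -/
def StSUM : Prop :=
  ∀ (Λ : Set ℝ), (∀ x, x ∈ Λ ↔ x + 1 ∈ Λ) → ∀ s : Finset (ℝ × ℝ), (∀ u ∈ s, Gap Λ u.1 u.2) →
    (∀ u ∈ s, ∀ w ∈ s, Eqv u w → u = w) → ∑ u ∈ s, (u.2 - u.1) ≤ 1

end Pool.Agent.Helper82.HG
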